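import Pool.Agent.W_MP_654ec6.D.Defs

/-!
# Task D2: the easy phases of the neck function, and scaling

`neckOK_round` (`μ = 0`): `Rtt = -3 l''/l`, `Rxx = Rss = -l''/l + 2 (1 - l'²)/l²`, `Rtx = 0`
(`nKx 0 η x = nKs 0 η x = 1`).
`neckOK_cone` (`μ = 1`, `0 ≤ l' ≤ Rp`, `0 ≤ l'' ≤ κ l / 3`): `Rtt = -3 l''/l`,
`Rxx, Rss ≥ -l''/l + 2 (Rp² - l'²)/l²` by `K_bounds` with `μ = 1`, `Rtx = 0`.
`neckOK_scale`: if `l t = σ l₁ (1 + (t - c)/σ)` and `m t = m₁ (1 + (t - c)/σ)` then all the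
components are multiplied by `σ⁻²`.
(The hypotheses on the derivatives hold near the point.)
-/

open scoped ContDiff Topology
open Filter Real

namespace Pool.Agent.W_MP_654ec6

theorem phases_deriv_const {m : ℝ → ℝ} {a t : ℝ} (hm : ∀ᶠ s in 𝓝 t, m s = a) :
    m t = a ∧ deriv m t = 0 ∧ deriv (deriv m) t = 0 := by
  have h1 : m =ᶠ[𝓝 t] fun _ => a := hm
  have h2 : deriv m =ᶠ[𝓝 t] fun _ => (0 : ℝ) := by
    have h3 := h1.deriv
    filter_upwards [h3] with s hs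
    rw [hs]
    simp
  refine ⟨h1.eq_of_nhds, h2.eq_of_nhds, ?_⟩
  have h4 := h2.deriv
  rw [h4.eq_of_nhds]
  simp

theorem phases_cos_pos {x : ℝ} (hx : x ∈ Lat) : 0 < Real.cos x :=
  Real.cos_pos_of_mem_Ioo hx

theorem phases_nKx_zero (η : ℝ → ℝ) (x : ℝ) : nKx 0 η x = 1 := by
  simp [nKx]

theorem phases_nKs_zero (η : ℝ → ℝ) {x : ℝ} (hx : x ∈ Lat) : nKs 0 η x = 1 := by
  have h := phases_cos_pos hx
  have h2 := Real.sin_sq_add_cos_sq x
  simp only [nKs, mul_zero, zero_mul, Real.exp_zero, one_mul]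
  rw [div_eq_one_iff_eq (by positivity)]
  linarith

theorem phases_nKx_one {Rp : ℝ} {η : ℝ → ℝ} (hη : LinkFun Rp η) {x : ℝ} (hx : x ∈ Lat) :
    Rp ^ 2 ≤ nKx 1 η x := by
  have h1 := hη.eta1 x hx
  have h2 : 0 < Real.exp (-2 * 1 * η x) := Real.exp_pos _
  have h3 : Real.exp (-2 * 1 * η x) * Real.exp (2 * η x) = 1 := by
    rw [← Real.exp_add]
    ring_nf
    exact Real.exp_zero
  unfold nKx
  calc Rp ^ 2 = Real.exp (-2 * 1 * η x) * (Rp ^ 2 * Real.exp (2 * η x)) := by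
        rw [mul_left_comm, h3, mul_one]
    _ ≤ Real.exp (-2 * 1 * η x) * (1 - deriv η x * Real.tan x) :=
        mul_le_mul_of_nonneg_left h1 h2.le
    _ = _ := by rw [one_mul]

theorem phases_nKs_one {Rp : ℝ} {η : ℝ → ℝ} (hη : LinkFun Rp η) {x : ℝ} (hx : x ∈ Lat) :
    Rp ^ 2 ≤ nKs 1 η x := by
  have h1 := hη.eta2 x hx
  have h := phases_cos_pos hx
  unfold nKs
  rw [le_div_iff₀ (by positivity), mul_one]
  exact h1

theorem neckOK_round {l m η : ℝ → ℝ} {κ t x : ℝ} (hκ : 0 ≤ κ) (hx : x ∈ Lat)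
    (hm : ∀ᶠ s in 𝓝 t, m s = 0) (hl : 0 < l t) (h1 : |deriv l t| ≤ 1)
    (h2 : deriv (deriv l) t ≤ 0) : NeckOK l m η κ t x := by
  obtain ⟨hm0, hm1, hm2⟩ := phases_deriv_const hm
  have hsq : deriv l t ^ 2 ≤ 1 := by
    rw [← sq_abs]
    exact pow_le_one₀ (abs_nonneg _) h1
  have e0 : 0 ≤ -deriv (deriv l) t / l t := div_nonneg (by linarith) hl.le
  have e1 : nRtt l m η t x = 3 * (-deriv (deriv l) t / l t) := by
    simp only [nRtt, hm1, hm2]
    ring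
  have e2 : nRxx l m η t x =
      -deriv (deriv l) t / l t + 2 * ((1 - deriv l t ^ 2) / l t ^ 2) := by
    simp only [nRxx, hm0, hm1, hm2, phases_nKx_zero]
    ring
  have e3 : nRss l m η t x =
      -deriv (deriv l) t / l t + 2 * ((1 - deriv l t ^ 2) / l t ^ 2) := by
    simp only [nRss, hm0, hm1, phases_nKx_zero, phases_nKs_zero η hx]
    ring
  have e4 : nRtx l m η t x = 0 := by
    simp [nRtx, hm1]
  have e5 : 0 ≤ (1 - deriv l t ^ 2) / l t ^ 2 := div_nonneg (by linarith) (by positivity)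
  have f1 : 0 ≤ nRtt l m η t x + κ := by rw [e1]; linarith
  have f2 : 0 ≤ nRxx l m η t x + κ := by rw [e2]; linarith
  have f3 : 0 ≤ nRss l m η t x + κ := by rw [e3]; linarith
  refine ⟨f1, f2, f3, ?_⟩
  rw [e4]
  have := mul_nonneg f1 f2
  simpa using this

theorem neckOK_cone {Rp : ℝ} {l m η : ℝ → ℝ} (hη : LinkFun Rp η) {κ t x : ℝ} (hκ : 0 ≤ κ)
    (hx : x ∈ Lat) (hm : ∀ᶠ s in 𝓝 t, m s = 1) (hl : 0 < l t) (h1 : 0 ≤ deriv l t)
    (h1' : deriv l t ≤ Rp) (h2 : 0 ≤ deriv (deriv l) t) (h2' : 3 * deriv (deriv l) t ≤ κ * l t) :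
    NeckOK l m η κ t x := by
  obtain ⟨hm0, hm1, hm2⟩ := phases_deriv_const hm
  have hsq : deriv l t ^ 2 ≤ Rp ^ 2 := pow_le_pow_left₀ h1 h1' 2
  have hx1 := phases_nKx_one hη hx
  have hs1 := phases_nKs_one hη hx
  have e0 : 3 * (deriv (deriv l) t / l t) ≤ κ := by
    rw [← mul_div_assoc, div_le_iff₀ hl]
    exact h2'
  have e00 : 0 ≤ deriv (deriv l) t / l t := div_nonneg h2 hl.le
  have e1 : nRtt l m η t x = -3 * (deriv (deriv l) t / l t) := by
    simp only [nRtt, hm1, hm2]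
    ring
  have e2 : nRxx l m η t x =
      -(deriv (deriv l) t / l t) + 2 * ((nKx 1 η x - deriv l t ^ 2) / l t ^ 2) := by
    simp only [nRxx, hm0, hm1, hm2]
    ring
  have e3 : nRss l m η t x = -(deriv (deriv l) t / l t) +
      ((nKx 1 η x - deriv l t ^ 2) / l t ^ 2 + (nKs 1 η x - deriv l t ^ 2) / l t ^ 2) := by
    simp only [nRss, hm0, hm1]
    ring
  have e4 : nRtx l m η t x = 0 := by
    simp [nRtx, hm1]
  have e5 : 0 ≤ (nKx 1 η x - deriv l t ^ 2) / l t ^ 2 := div_nonneg (by linarith) (by positivity)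
  have e6 : 0 ≤ (nKs 1 η x - deriv l t ^ 2) / l t ^ 2 := div_nonneg (by linarith) (by positivity)
  have f1 : 0 ≤ nRtt l m η t x + κ := by rw [e1]; linarith
  have f2 : 0 ≤ nRxx l m η t x + κ := by rw [e2]; linarith
  have f3 : 0 ≤ nRss l m η t x + κ := by rw [e3]; linarith
  refine ⟨f1, f2, f3, ?_⟩
  rw [e4]
  have := mul_nonneg f1 f2
  simpa using this

/-- first and second derivative of a rescaled function -/
theorem phases_deriv_scale {f f₁ : ℝ → ℝ} {a σ c t : ℝ} (hσ : 0 < σ)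
    (hf : ∀ᶠ s in 𝓝 t, f s = a * f₁ (1 + (s - c) / σ))
    (hf1 : ContDiffAt ℝ ∞ f₁ (1 + (t - c) / σ)) :
    f t = a * f₁ (1 + (t - c) / σ) ∧ deriv f t = a * deriv f₁ (1 + (t - c) / σ) / σ ∧
      deriv (deriv f) t = a * deriv (deriv f₁) (1 + (t - c) / σ) / σ ^ 2 := by
  have hu : ∀ s : ℝ, HasDerivAt (fun s : ℝ => 1 + (s - c) / σ) (1 / σ) s := fun s =>
    (((hasDerivAt_id s).sub_const c).div_const σ).const_add 1
  have hcont : ContinuousAt (fun s : ℝ => 1 + (s - c) / σ) t := (hu t).continuousAt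
  -- differentiability near the point
  have hd1 : ∀ᶠ u in 𝓝 (1 + (t - c) / σ), DifferentiableAt ℝ f₁ u := by
    have h1 : ContDiffAt ℝ 1 f₁ (1 + (t - c) / σ) := hf1.of_le (by exact_mod_cast le_top)
    have h2 := h1.eventually (by simp)
    filter_upwards [h2] with u hu
    exact hu.differentiableAt one_ne_zero
  have hd2 : DifferentiableAt ℝ (deriv f₁) (1 + (t - c) / σ) := by
    have h1 : ContDiffAt ℝ ∞ (deriv f₁) (1 + (t - c) / σ) := by
      have h2 : ContDiffAt ℝ (∞ : WithTop ℕ∞) (fderiv ℝ f₁) (1 + (t - c) / σ) :=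
        hf1.fderiv_right (m := ∞) (by simp)
      have h3 : deriv f₁ = fun u => fderiv ℝ f₁ u 1 := by
        funext u
        rfl
      rw [h3]
      exact h2.clm_apply contDiffAt_const
    exact h1.differentiableAt (by simp)
  have hev1 : deriv f =ᶠ[𝓝 t] fun s => a / σ * deriv f₁ (1 + (s - c) / σ) := by
    have h1 : f =ᶠ[𝓝 t] fun s => a * f₁ (1 + (s - c) / σ) := hf
    filter_upwards [h1.deriv, hcont.eventually hd1] with s hs hds
    rw [hs]
    have h2 : HasDerivAt (fun s => a * f₁ (1 + (s - c) / σ))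
        (a * (deriv f₁ (1 + (s - c) / σ) * (1 / σ))) s :=
      (hds.hasDerivAt.comp s (hu s)).const_mul a
    rw [h2.deriv]
    ring
  have hf' : f =ᶠ[𝓝 t] fun s => a * f₁ (1 + (s - c) / σ) := hf
  refine ⟨hf'.eq_of_nhds, ?_, ?_⟩
  · rw [hev1.eq_of_nhds]
    ring
  · rw [hev1.deriv.eq_of_nhds]
    have h2 : HasDerivAt (fun s => a / σ * deriv f₁ (1 + (s - c) / σ))
        (a / σ * (deriv (deriv f₁) (1 + (t - c) / σ) * (1 / σ))) t :=
      (hd2.hasDerivAt.comp t (hu t)).const_mul (a / σ)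
    rw [h2.deriv]
    field_simp

theorem neckOK_scale {l m l₁ m₁ η : ℝ → ℝ} {σ c κ t x : ℝ} (hσ : 0 < σ)
    (hl : ∀ᶠ s in 𝓝 t, l s = σ * l₁ (1 + (s - c) / σ))
    (hm : ∀ᶠ s in 𝓝 t, m s = m₁ (1 + (s - c) / σ)) (hl1 : ContDiffAt ℝ ∞ l₁ (1 + (t - c) / σ))
    (hm1 : ContDiffAt ℝ ∞ m₁ (1 + (t - c) / σ)) (h : NeckOK l₁ m₁ η (κ * σ ^ 2) (1 + (t - c) / σ) x) :
    NeckOK l m η κ t x := by
  obtain ⟨a0, a1, a2⟩ := phases_deriv_scale hσ hl hl1
  obtain ⟨b0, b1, b2⟩ := phases_deriv_scale (f := m) (a := 1) hσ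
    (by filter_upwards [hm] with s hs; rw [hs, one_mul]) hm1
  rw [one_mul] at b0
  set u := 1 + (t - c) / σ with hu
  have hσ2 : 0 < σ ^ 2 := by positivity
  have hσn : σ ≠ 0 := hσ.ne'
  have c1 : deriv l t / l t = (deriv l₁ u / l₁ u) / σ := by
    rw [a0, a1]
    rcases eq_or_ne (l₁ u) 0 with h0 | h0
    · simp [h0]
    · field_simp
  have c2 : deriv (deriv l) t / l t = (deriv (deriv l₁) u / l₁ u) / σ ^ 2 := by
    rw [a0, a2]
    rcases eq_or_ne (l₁ u) 0 with h0 | h0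
    · simp [h0]
    · field_simp
  have e1 : nRtt l m η t x = nRtt l₁ m₁ η u x / σ ^ 2 := by
    have q1 : -3 * deriv (deriv l) t / l t = -3 * (deriv (deriv l) t / l t) := by ring
    have q2 : -3 * deriv (deriv l₁) u / l₁ u = -3 * (deriv (deriv l₁) u / l₁ u) := by ring
    simp only [nRtt]
    rw [q1, q2, c1, c2, b1, b2]
    field_simp
  have e2 : nRxx l m η t x = nRxx l₁ m₁ η u x / σ ^ 2 := by
    have q1 : -deriv (deriv l) t / l t = -(deriv (deriv l) t / l t) := by ring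
    have q2 : -deriv (deriv l₁) u / l₁ u = -(deriv (deriv l₁) u / l₁ u) := by ring
    have q3 : 2 * nKx (m t) η x / l t ^ 2 = (2 * nKx (m₁ u) η x / l₁ u ^ 2) / σ ^ 2 := by
      rw [a0, b0, mul_pow, div_div]
      ring_nf
    simp only [nRxx]
    rw [q1, q2, q3, c1, c2, b1, b2]
    field_simp
  have e3 : nRss l m η t x = nRss l₁ m₁ η u x / σ ^ 2 := by
    have q1 : -deriv (deriv l) t / l t = -(deriv (deriv l) t / l t) := by ring
    have q2 : -deriv (deriv l₁) u / l₁ u = -(deriv (deriv l₁) u / l₁ u) := by ring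
    have q3 : (nKx (m t) η x + nKs (m t) η x) / l t ^ 2 =
        ((nKx (m₁ u) η x + nKs (m₁ u) η x) / l₁ u ^ 2) / σ ^ 2 := by
      rw [a0, b0, mul_pow, div_div]
      ring_nf
    simp only [nRss]
    rw [q1, q2, q3, c1, c2, b1]
    field_simp
  have e4 : nRtx l m η t x = nRtx l₁ m₁ η u x / σ ^ 2 := by
    simp only [nRtx]
    rw [a0, b0, b1]
    rw [div_div]
    have : σ * l₁ u * Real.exp (m₁ u * η x) * 1 = σ * (l₁ u * Real.exp (m₁ u * η x)) := by ring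
    rcases eq_or_ne (l₁ u) 0 with h0 | h0
    · simp [h0]
    · have he := Real.exp_pos (m₁ u * η x)
      field_simp
  obtain ⟨h1, h2, h3, h4⟩ := h
  have f1 : nRtt l m η t x + κ = (nRtt l₁ m₁ η u x + κ * σ ^ 2) / σ ^ 2 := by
    rw [e1]; field_simp
  have f2 : nRxx l m η t x + κ = (nRxx l₁ m₁ η u x + κ * σ ^ 2) / σ ^ 2 := by
    rw [e2]; field_simp
  have f3 : nRss l m η t x + κ = (nRss l₁ m₁ η u x + κ * σ ^ 2) / σ ^ 2 := by
    rw [e3]; field_simp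
  refine ⟨?_, ?_, ?_, ?_⟩
  · rw [f1]; exact div_nonneg h1 hσ2.le
  · rw [f2]; exact div_nonneg h2 hσ2.le
  · rw [f3]; exact div_nonneg h3 hσ2.le
  · rw [f1, f2, e4, div_pow, div_mul_div_comm, ← sq]
    exact div_le_div_of_nonneg_right h4 (by positivity)

end Pool.Agent.W_MP_654ec6
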