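import Mathlib

/-!
# Part D (the neck): definitions

The metric `dt² + λ(t)² (e^{2 μ(t) η(x)} dx² + cos² x dσ²)`, `|x| < π/2`, is
`warpMet (neckA λ μ η) (neckB λ)`. `nRtt, nRxx, nRss, nRtx` are the components of its Ricci tensor in
the orthonormal frame.
-/

open scoped ContDiff Topology
open Filter Real

namespace Pool.Agent.W_MP_654ec6

/-- The open interval of latitudes. -/
def Lat : Set ℝ := Set.Ioo (-(π / 2)) (π / 2)

noncomputable def neckA (l m η : ℝ → ℝ) : ℝ → ℝ → ℝ := fun t x => l t * Real.exp (m t * η x)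

noncomputable def neckB (l : ℝ → ℝ) : ℝ → ℝ → ℝ := fun t x => l t * Real.cos x

/-- `K_x = e^{-2 μ η} (1 - μ η' tan x)`. -/
noncomputable def nKx (μ : ℝ) (η : ℝ → ℝ) (x : ℝ) : ℝ :=
  Real.exp (-2 * μ * η x) * (1 - μ * deriv η x * Real.tan x)

/-- `K_σ = (1 - e^{-2 μ η} sin² x) / cos² x`. -/
noncomputable def nKs (μ : ℝ) (η : ℝ → ℝ) (x : ℝ) : ℝ :=
  (1 - Real.exp (-2 * μ * η x) * Real.sin x ^ 2) / Real.cos x ^ 2

noncomputable def nRtt (l m η : ℝ → ℝ) (t x : ℝ) : ℝ :=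
  -3 * deriv (deriv l) t / l t - deriv (deriv m) t * η x -
    2 * (deriv l t / l t) * deriv m t * η x - deriv m t ^ 2 * η x ^ 2

noncomputable def nRxx (l m η : ℝ → ℝ) (t x : ℝ) : ℝ :=
  -deriv (deriv l) t / l t - deriv (deriv m) t * η x -
    4 * (deriv l t / l t) * deriv m t * η x - deriv m t ^ 2 * η x ^ 2 -
    2 * (deriv l t / l t) ^ 2 + 2 * nKx (m t) η x / l t ^ 2

noncomputable def nRss (l m η : ℝ → ℝ) (t x : ℝ) : ℝ :=
  -deriv (deriv l) t / l t - 2 * (deriv l t / l t) ^ 2 - (deriv l t / l t) * deriv m t * η x +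
    (nKx (m t) η x + nKs (m t) η x) / l t ^ 2

noncomputable def nRtx (l m η : ℝ → ℝ) (t x : ℝ) : ℝ :=
  -2 * deriv m t * η x * Real.tan x / (l t * Real.exp (m t * η x))

/-- `Ric ≥ -κ` for the neck metric at `(t, x)`. -/
def NeckOK (l m η : ℝ → ℝ) (κ t x : ℝ) : Prop :=
  0 ≤ nRtt l m η t x + κ ∧ 0 ≤ nRxx l m η t x + κ ∧ 0 ≤ nRss l m η t x + κ ∧
    nRtx l m η t x ^ 2 ≤ (nRtt l m η t x + κ) * (nRxx l m η t x + κ)

/-- The properties of the function `η` of a link (`Rp` is the maximal radius of its parallel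
spheres): see section L of the proof. -/
structure LinkFun (Rp : ℝ) (η : ℝ → ℝ) : Prop where
  Rp_pos : 0 < Rp
  Rp_lt : Rp < 1 / 8
  smooth : ContDiffOn ℝ ∞ η Lat
  eta1 : ∀ x ∈ Lat, Rp ^ 2 * Real.exp (2 * η x) ≤ 1 - deriv η x * Real.tan x
  eta2 : ∀ x ∈ Lat, Rp ^ 2 * Real.cos x ^ 2 ≤ 1 - Real.exp (-2 * η x) * Real.sin x ^ 2
  lower : ∀ x ∈ Lat, -1 ≤ η x
  upper : ∀ x ∈ Lat, η x ≤ Real.log (1 / Rp)
  pole : ∃ C : ℝ, ∀ x ∈ Lat, |η x| ≤ C * Real.cos x ^ 2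

end Pool.Agent.W_MP_654ec6
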