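import Pool.Agent.W_MP_654ec6.A.Warp
import Pool.Agent.W_MP_654ec6.D.Defs

/-!
# Task D1: the Ricci curvature of the neck metric

Apply `ricq_warp` with `A = l e^{m η}`, `b = l cos x`:
`A_t/A = l'/l + m' η`, `A_tt/A = l''/l + m'' η + 2 (l'/l) m' η + m'² η²`, `A_x/A = m η'`,
`b_t = l' cos x`, `b_tt = l'' cos x`, `b_x = -l sin x`, `b_tx = -l' sin x`, `b_xx = -l cos x`. One finds
`Rtt = nRtt`, `Rtx = nRtx`, `Rxx = nRxx`, `Rss = nRss` (checked numerically), so
`ricq + κ qf = (Rtt + κ) w0² + 2 Rtx w0 w1 + (Rxx + κ) w1² + (Rss + κ) (w2² + w3²) ≥ 0` under `NeckOK`.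
`K_bounds` (section L3): with `y = Rp² e^{2 η}`, `1 - μ η' tan x ≥ 1 - μ + μ y ≥ y^μ`
(weighted AM-GM, `Real.geom_mean_le_arith_mean2_weighted`), and
`e^{-2 μ η} ≤ 1 - μ + μ e^{-2 η}` (same inequality).
-/

open scoped ContDiff Topology
open Filter Real

namespace Pool.Agent.W_MP_654ec6

theorem ric_cos_pos {x : ℝ} (hx : x ∈ Lat) : 0 < Real.cos x :=
  Real.cos_pos_of_mem_Ioo hx

/-- `y ^ μ ≤ 1 - μ + μ y`. -/
theorem ric_amgm {μ y : ℝ} (hμ : μ ∈ Set.Icc (0 : ℝ) 1) (hy : 0 ≤ y) :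
    y ^ μ ≤ 1 - μ + μ * y := by
  have h := Real.geom_mean_le_arith_mean2_weighted (w₁ := 1 - μ) (w₂ := μ) (p₁ := 1) (p₂ := y)
    (by linarith [hμ.2]) hμ.1 zero_le_one hy (by ring)
  rw [Real.one_rpow, one_mul, mul_one] at h
  exact h

theorem K_bounds {Rp : ℝ} {η : ℝ → ℝ} (h : LinkFun Rp η) {μ x : ℝ} (hμ : μ ∈ Set.Icc (0 : ℝ) 1)
    (hx : x ∈ Lat) : Rp ^ (2 * μ) ≤ nKx μ η x ∧ Rp ^ (2 * μ) ≤ nKs μ η x := by
  have hR := h.Rp_pos
  have hRμ : Rp ^ (2 * μ) = (Rp ^ 2) ^ μ := by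
    rw [Real.rpow_mul hR.le, Real.rpow_two]
  constructor
  · unfold nKx
    have h1 := h.eta1 x hx
    have h2 : (Rp ^ 2 * Real.exp (2 * η x)) ^ μ ≤ 1 - μ + μ * (Rp ^ 2 * Real.exp (2 * η x)) :=
      ric_amgm hμ (by positivity)
    have h3 : (Rp ^ 2 * Real.exp (2 * η x)) ^ μ = Rp ^ (2 * μ) * Real.exp (2 * μ * η x) := by
      rw [Real.mul_rpow (by positivity) (Real.exp_pos _).le, hRμ, ← Real.exp_mul]
      congr 2
      ring
    have h4 : Rp ^ (2 * μ) * Real.exp (2 * μ * η x) ≤ 1 - μ * deriv η x * Real.tan x := by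
      rw [← h3]
      refine h2.trans ?_
      have h5 := mul_le_mul_of_nonneg_left h1 hμ.1
      nlinarith
    have h6 := mul_le_mul_of_nonneg_left h4 (Real.exp_pos (-2 * μ * η x)).le
    refine le_trans (le_of_eq ?_) h6
    have h7 : Real.exp (-2 * μ * η x) * Real.exp (2 * μ * η x) = 1 := by
      rw [← Real.exp_add]
      have : -2 * μ * η x + 2 * μ * η x = 0 := by ring
      rw [this, Real.exp_zero]
    calc Rp ^ (2 * μ) = Rp ^ (2 * μ) * (Real.exp (-2 * μ * η x) * Real.exp (2 * μ * η x)) := by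
          rw [h7, mul_one]
      _ = Real.exp (-2 * μ * η x) * (Rp ^ (2 * μ) * Real.exp (2 * μ * η x)) := by ring
  · unfold nKs
    have hc := ric_cos_pos hx
    have hc2 : 0 < Real.cos x ^ 2 := by positivity
    rw [le_div_iff₀ hc2]
    have h1 := h.eta2 x hx
    have h2 : (Real.exp (-2 * η x)) ^ μ ≤ 1 - μ + μ * Real.exp (-2 * η x) :=
      ric_amgm hμ (Real.exp_pos _).le
    have h3 : (Real.exp (-2 * η x)) ^ μ = Real.exp (-2 * μ * η x) := by
      rw [← Real.exp_mul]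
      congr 1
      ring
    rw [h3] at h2
    have h4 : (Rp ^ 2) ^ μ ≤ 1 - μ + μ * Rp ^ 2 := ric_amgm hμ (by positivity)
    rw [hRμ]
    have h5 := mul_le_mul_of_nonneg_right h4 hc2.le
    have h6 := mul_le_mul_of_nonneg_right h2 (sq_nonneg (Real.sin x))
    have h7 := mul_le_mul_of_nonneg_left h1 hμ.1
    have h8 := Real.sin_sq_add_cos_sq x
    have h9 : μ * Real.sin x ^ 2 + μ * Real.cos x ^ 2 = μ := by rw [← mul_add, h8, mul_one]
    linarith

theorem ric_psd {P Q R : ℝ} (hP : 0 ≤ P) (hQ : 0 ≤ Q) (h : R ^ 2 ≤ P * Q) (a b : ℝ) :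
    0 ≤ P * a ^ 2 + 2 * R * a * b + Q * b ^ 2 := by
  rcases hP.eq_or_lt with hP0 | hP0
  · rw [← hP0] at h ⊢
    have h1 : R = 0 := by
      have h2 : R ^ 2 ≤ 0 := by linarith
      exact pow_eq_zero_iff two_ne_zero |>.1 (le_antisymm h2 (sq_nonneg R))
    rw [h1]
    have := mul_nonneg hQ (sq_nonneg b)
    linarith
  · have h1 : 0 ≤ P * (P * a ^ 2 + 2 * R * a * b + Q * b ^ 2) := by
      have h2 : P * (P * a ^ 2 + 2 * R * a * b + Q * b ^ 2) =
          (P * a + R * b) ^ 2 + (P * Q - R ^ 2) * b ^ 2 := by ring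
      rw [h2]
      have h3 := mul_nonneg (sub_nonneg.2 h) (sq_nonneg b)
      have h4 := sq_nonneg (P * a + R * b)
      linarith
    exact nonneg_of_mul_nonneg_right h1 hP0

theorem ric_qf_warp (A b : ℝ → ℝ → ℝ) (y v : E4) :
    qf (warpMet A b y) v = v 0 ^ 2 + (A (y 0) (y 1) * v 1) ^ 2 +
      ((b (y 0) (y 1) * v 2) ^ 2 + (b (y 0) (y 1) * Real.sin (y 2) * v 3) ^ 2) := by
  simp [qf, warpMet, Fin.sum_univ_four]
  ring

theorem ric_eventually_diff {f : ℝ → ℝ} {t : ℝ} (hf : ContDiffAt ℝ ∞ f t) :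
    ∀ᶠ s in 𝓝 t, DifferentiableAt ℝ f s := by
  have := (hf.of_le (m := 1) (by exact_mod_cast le_top)).eventually (by simp)
  filter_upwards [this] with q hq
  exact hq.differentiableAt (by simp)

theorem ric_deriv_diff {f : ℝ → ℝ} {t : ℝ} (hf : ContDiffAt ℝ ∞ f t) :
    DifferentiableAt ℝ (deriv f) t := by
  have h1 : ContDiffAt ℝ ∞ (fderiv ℝ f) t := hf.fderiv_right (m := ∞) (by exact_mod_cast le_top)
  have h2 : ContDiffAt ℝ ∞ (fun s => fderiv ℝ f s 1) t := h1.clm_apply contDiffAt_const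
  exact h2.differentiableAt (by simp)

theorem ric_dTA {l m η : ℝ → ℝ} {t x : ℝ} (hl : DifferentiableAt ℝ l t)
    (hm : DifferentiableAt ℝ m t) :
    dT (neckA l m η) t x = deriv l t * Real.exp (m t * η x) +
      l t * (Real.exp (m t * η x) * (deriv m t * η x)) := by
  have h1 := hl.hasDerivAt.mul ((hm.hasDerivAt.mul_const (η x)).exp)
  exact h1.deriv

theorem ric_dXA {l m η : ℝ → ℝ} {t x : ℝ} (hη : DifferentiableAt ℝ η x) :
    dX (neckA l m η) t x = l t * (Real.exp (m t * η x) * (m t * deriv η x)) := by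
  have h1 := ((hη.hasDerivAt.const_mul (m t)).exp).const_mul (l t)
  exact h1.deriv

theorem ric_dTTA {l m η : ℝ → ℝ} {t x : ℝ} (hl : ContDiffAt ℝ ∞ l t)
    (hm : ContDiffAt ℝ ∞ m t) :
    dT (dT (neckA l m η)) t x = Real.exp (m t * η x) * (deriv (deriv l) t +
      2 * deriv l t * deriv m t * η x + l t * deriv (deriv m) t * η x +
      l t * deriv m t ^ 2 * η x ^ 2) := by
  have hE : (fun s => dT (neckA l m η) s x) =ᶠ[𝓝 t]
      fun s => deriv l s * Real.exp (m s * η x) +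
        l s * (Real.exp (m s * η x) * (deriv m s * η x)) := by
    filter_upwards [ric_eventually_diff hl, ric_eventually_diff hm] with s h1 h2
    exact ric_dTA h1 h2
  change deriv (fun s => dT (neckA l m η) s x) t = _
  rw [hE.deriv_eq]
  have hl1 : HasDerivAt l (deriv l t) t := (ric_eventually_diff hl).self_of_nhds.hasDerivAt
  have hm1 : HasDerivAt m (deriv m t) t := (ric_eventually_diff hm).self_of_nhds.hasDerivAt
  have hl2 := (ric_deriv_diff hl).hasDerivAt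
  have hm2 := (ric_deriv_diff hm).hasDerivAt
  have he := (hm1.mul_const (η x)).exp
  have h1 := (hl2.mul he).add (hl1.mul (he.mul (hm2.mul_const (η x))))
  refine h1.deriv.trans ?_
  simp only [Pi.mul_apply]
  ring

theorem ric_dTb (l : ℝ → ℝ) {t x : ℝ} (hl : DifferentiableAt ℝ l t) :
    dT (neckB l) t x = deriv l t * Real.cos x :=
  (hl.hasDerivAt.mul_const (Real.cos x)).deriv

theorem ric_dXb (l : ℝ → ℝ) (t x : ℝ) : dX (neckB l) t x = -(l t * Real.sin x) := by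
  have h := ((Real.hasDerivAt_cos x).const_mul (l t)).deriv
  refine h.trans ?_
  ring

theorem ric_dTTb {l : ℝ → ℝ} {t x : ℝ} (hl : ContDiffAt ℝ ∞ l t) :
    dT (dT (neckB l)) t x = deriv (deriv l) t * Real.cos x := by
  have hE : (fun s => dT (neckB l) s x) =ᶠ[𝓝 t] fun s => deriv l s * Real.cos x := by
    filter_upwards [ric_eventually_diff hl] with s h1
    exact ric_dTb l h1
  change deriv (fun s => dT (neckB l) s x) t = _
  rw [hE.deriv_eq]
  exact ((ric_deriv_diff hl).hasDerivAt.mul_const (Real.cos x)).deriv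

theorem ric_dTXb {l : ℝ → ℝ} {t x : ℝ} (hl : DifferentiableAt ℝ l t) :
    dT (dX (neckB l)) t x = -(deriv l t * Real.sin x) := by
  have hE : (fun s => dX (neckB l) s x) = fun s => -(l s * Real.sin x) := by
    funext s
    exact ric_dXb l s x
  change deriv (fun s => dX (neckB l) s x) t = _
  rw [hE]
  exact (hl.hasDerivAt.mul_const (Real.sin x)).neg.deriv

theorem ric_dXXb (l : ℝ → ℝ) (t x : ℝ) : dX (dX (neckB l)) t x = -(l t * Real.cos x) := by
  have hE : (fun z => dX (neckB l) t z) = fun z => -(l t * Real.sin z) := by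
    funext z
    exact ric_dXb l t z
  change deriv (fun z => dX (neckB l) t z) x = _
  rw [hE]
  exact ((Real.hasDerivAt_sin x).const_mul (l t)).neg.deriv

theorem ricGE_neck {l m η : ℝ → ℝ} {κ : ℝ} {y : E4} (hx : y 1 ∈ Lat)
    (hl : ContDiffAt ℝ ∞ l (y 0)) (hm : ContDiffAt ℝ ∞ m (y 0)) (hη : ContDiffAt ℝ ∞ η (y 1))
    (hl0 : 0 < l (y 0)) (hs : Real.sin (y 2) ≠ 0) (h : NeckOK l m η κ (y 0) (y 1)) :
    RicGE (warpMet (neckA l m η) (neckB l)) (-κ) y := by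
  have hc := ric_cos_pos hx
  have hld := (ric_eventually_diff hl).self_of_nhds
  have hmd := (ric_eventually_diff hm).self_of_nhds
  have hηd := (ric_eventually_diff hη).self_of_nhds
  have hfst : ContDiffAt ℝ ∞ (fun p : ℝ × ℝ => p.1) (y 0, y 1) := contDiffAt_fst
  have hsnd : ContDiffAt ℝ ∞ (fun p : ℝ × ℝ => p.2) (y 0, y 1) := contDiffAt_snd
  have hl' : ContDiffAt ℝ ∞ (fun p : ℝ × ℝ => l p.1) (y 0, y 1) := hl.comp (y 0, y 1) hfst
  have hm' : ContDiffAt ℝ ∞ (fun p : ℝ × ℝ => m p.1) (y 0, y 1) := hm.comp (y 0, y 1) hfst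
  have hη' : ContDiffAt ℝ ∞ (fun p : ℝ × ℝ => η p.2) (y 0, y 1) := hη.comp (y 0, y 1) hsnd
  have hA : ContDiffAt ℝ ∞ (fun p : ℝ × ℝ => neckA l m η p.1 p.2) (y 0, y 1) :=
    hl'.mul ((hm'.mul hη').exp)
  have hb : ContDiffAt ℝ ∞ (fun p : ℝ × ℝ => neckB l p.1 p.2) (y 0, y 1) :=
    hl'.mul (Real.contDiff_cos.contDiffAt.comp (y 0, y 1) hsnd)
  have hA0 : neckA l m η (y 0) (y 1) ≠ 0 := (mul_pos hl0 (Real.exp_pos _)).ne'
  have hb0 : neckB l (y 0) (y 1) ≠ 0 := (mul_pos hl0 hc).ne'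
  obtain ⟨e, he⟩ : ∃ e, Real.exp (m (y 0) * η (y 1)) = e := ⟨_, rfl⟩
  have he0 : 0 < e := he ▸ Real.exp_pos _
  have hexp : Real.exp (-2 * m (y 0) * η (y 1)) = (e ^ 2)⁻¹ := by
    rw [← he, ← Real.exp_nat_mul, ← Real.exp_neg]
    congr 1
    push_cast
    ring
  have htan : Real.tan (y 1) = Real.sin (y 1) / Real.cos (y 1) := Real.tan_eq_sin_div_cos _
  intro v
  have key := ricq_warp (y := y) hA hb hA0 hb0 hs (Rtt := nRtt l m η (y 0) (y 1))
    (Rtx := nRtx l m η (y 0) (y 1)) (Rxx := nRxx l m η (y 0) (y 1))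
    (Rss := nRss l m η (y 0) (y 1)) rfl (ric_dTA hld hmd) (ric_dXA hηd) (ric_dTTA hl hm)
    rfl (ric_dTb l hld) (ric_dXb l _ _) (ric_dTTb hl) (ric_dTXb hld) (ric_dXXb l _ _)
    (by
      unfold nRtt neckA neckB
      rw [he]
      field_simp
      ring)
    (by
      unfold nRtx neckA neckB
      rw [he, htan]
      field_simp
      ring)
    (by
      unfold nRxx nKx neckA neckB
      rw [he, htan, hexp]
      field_simp
      ring)
    (by
      unfold nRss nKx nKs neckA neckB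
      rw [he, htan, hexp]
      field_simp
      ring) v
  rw [key, ric_qf_warp]
  obtain ⟨h1, h2, h3, h4⟩ := h
  have h5 := ric_psd h1 h2 h4 (v 0) (neckA l m η (y 0) (y 1) * v 1)
  have h6 : 0 ≤ (nRss l m η (y 0) (y 1) + κ) * ((neckB l (y 0) (y 1) * v 2) ^ 2 +
      (neckB l (y 0) (y 1) * Real.sin (y 2) * v 3) ^ 2) := mul_nonneg h3 (by positivity)
  nlinarith only [h5, h6]

end Pool.Agent.W_MP_654ec6
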