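import Pool.Agent.W_MP_654ec6.D.NeckFun
import Pool.Agent.W_MP_654ec6.D.Phases
import Pool.Agent.W_MP_654ec6.D.Ric

/-!
# Task D4: the curvature inequalities in the neck

Let `ρ₀ = √Li Rp^{1/3}`, `L = log (1/Rp) > 2`, `mh = 3 q/(2 L)`, so `mh η ≤ 3 q/2` and
`mh |η| ≤ 3q/2` (as `-1 ≤ η ≤ L`). All constants `O(.)` depend on `Rp, Li, C` only, `q` is small.

Phase 1, `s ∈ [1,T]`, with `y = s l'/l`. `y ≤ 1 + 4 q` always and `y ≤ 1 - q` when `θ = 1`; `y ≥ 0`.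
`-s² l''/l ≥ [θ' s ((1+q) - (1-q) s^{-q}) + θ q (1-q) s^{-q}] s ρ₀ / l`
`≥ (θ' s 2 q + θ q (1 - q)) (1 - 12 q²)` (use `l ≤ ρ₀ s^{1-q} (1 + 12 q²)`; for the first term use
`s^{-q} ≤ 1` and, when `θ' ≠ 0`, `s ≤ 1 + 2 q`, so that `s ρ₀/l ≥ 1 - O(q)`).
`s² m'' η = (θ' s - θ) mh η`, `s m' = θ mh`.
`s² Rtt ≥ 3 (2 q θ' s (1 - O(q)) + θ q (1 - O(q))) - θ' s mh η + θ mh η - 2 y θ mh η - θ² mh² η²
  ≥ θ' s (6 q - 3q/2 - O(q²)) + θ (3 q - (2 y - 1) 3q/2 - O(q²)) ≥ θ q` (since `2 y - 1 ≤ 1 + 8q`).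
`s² Rxx ≥ θ' s (2 q (1 - O(q)) - 3 q/2) - O(q) - 2 y² + 2 K_x s²/l²`, where by `K_bounds`, `rp_m`
and the upper bound on `l`: `K_x s²/l² ≥ s^{-3q} s^{2q} ρ₀^{-2} (1 + 12 q²)^{-2} = s^{-q} ρ₀^{-2} (1 - O(q²))`
`≥ (1 - O(q))/Li` by `key` (`ρ₀² = Li Rp^{2/3}`). So `s² Rxx ≥ 2/Li - 2 - O(q) ≥ c := 1/Li - 1 > 0`.
The same for `s² Rss`. Finally `|s² Rtx| = 2 θ mh |η tan x| s/(l e^{m η}) ≤ O(q) θ` because
`|η tan x| ≤ C |cos x sin x|`, `e^{-m η} ≤ e`, and `s/l ≤ s^q/ρ₀ ≤ O(1)` (by `key`), so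
`(s² Rtx)² ≤ O(q²) θ² ≤ θ q c ≤ s² Rtt s² Rxx`.

Phase 2, `s ∈ [T, T+q]`: `J = ρ₀ (1-q) s^{-q} - Li Rp ≥ (√Li - Li) Rp / 2 > 0` (by `key`).
`y = s l'/l ≤ 1 + O(q)`. `-s² l''/l = θ' J s²/l + (1 - θ) q (1 - q) s^{1-q} ρ₀ / l`, `J s/l ≥ c₁ > 0` with `c₁`
independent of `q` (`l ≤ 2 ρ₀ s^{1-q}`, `s^q ≥ 1`). `s² m'' = -(θ' s + 1 - θ) mh`.
`s² Rtt ≥ 3 θ' s c₁ - θ' s 3 q/2 + (1 - θ)(3 q (1 - O(q)) + mh η - 2 y mh η - O(q²)) ≥ (1 - θ) q`,
`s² Rxx ≥ θ' s (c₁ - 3 q/2) - O(q) - 2 y² + 2 K_x s²/l² ≥ c`, `s² Rss ≥ c`,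
`|s² Rtx| ≤ O(q) (1 - θ)`.

Phase 3, `s ≥ T + q`: `neckOK_cone` of Task D2: `m = 1`, `l' = Li Rp`,
`l'' = 0`, `K_x, K_s ≥ Rp²`. For `s ≤ 1`: `m = 0`, `l'' = 0`, `l' = (1 + q) ρ₀ < 1`.
-/

open scoped ContDiff Topology
open Filter Real

namespace Pool.Agent.W_MP_654ec6

theorem neckIneq_sq {q : ℝ} (hq0 : 0 < q) (hq : q ≤ 1 / 40) : q ^ (2 : ℕ) ≤ 1 / 1600 := by
  have h := pow_le_pow_left₀ hq0.le hq 2
  exact h.trans (by norm_num)

/-- The algebraic core of the estimates. -/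
theorem neckIneq_core {q u φ h y Kx Ks A B : ℝ} (hq0 : 0 < q) (hq : q ≤ 1 / 40) (hφ0 : 0 ≤ φ)
    (hφ1 : φ ≤ 1) (hh : |h| ≤ 3 * q / 2) (hy0 : 0 ≤ y) (hy1 : y ≤ 1 + 2 * q)
    (hKx : (1 - 5 * q) * u ≤ Kx) (hKs : (1 - 5 * q) * u ≤ Ks) (hu1 : 1 ≤ u)
    (hu : 40 * q * u ≤ u - 1) (hA : 0 ≤ A)
    (hAB : φ * h ≤ A + B)
    (hAB3 : φ * (3 * (q * (1 - q) * (1 - 12 * q ^ (2 : ℕ))) + h) ≤ 3 * A + B) :
    φ * q ≤ 3 * A + B - 2 * y * (φ * h) - (φ * h) ^ (2 : ℕ) ∧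
    u - 1 ≤ A + B - 4 * y * (φ * h) - (φ * h) ^ (2 : ℕ) - 2 * y ^ (2 : ℕ) + 2 * Kx ∧
    0 ≤ A - 2 * y ^ (2 : ℕ) - y * (φ * h) + Kx + Ks := by
  obtain ⟨t, ht⟩ : ∃ t, t = φ * h := ⟨_, rfl⟩
  have ht1 : |t| ≤ φ * (3 * q / 2) := by
    rw [ht, abs_mul, abs_of_nonneg hφ0]
    exact mul_le_mul_of_nonneg_left hh hφ0
  have ht2 : |t| ≤ 3 * q / 2 := ht1.trans (mul_le_of_le_one_left (by linarith) hφ1)
  have hqq : q ^ (2 : ℕ) ≤ q * (1 / 40) := by rw [sq]; exact mul_le_mul_of_nonneg_left hq hq0.le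
  have ht3 : t ^ (2 : ℕ) ≤ φ * (9 / 4 * q ^ (2 : ℕ)) := by
    rw [← sq_abs]
    have h1 : |t| * |t| ≤ φ * (3 * q / 2) * (3 * q / 2) :=
      mul_le_mul ht1 ht2 (abs_nonneg _) (by positivity)
    rw [sq]
    exact h1.trans_eq (by ring)
  have ht4 : t ^ (2 : ℕ) ≤ q / 10 := by
    have h1 : φ * (9 / 4 * q ^ (2 : ℕ)) ≤ 1 * (9 / 4 * q ^ (2 : ℕ)) :=
      mul_le_mul_of_nonneg_right hφ1 (by positivity)
    linarith
  have hy2 : y ^ (2 : ℕ) ≤ 1 + 5 * q := by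
    have hyy : y * y ≤ (1 + 2 * q) * (1 + 2 * q) := mul_le_mul hy1 hy1 hy0 (by linarith)
    rw [sq]
    linarith
  have hqu : q ≤ q * u := le_mul_of_one_le_right hq0.le hu1
  rw [← ht] at hAB ⊢
  refine ⟨?_, ?_, ?_⟩
  · -- first inequality
    have h1 : |t * (1 - 2 * y)| ≤ φ * (3 * q / 2) * (1 + 4 * q) := by
      rw [abs_mul]
      refine mul_le_mul ht1 ?_ (abs_nonneg _) (by positivity)
      rw [abs_le]
      constructor <;> linarith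
    have h2 := (abs_le.1 h1).1
    have h3 : 0 ≤ φ * (q * (1 / 2 - 45 / 4 * q - 36 * q ^ (2 : ℕ))) := by
      have : 0 ≤ 1 / 2 - 45 / 4 * q - 36 * q ^ 2 := by linarith
      positivity
    have h4 : 0 ≤ φ * q ^ 4 := by positivity
    have h5 : φ * (3 * (q * (1 - q) * (1 - 12 * q ^ (2 : ℕ))) + h) =
        φ * (3 * (q * (1 - q) * (1 - 12 * q ^ (2 : ℕ)))) + t := by rw [ht]; ring
    rw [h5] at hAB3
    linarith
  · -- second inequality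
    have h1 : |t * (1 - 4 * y)| ≤ (3 * q / 2) * 6 := by
      rw [abs_mul]
      refine mul_le_mul ht2 ?_ (abs_nonneg _) (by positivity)
      rw [abs_le]
      constructor <;> linarith only [hy1, hq0, hq, hy0]
    have h2 := (abs_le.1 h1).1
    linarith only [hy2, hu, ht4, hq0, hqu, hAB, hKx, h2]
  · have h1 : |y * t| ≤ 2 * (3 * q / 2) := by
      rw [abs_mul, abs_of_nonneg hy0]
      exact mul_le_mul (by linarith) ht2 (abs_nonneg _) (by norm_num)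
    have h2 := (abs_le.1 h1).2
    linarith

/-- From the scaled bounds to `NeckOK`. -/
theorem neckIneq_ok {l m η : ℝ → ℝ} {s x φ q c D : ℝ} (hs : 0 < s) (hφ0 : 0 ≤ φ) (hφ1 : φ ≤ 1)
    (hq : 0 < q) (hc : 0 ≤ c) (hD : q * D ^ (2 : ℕ) ≤ c) (h1 : φ * q ≤ s ^ (2 : ℕ) * nRtt l m η s x)
    (h2 : c ≤ s ^ (2 : ℕ) * nRxx l m η s x) (h3 : 0 ≤ s ^ (2 : ℕ) * nRss l m η s x)
    (h4 : |s ^ (2 : ℕ) * nRtx l m η s x| ≤ φ * q * D) : NeckOK l m η 0 s x := by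
  have hs2 : 0 < s ^ 2 := by positivity
  have hφq : 0 ≤ φ * q := by positivity
  have k1 : 0 ≤ nRtt l m η s x := nonneg_of_mul_nonneg_right (hφq.trans h1) hs2
  have k2 : 0 ≤ nRxx l m η s x := nonneg_of_mul_nonneg_right (hc.trans h2) hs2
  have k3 : 0 ≤ nRss l m η s x := nonneg_of_mul_nonneg_right h3 hs2
  refine ⟨by linarith, by linarith, by linarith, ?_⟩
  rw [add_zero, add_zero]
  have k4 : (s ^ (2 : ℕ) * nRtx l m η s x) ^ (2 : ℕ) ≤ (φ * q * D) ^ 2 := by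
    rw [← sq_abs]
    exact pow_le_pow_left₀ (abs_nonneg _) h4 2
  have k5 : (φ * q * D) ^ (2 : ℕ) ≤ φ * q * c := by
    have h5 : (φ * q * D) ^ (2 : ℕ) = φ * q * (φ * (q * D ^ (2 : ℕ))) := by ring
    rw [h5]
    refine mul_le_mul_of_nonneg_left ?_ hφq
    have h6 : 0 ≤ q * D ^ 2 := by positivity
    calc φ * (q * D ^ (2 : ℕ)) ≤ 1 * (q * D ^ (2 : ℕ)) := mul_le_mul_of_nonneg_right hφ1 h6
      _ ≤ c := by linarith
  have k6 : φ * q * c ≤ (s ^ (2 : ℕ) * nRtt l m η s x) * (s ^ (2 : ℕ) * nRxx l m η s x) :=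
    mul_le_mul h1 h2 hc (hφq.trans h1)
  have k7 : (s ^ (2 : ℕ)) ^ (2 : ℕ) * nRtx l m η s x ^ (2 : ℕ) ≤
      (s ^ (2 : ℕ)) ^ (2 : ℕ) * (nRtt l m η s x * nRxx l m η s x) := by
    calc (s ^ (2 : ℕ)) ^ (2 : ℕ) * nRtx l m η s x ^ (2 : ℕ) = (s ^ (2 : ℕ) * nRtx l m η s x) ^ 2 := by ring
      _ ≤ (s ^ (2 : ℕ) * nRtt l m η s x) * (s ^ (2 : ℕ) * nRxx l m η s x) := k4.trans (k5.trans k6)
      _ = _ := by ring
  exact le_of_mul_le_mul_left k7 (by positivity)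

theorem neckIneq_tt (l m η : ℝ → ℝ) (s x : ℝ) : s ^ (2 : ℕ) * nRtt l m η s x =
    3 * (-(s ^ (2 : ℕ) * deriv (deriv l) s / l s)) + (-(s ^ (2 : ℕ) * deriv (deriv m) s * η x)) -
      2 * (s * deriv l s / l s) * (s * deriv m s * η x) - (s * deriv m s * η x) ^ 2 := by
  unfold nRtt; ring

theorem neckIneq_xx (l m η : ℝ → ℝ) (s x : ℝ) : s ^ (2 : ℕ) * nRxx l m η s x =
    -(s ^ (2 : ℕ) * deriv (deriv l) s / l s) + (-(s ^ (2 : ℕ) * deriv (deriv m) s * η x)) -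
      4 * (s * deriv l s / l s) * (s * deriv m s * η x) - (s * deriv m s * η x) ^ (2 : ℕ) -
      2 * (s * deriv l s / l s) ^ (2 : ℕ) + 2 * (nKx (m s) η x * s ^ (2 : ℕ) / l s ^ (2 : ℕ)) := by
  unfold nRxx; ring

theorem neckIneq_ss (l m η : ℝ → ℝ) (s x : ℝ) : s ^ (2 : ℕ) * nRss l m η s x =
    -(s ^ (2 : ℕ) * deriv (deriv l) s / l s) - 2 * (s * deriv l s / l s) ^ (2 : ℕ) -
      (s * deriv l s / l s) * (s * deriv m s * η x) + nKx (m s) η x * s ^ (2 : ℕ) / l s ^ (2 : ℕ) +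
      nKs (m s) η x * s ^ (2 : ℕ) / l s ^ 2 := by
  unfold nRss; ring

/-- Bound for the mixed component. -/
theorem neckIneq_tx {l m η : ℝ → ℝ} {s x φ q C E μh : ℝ} (hs : 0 < s) (hl : 0 < l s)
    (hx : x ∈ Lat) (hφ0 : 0 ≤ φ) (hμ0 : 0 ≤ μh) (hμ : μh ≤ 3 * q / 4) (hm : m s ∈ Set.Icc (0 : ℝ) 1)
    (hlow : -1 ≤ η x) (hC : |η x| ≤ C * Real.cos x ^ (2 : ℕ)) (hm1 : s * deriv m s = φ * μh)
    (hE : s ≤ E * l s) : |s ^ (2 : ℕ) * nRtx l m η s x| ≤ φ * q * (5 * C * E) := by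
  have hcos := ric_cos_pos hx
  have hC0 : 0 ≤ C := by
    by_contra hneg
    push Not at hneg
    have : C * Real.cos x ^ (2 : ℕ) < 0 := mul_neg_of_neg_of_pos hneg (by positivity)
    linarith [abs_nonneg (η x)]
  have hE0 : 0 ≤ E := by
    by_contra hneg
    push Not at hneg
    have : E * l s < 0 := mul_neg_of_neg_of_pos hneg hl
    linarith
  have htan : |η x * Real.tan x| ≤ C := by
    rw [abs_mul, Real.tan_eq_sin_div_cos, abs_div, abs_of_pos hcos]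
    have h1 : |η x| * (|Real.sin x| / Real.cos x) ≤
        (C * Real.cos x ^ (2 : ℕ)) * (|Real.sin x| / Real.cos x) :=
      mul_le_mul_of_nonneg_right hC (by positivity)
    have h2 : (C * Real.cos x ^ (2 : ℕ)) * (|Real.sin x| / Real.cos x) =
        C * (Real.cos x * |Real.sin x|) := by
      field_simp
    have h3 : Real.cos x * |Real.sin x| ≤ 1 * 1 :=
      mul_le_mul (Real.cos_le_one x) (Real.abs_sin_le_one x) (abs_nonneg _) zero_le_one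
    calc |η x| * (|Real.sin x| / Real.cos x) ≤ C * (Real.cos x * |Real.sin x|) := h1.trans h2.le
      _ ≤ C * (1 * 1) := mul_le_mul_of_nonneg_left h3 hC0
      _ = C := by ring
  have hexp : (Real.exp (m s * η x))⁻¹ ≤ 3 := by
    rw [← Real.exp_neg]
    have h1 : -(m s * η x) ≤ 1 := by
      have h2 : m s * (-1) ≤ m s * η x := mul_le_mul_of_nonneg_left hlow hm.1
      linarith [hm.2]
    refine (Real.exp_le_exp.2 h1).trans ?_
    linarith [Real.exp_one_lt_d9]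
  have hsl : s / l s ≤ E := by
    rw [div_le_iff₀ hl]
    exact hE
  have e1 : s ^ (2 : ℕ) * nRtx l m η s x =
      -(2 * (s * deriv m s) * (η x * Real.tan x) * (s / l s) * (Real.exp (m s * η x))⁻¹) := by
    unfold nRtx
    field_simp
  have hpos1 : 0 ≤ s / l s := by positivity
  have hpos2 : 0 ≤ (Real.exp (m s * η x))⁻¹ := by positivity
  rw [e1, abs_neg, hm1, abs_mul, abs_mul, abs_mul, abs_of_nonneg hpos1, abs_of_nonneg hpos2]
  have e2 : |2 * (φ * μh)| = 2 * (φ * μh) := abs_of_nonneg (by positivity)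
  rw [e2]
  have e3 : 2 * (φ * μh) ≤ φ * (3 * q / 2) := by
    have := mul_le_mul_of_nonneg_left hμ hφ0
    linarith
  have hq0 : 0 ≤ q := by linarith
  calc 2 * (φ * μh) * |η x * Real.tan x| * (s / l s) * (Real.exp (m s * η x))⁻¹
      ≤ (φ * (3 * q / 2)) * C * E * 3 := by
        have a1 : 2 * (φ * μh) * |η x * Real.tan x| ≤ (φ * (3 * q / 2)) * C :=
          mul_le_mul e3 htan (abs_nonneg _) (by positivity)
        have a2 : 2 * (φ * μh) * |η x * Real.tan x| * (s / l s) ≤ (φ * (3 * q / 2)) * C * E :=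
          mul_le_mul a1 hsl hpos1 (by positivity)
        exact mul_le_mul a2 hexp hpos2 (by positivity)
    _ ≤ φ * q * (5 * C * E) := by
        have : 0 ≤ φ * q * C * E := by positivity
        linarith

/-- The bound for `K s² / l²`. -/
theorem neckIneq_K {q Li R2 r p s l0 K : ℝ} (hq0 : 0 < q) (hq : q ≤ 1 / 40) (hLi : 0 < Li)
    (hR2 : 0 < R2) (_hr : 0 < r) (hr2 : r ^ (2 : ℕ) = Li * R2) (hp0 : 0 < p) (hs : 0 < s) (hl : 0 < l0)
    (hl0 : l0 ≤ r * (s * p) * (1 + 12 * q ^ (2 : ℕ))) (hkey : R2 * (1 - 4 * q) ≤ p)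
    (hK : p ^ (3 : ℕ) ≤ K) : (1 - 5 * q) * Li⁻¹ ≤ K * s ^ (2 : ℕ) / l0 ^ 2 := by
  rw [le_div_iff₀ (by positivity)]
  have h1 : l0 ^ (2 : ℕ) ≤ (r * (s * p) * (1 + 12 * q ^ (2 : ℕ))) ^ 2 := pow_le_pow_left₀ hl.le hl0 2
  have h2 : (r * (s * p) * (1 + 12 * q ^ (2 : ℕ))) ^ (2 : ℕ) =
      Li * (R2 * (s ^ (2 : ℕ) * p ^ (2 : ℕ)) * (1 + 12 * q ^ (2 : ℕ)) ^ (2 : ℕ)) := by
    calc (r * (s * p) * (1 + 12 * q ^ (2 : ℕ))) ^ (2 : ℕ) = r ^ (2 : ℕ) * ((s ^ (2 : ℕ) * p ^ (2 : ℕ)) * (1 + 12 * q ^ (2 : ℕ)) ^ (2 : ℕ)) := by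
          ring
      _ = _ := by rw [hr2]; ring
  rw [h2] at h1
  have h3 : 0 < 1 - 5 * q := by linarith
  have h4 : (1 - 5 * q) * Li⁻¹ * l0 ^ (2 : ℕ) ≤
      (1 - 5 * q) * Li⁻¹ * (Li * (R2 * (s ^ (2 : ℕ) * p ^ (2 : ℕ)) * (1 + 12 * q ^ (2 : ℕ)) ^ (2 : ℕ))) :=
    mul_le_mul_of_nonneg_left h1 (by positivity)
  have h5 : (1 - 5 * q) * Li⁻¹ * (Li * (R2 * (s ^ (2 : ℕ) * p ^ (2 : ℕ)) * (1 + 12 * q ^ (2 : ℕ)) ^ (2 : ℕ))) =
      ((1 - 5 * q) * (1 + 12 * q ^ (2 : ℕ)) ^ (2 : ℕ)) * (R2 * (s ^ (2 : ℕ) * p ^ (2 : ℕ))) := by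
    field_simp
  have h6 : (1 - 5 * q) * (1 + 12 * q ^ (2 : ℕ)) ^ (2 : ℕ) ≤ 1 - 4 * q := by
    have a1 : (1 + 12 * q ^ (2 : ℕ)) ^ (2 : ℕ) ≤ 1 + 25 * q ^ 2 := by
      have : 0 ≤ q ^ (2 : ℕ) * (1 - 144 * q ^ (2 : ℕ)) := by
        have : 0 ≤ 1 - 144 * q ^ 2 := by
          have := neckIneq_sq hq0 hq
          linarith
        positivity
      linarith
    have a2 : (1 - 5 * q) * (1 + 12 * q ^ (2 : ℕ)) ^ (2 : ℕ) ≤ (1 - 5 * q) * (1 + 25 * q ^ (2 : ℕ)) :=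
      mul_le_mul_of_nonneg_left a1 h3.le
    have a3 : 0 ≤ q * (1 - 25 * q + 125 * q ^ (2 : ℕ)) := by
      have : 0 ≤ 1 - 25 * q + 125 * q ^ 2 := by
        have := sq_nonneg q
        linarith
      positivity
    linarith
  have h7 : ((1 - 5 * q) * (1 + 12 * q ^ (2 : ℕ)) ^ (2 : ℕ)) * (R2 * (s ^ (2 : ℕ) * p ^ (2 : ℕ))) ≤
      (1 - 4 * q) * (R2 * (s ^ (2 : ℕ) * p ^ (2 : ℕ))) := mul_le_mul_of_nonneg_right h6 (by positivity)
  have h8 : (1 - 4 * q) * (R2 * (s ^ (2 : ℕ) * p ^ (2 : ℕ))) = (R2 * (1 - 4 * q)) * (s ^ (2 : ℕ) * p ^ (2 : ℕ)) := by ring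
  have h9 : (R2 * (1 - 4 * q)) * (s ^ (2 : ℕ) * p ^ (2 : ℕ)) ≤ p * (s ^ (2 : ℕ) * p ^ (2 : ℕ)) :=
    mul_le_mul_of_nonneg_right hkey (by positivity)
  have h10 : p * (s ^ (2 : ℕ) * p ^ (2 : ℕ)) = p ^ (3 : ℕ) * s ^ 2 := by ring
  have h11 : p ^ (3 : ℕ) * s ^ (2 : ℕ) ≤ K * s ^ 2 := mul_le_mul_of_nonneg_right hK (by positivity)
  linarith

/-- `(1 - 12 q²) l ≤ ρ s p`. -/
theorem neckIneq_l {q w l0 : ℝ} (hq12 : 0 ≤ 1 - 12 * q ^ (2 : ℕ)) (hw : 0 ≤ w)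
    (hupp : l0 ≤ w * (1 + 12 * q ^ (2 : ℕ))) : (1 - 12 * q ^ (2 : ℕ)) * l0 ≤ w := by
  have a1 : (1 - 12 * q ^ (2 : ℕ)) * l0 ≤ (1 - 12 * q ^ (2 : ℕ)) * (w * (1 + 12 * q ^ (2 : ℕ))) :=
    mul_le_mul_of_nonneg_left hupp hq12
  have a2 : 0 ≤ w * (144 * q ^ (4 : ℕ)) := by positivity
  have a3 : (1 - 12 * q ^ (2 : ℕ)) * (w * (1 + 12 * q ^ (2 : ℕ))) = w - w * (144 * q ^ (4 : ℕ)) := by ring
  linarith

/-- The lower bound for `-l''` in the first phase. -/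
theorem neckIneq_A1 {q r s p l0 θ a : ℝ} (hq0 : 0 < q) (hq : q ≤ 1 / 40) (hr0 : 0 < r)
    (hs0 : 0 < s) (hp0 : 0 < p) (hp1 : p ≤ 1) (hl0 : 0 < l0)
    (hupp : l0 ≤ r * (s * p) * (1 + 12 * q ^ (2 : ℕ))) (hθ0 : 0 ≤ θ) (ha : 0 ≤ a) :
    (3 * q / 2 * a + θ * (q * (1 - q) * (1 - 12 * q ^ (2 : ℕ)))) * l0 ≤
      r * s * (a * ((1 + q) - (1 - q) * p) + θ * q * (1 - q) * p) := by
  have hq2 := neckIneq_sq hq0 hq
  have hq12 : 0 ≤ 1 - 12 * q ^ 2 := by linarith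
  have h1q : 0 ≤ 1 - q := by linarith
  have hw : 0 ≤ r * (s * p) := by positivity
  have e2 := neckIneq_l hq12 hw hupp
  have e3 : 3 * q / 2 ≤ 2 * q * (1 - 12 * q ^ (2 : ℕ)) := by
    have : 0 ≤ q * (1 / 2 - 24 * q ^ (2 : ℕ)) := mul_nonneg hq0.le (by linarith)
    linarith
  have e3' := mul_le_mul_of_nonneg_right e3 (mul_nonneg ha hl0.le)
  have e4 : 0 ≤ 2 * q * a + θ * q * (1 - q) := by positivity
  have e5 := mul_le_mul_of_nonneg_left e2 e4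
  have e7 : 0 ≤ r * s * a * ((1 + q) * (1 - p)) := by
    have : 0 ≤ 1 - p := by linarith
    positivity
  calc (3 * q / 2 * a + θ * (q * (1 - q) * (1 - 12 * q ^ (2 : ℕ)))) * l0
      = 3 * q / 2 * (a * l0) + θ * (q * (1 - q) * (1 - 12 * q ^ (2 : ℕ))) * l0 := by ring
    _ ≤ 2 * q * (1 - 12 * q ^ (2 : ℕ)) * (a * l0) + θ * (q * (1 - q) * (1 - 12 * q ^ (2 : ℕ))) * l0 := by
        linarith
    _ = (2 * q * a + θ * q * (1 - q)) * ((1 - 12 * q ^ (2 : ℕ)) * l0) := by ring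
    _ ≤ (2 * q * a + θ * q * (1 - q)) * (r * (s * p)) := e5
    _ = r * s * (a * ((1 + q) - (1 - q) * p) + θ * q * (1 - q) * p) -
          r * s * a * ((1 + q) * (1 - p)) := by ring
    _ ≤ _ := by linarith

/-- The lower bound for `-l''` in the second phase. -/
theorem neckIneq_A2 {q r s p l0 φ a c1 J K : ℝ} (hq0 : 0 < q) (hq : q ≤ 1 / 40) (hr0 : 0 < r)
    (hs0 : 0 < s) (hp0 : 0 < p) (hp1 : p ≤ 1) (hl0 : 0 < l0)
    (hupp : l0 ≤ r * (s * p) * (1 + 12 * q ^ (2 : ℕ))) (hφ0 : 0 ≤ φ) (ha : 0 ≤ a) (hc10 : 0 < c1)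
    (hc1 : c1 * (2 * r) ≤ K) (hJ : K ≤ J) (hqc : 3 * q / 2 ≤ c1) :
    (3 * q / 2 * a + φ * (q * (1 - q) * (1 - 12 * q ^ (2 : ℕ)))) * l0 ≤
      s * a * J + φ * (r * q * (1 - q) * p) * s := by
  have hq2 := neckIneq_sq hq0 hq
  have hq12 : 0 ≤ 1 - 12 * q ^ 2 := by linarith
  have h1q : 0 ≤ 1 - q := by linarith
  have hw : 0 ≤ r * (s * p) := by positivity
  have e2 := neckIneq_l hq12 hw hupp
  have e3 : φ * (q * (1 - q)) * ((1 - 12 * q ^ (2 : ℕ)) * l0) ≤ φ * (q * (1 - q)) * (r * (s * p)) :=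
    mul_le_mul_of_nonneg_left e2 (by positivity)
  have e4 : l0 ≤ 2 * (r * s) := by
    have a1 : r * (s * p) ≤ r * (s * 1) :=
      mul_le_mul_of_nonneg_left (mul_le_mul_of_nonneg_left hp1 hs0.le) hr0.le
    have a2 : r * (s * p) * (1 + 12 * q ^ (2 : ℕ)) ≤ r * (s * 1) * 2 :=
      mul_le_mul a1 (by linarith) (by positivity) (by positivity)
    linarith
  have e5 : c1 * l0 ≤ s * J := by
    have a1 : c1 * l0 ≤ c1 * (2 * (r * s)) := mul_le_mul_of_nonneg_left e4 hc10.le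
    have a2 : c1 * (2 * (r * s)) = s * (c1 * (2 * r)) := by ring
    have a3 : s * (c1 * (2 * r)) ≤ s * J := mul_le_mul_of_nonneg_left (hc1.trans hJ) hs0.le
    linarith
  have e7 : 3 * q / 2 * l0 ≤ s * J := (mul_le_mul_of_nonneg_right hqc hl0.le).trans e5
  have e8 := mul_le_mul_of_nonneg_right e7 ha
  calc (3 * q / 2 * a + φ * (q * (1 - q) * (1 - 12 * q ^ (2 : ℕ)))) * l0
      = 3 * q / 2 * l0 * a + φ * (q * (1 - q)) * ((1 - 12 * q ^ (2 : ℕ)) * l0) := by ring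
    _ ≤ s * J * a + φ * (q * (1 - q)) * (r * (s * p)) := add_le_add e8 e3
    _ = _ := by ring

/-- The bound for the slope in the first phase. -/
theorem neckIneq_y1 {q s p θ θ' : ℝ} (hq0 : 0 < q) (hq : q ≤ 1 / 40) (hs0 : 0 < s) (hp0 : 0 < p)
    (hpe : p = s ^ (-q)) (hθ0 : 0 ≤ θ) (hθ1 : θ ≤ 1)
    (hcase : s ≤ 1 + 2 * q ∨ (θ = 1 ∧ θ' = 0)) :
    (1 - θ) * (1 + q) + θ * (1 - q) * p ≤ (1 + 2 * q) * p := by
  rcases hcase with h1 | ⟨h1, _⟩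
  · have h2 : s ^ q ≤ 1 + q * (2 * q) := by
      calc s ^ q ≤ (1 + 2 * q) ^ q := Real.rpow_le_rpow hs0.le h1 hq0.le
        _ ≤ 1 + q * (2 * q) :=
          rpow_one_add_le_one_add_mul_self (by linarith) hq0.le (by linarith)
    have h3 : p * s ^ q = 1 := by
      rw [hpe, ← Real.rpow_add hs0, neg_add_cancel, Real.rpow_zero]
    have h4 : 1 ≤ p * (1 + q * (2 * q)) :=
      calc (1 : ℝ) = p * s ^ q := h3.symm
        _ ≤ _ := mul_le_mul_of_nonneg_left h2 hp0.le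
    have h5 : 1 + q ≤ (1 + 2 * q) * p := by
      have h6 : (1 + q) * 1 ≤ (1 + q) * (p * (1 + q * (2 * q))) :=
        mul_le_mul_of_nonneg_left h4 (by linarith)
      have h7 : (1 + q) * (1 + q * (2 * q)) ≤ 1 + 2 * q := by
        have hq2 := neckIneq_sq hq0 hq
        have h70 : 0 ≤ 1 - 2 * q - 2 * q ^ 2 := by linarith
        have h71 : 0 ≤ q * (1 - 2 * q - 2 * q ^ (2 : ℕ)) := mul_nonneg hq0.le h70
        linarith
      have h8 : (1 + q) * (1 + q * (2 * q)) * p ≤ (1 + 2 * q) * p :=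
        mul_le_mul_of_nonneg_right h7 hp0.le
      have h9 : (1 + q) * (p * (1 + q * (2 * q))) = (1 + q) * (1 + q * (2 * q)) * p := by ring
      linarith
    have h9 : (1 - θ) * (1 + q) ≤ (1 - θ) * ((1 + 2 * q) * p) :=
      mul_le_mul_of_nonneg_left h5 (by linarith)
    have h10 : θ * ((1 - q) * p) ≤ θ * ((1 + 2 * q) * p) := by
      apply mul_le_mul_of_nonneg_left _ hθ0
      apply mul_le_mul_of_nonneg_right _ hp0.le
      linarith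
    have h11 : θ * (1 - q) * p = θ * ((1 - q) * p) := by ring
    have h12 : (1 - θ) * ((1 + 2 * q) * p) + θ * ((1 + 2 * q) * p) = (1 + 2 * q) * p := by ring
    linarith
  · rw [h1]
    have := mul_pos hq0 hp0
    linarith

/-- The final assembly from the data of a phase. -/
theorem neckIneq_assemble {Rp Li C E D c q r R2 p mh : ℝ} {η l m : ℝ → ℝ} {s x φ a sg : ℝ}
    (hη : LinkFun Rp η) (hx : x ∈ Lat) (hC : ∀ x ∈ Lat, |η x| ≤ C * Real.cos x ^ (2 : ℕ))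
    (hLi : 0 < Li) (hu1 : 1 < Li⁻¹) (hr0 : 0 < r) (hR20 : 0 < R2) (hr2 : r ^ (2 : ℕ) = Li * R2)
    (hE : E = 2 / (r * R2)) (hD : D = 5 * C * E) (hc : c = Li⁻¹ - 1) (hc0 : 0 < c)
    (hq0 : 0 < q) (hq : q ≤ 1 / 40) (hu : 40 * q * Li⁻¹ ≤ Li⁻¹ - 1) (hqD' : q * D ^ (2 : ℕ) ≤ c)
    (hmh0 : 0 < mh) (hmh34 : mh ≤ 3 * q / 4) (hh : |mh * η x| ≤ 3 * q / 2) (hs0 : 0 < s)
    (hp0 : 0 < p) (hkey : R2 * (1 - 4 * q) ≤ p) (hm01 : m s ∈ Set.Icc (0 : ℝ) 1)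
    (hKx3 : p ^ (3 : ℕ) ≤ nKx (m s) η x) (hKs3 : p ^ (3 : ℕ) ≤ nKs (m s) η x)
    (hφ0 : 0 ≤ φ) (hφ1 : φ ≤ 1) (hl0 : 0 < l s)
    (hlu : l s ≤ r * (s * p) * (1 + 12 * q ^ (2 : ℕ))) (hll : r * (s * p) * (1 - q) ≤ l s)
    (hm1 : s * deriv m s = φ * mh) (ha : 0 ≤ a) (hsg : |sg| ≤ 1)
    (hm2 : s ^ (2 : ℕ) * deriv (deriv m) s = (sg * a - φ) * mh)
    (hy0 : 0 ≤ s * deriv l s / l s) (hy1 : s * deriv l s / l s ≤ 1 + 2 * q)
    (hA : (3 * q / 2) * a + φ * (q * (1 - q) * (1 - 12 * q ^ (2 : ℕ))) ≤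
      -(s ^ (2 : ℕ) * deriv (deriv l) s / l s)) : NeckOK l m η 0 s x := by
  have hq2 := neckIneq_sq hq0 hq
  have hq12 : 0 ≤ 1 - 12 * q ^ 2 := by linarith
  have hg0 : 0 ≤ q * (1 - q) * (1 - 12 * q ^ (2 : ℕ)) := by
    have : 0 ≤ 1 - q := by linarith
    positivity
  have hKx := neckIneq_K hq0 hq hLi hR20 hr0 hr2 hp0 hs0 hl0 hlu hkey hKx3
  have hKs := neckIneq_K hq0 hq hLi hR20 hr0 hr2 hp0 hs0 hl0 hlu hkey hKs3
  have hφg : 0 ≤ φ * (q * (1 - q) * (1 - 12 * q ^ (2 : ℕ))) := mul_nonneg hφ0 hg0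
  have ha3 : 0 ≤ 3 * q / 2 * a := by positivity
  have hA0 : 0 ≤ -(s ^ (2 : ℕ) * deriv (deriv l) s / l s) := by linarith
  have hB : -(s ^ (2 : ℕ) * deriv (deriv m) s * η x) = φ * (mh * η x) - sg * a * (mh * η x) := by
    rw [hm2]; ring
  have hBa : |sg * a * (mh * η x)| ≤ 3 * q / 2 * a := by
    rw [abs_mul, abs_mul, abs_of_nonneg ha]
    calc |sg| * a * |mh * η x| ≤ 1 * a * (3 * q / 2) :=
          mul_le_mul (mul_le_mul_of_nonneg_right hsg ha) hh (abs_nonneg _) (by positivity)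
      _ = 3 * q / 2 * a := by ring
  have hBa' := (abs_le.1 hBa).2
  have h1 : φ * (mh * η x) ≤
      -(s ^ (2 : ℕ) * deriv (deriv l) s / l s) + -(s ^ (2 : ℕ) * deriv (deriv m) s * η x) := by
    rw [hB]; linarith only [hBa', hA, hφg]
  have h2 : φ * (3 * (q * (1 - q) * (1 - 12 * q ^ (2 : ℕ))) + mh * η x) ≤
      3 * -(s ^ (2 : ℕ) * deriv (deriv l) s / l s) + -(s ^ (2 : ℕ) * deriv (deriv m) s * η x) := by
    rw [hB]
    have : φ * (3 * (q * (1 - q) * (1 - 12 * q ^ (2 : ℕ))) + mh * η x) =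
      3 * (φ * (q * (1 - q) * (1 - 12 * q ^ (2 : ℕ)))) + φ * (mh * η x) := by ring
    linarith only [ha3, hBa', hA]
  have core := neckIneq_core hq0 hq hφ0 hφ1 hh hy0 hy1 hKx hKs hu1.le hu hA0 h1 h2
  have hm1' : s * deriv m s * η x = φ * (mh * η x) := by rw [hm1]; ring
  refine neckIneq_ok hs0 hφ0 hφ1 hq0 hc0.le hqD' ?_ ?_ ?_ ?_
  · rw [neckIneq_tt, hm1']
    exact core.1
  · rw [neckIneq_xx, hm1', hc]
    exact core.2.1
  · rw [neckIneq_ss, hm1']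
    exact core.2.2
  · rw [hD]
    refine neckIneq_tx hs0 hl0 hx hφ0 hmh0.le hmh34 hm01 (hη.lower x hx) (hC x hx) hm1 ?_
    -- s ≤ E * l s
    rw [hE, div_mul_eq_mul_div, le_div_iff₀ (by positivity)]
    have b0 : R2 * (9 / 10) ≤ R2 * (1 - 4 * q) :=
      mul_le_mul_of_nonneg_left (by linarith only [hq]) hR20.le
    have b1 : R2 ≤ 5 / 4 * p := by linarith only [hp0, b0, hkey]
    have b3 : s * (r * R2) ≤ s * (r * (5 / 4 * p)) := by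
      apply mul_le_mul_of_nonneg_left _ hs0.le
      exact mul_le_mul_of_nonneg_left b1 hr0.le
    have b4 : 0 ≤ r * (s * p) := by positivity
    have b5 : r * (s * p) * (3 / 4) ≤ r * (s * p) * (1 - q) :=
      mul_le_mul_of_nonneg_left (by linarith only [hmh34, hmh0, hq]) b4
    have b6 : s * (r * (5 / 4 * p)) = 5 / 4 * (r * (s * p)) := by ring
    linarith only [b5, hl0, hll, b3]

/-- The bound for `J` in the second phase. -/
theorem neckIneq_J {Rp Li q r R2 p : ℝ} (hLi : 0 < Li) (hRp : 0 < Rp) (hr0 : 0 < r)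
    (hrR : r * R2 = √Li * Rp) (hq0 : 0 < q) (hq : q ≤ 1 / 40) (hqs : 10 * q ≤ 1 - √Li)
    (hkey : R2 * (1 - 4 * q) ≤ p) : Rp * (√Li - Li) / 2 ≤ r * (1 - q) * p - Li * Rp := by
  have h1q : 0 < 1 - q := by linarith
  have hsL : 0 < √Li := Real.sqrt_pos.2 hLi
  have hsq : √Li ^ (2 : ℕ) = Li := Real.sq_sqrt hLi.le
  have a1 : r * (1 - q) * (R2 * (1 - 4 * q)) ≤ r * (1 - q) * p :=
    mul_le_mul_of_nonneg_left hkey (by positivity)
  have a2 : r * (1 - q) * (R2 * (1 - 4 * q)) = √Li * Rp * ((1 - q) * (1 - 4 * q)) := by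
    rw [← hrR]; ring
  have a3 : √Li * Rp * (1 - 5 * q) ≤ √Li * Rp * ((1 - q) * (1 - 4 * q)) := by
    apply mul_le_mul_of_nonneg_left _ (by positivity)
    linarith [sq_nonneg q]
  have a4 : 10 * q * √Li ≤ (1 - √Li) * √Li := mul_le_mul_of_nonneg_right hqs hsL.le
  have a5 : (1 - √Li) * √Li = √Li - Li := by
    have : √Li * √Li = Li := by rw [← sq]; exact hsq
    linarith
  have a6 : 10 * q * √Li * Rp ≤ (√Li - Li) * Rp := by
    rw [← a5]; exact mul_le_mul_of_nonneg_right a4 hRp.le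
  linarith

theorem neckOK_neck {Rp Li : ℝ} {η : ℝ → ℝ} (hη : LinkFun Rp η) (hLi : 0 < Li) (hLi' : Li < 1) :
    ∃ q₀ : ℝ, 0 < q₀ ∧ ∀ (q T : ℝ) (l m : ℝ → ℝ), 0 < q → q < q₀ → NeckFun Rp Li q T l m →
      ∀ s ≥ 1, ∀ x ∈ Lat, 0 < l s ∧ NeckOK l m η 0 s x := by
  obtain ⟨C, hC⟩ := hη.pole
  have hRp := hη.Rp_pos
  have hRp8 := hη.Rp_lt
  obtain ⟨r, hr⟩ : ∃ r, r = √Li * Rp ^ (1 / 3 : ℝ) := ⟨_, rfl⟩
  obtain ⟨R2, hR2⟩ : ∃ R2, R2 = Rp ^ (2 / 3 : ℝ) := ⟨_, rfl⟩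
  have hr0 : 0 < r := by rw [hr]; positivity
  have hR20 : 0 < R2 := by rw [hR2]; positivity
  have hsq : √Li ^ (2 : ℕ) = Li := Real.sq_sqrt hLi.le
  have hsL : 0 < √Li := Real.sqrt_pos.2 hLi
  have hsL1 : √Li < 1 := by
    rw [Real.sqrt_lt' one_pos]; simpa using hLi'
  have hr2 : r ^ (2 : ℕ) = Li * R2 := by
    rw [hr, mul_pow, hsq, hR2, ← Real.rpow_natCast, ← Real.rpow_mul hRp.le]
    norm_num
  have hrR : r * R2 = √Li * Rp := by
    rw [hr, hR2, mul_assoc, ← Real.rpow_add hRp]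
    norm_num
  obtain ⟨L, hL⟩ : ∃ L, L = Real.log (1 / Rp) := ⟨_, rfl⟩
  have hL2 : 2 < L := by
    rw [hL]
    have h1 : (8 : ℝ) < 1 / Rp := by
      rw [lt_div_iff₀ hRp]; linarith
    have h2 : Real.log 8 < Real.log (1 / Rp) := Real.log_lt_log (by norm_num) h1
    have h3 : Real.log 8 = 3 * Real.log 2 := by
      rw [show (8 : ℝ) = 2 ^ (3 : ℕ) by norm_num, Real.log_pow]; norm_num
    have := Real.log_two_gt_d9
    linarith
  obtain ⟨c1, hc1⟩ : ∃ c1, c1 = Rp * (√Li - Li) / (4 * r) := ⟨_, rfl⟩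
  have hsLi : 0 < √Li - Li := by
    have := mul_pos hsL (sub_pos.2 hsL1)
    linarith
  have hc10 : 0 < c1 := by
    rw [hc1]
    positivity
  have hc1' : c1 * (2 * r) ≤ Rp * (√Li - Li) / 2 := by
    rw [hc1]
    apply le_of_eq
    field_simp
    ring
  obtain ⟨E, hE⟩ : ∃ E, E = 2 / (r * R2) := ⟨_, rfl⟩
  obtain ⟨c, hc⟩ : ∃ c, c = Li⁻¹ - 1 := ⟨_, rfl⟩
  have hu1 : 1 < Li⁻¹ := (one_lt_inv₀ hLi).2 hLi'
  have hc0 : 0 < c := by rw [hc]; linarith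
  obtain ⟨D, hD⟩ : ∃ D, D = 5 * C * E := ⟨_, rfl⟩
  refine ⟨min (1 / 40) (min ((1 - Li) / 40) (min ((1 - √Li) / 10) (min (c1 / 2)
    (c / (D ^ (2 : ℕ) + 1))))), ?_, ?_⟩
  · have a1 : 0 < (1 - Li) / 40 := by linarith
    have a2 : 0 < (1 - √Li) / 10 := by linarith
    have a3 : 0 < c / (D ^ (2 : ℕ) + 1) := by positivity
    simp only [lt_min_iff]
    exact ⟨by norm_num, a1, a2, by positivity, a3⟩
  intro q T l m hq0 hqq hN s hs1 x hx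
  simp only [lt_min_iff] at hqq
  obtain ⟨hq, hqL, hqs, hqc, hqD⟩ := hqq
  have hs0 : 0 < s := by linarith
  have hT := hN.T_gt
  have hu : 40 * q * Li⁻¹ ≤ Li⁻¹ - 1 := by
    have h1 : 40 * q ≤ 1 - Li := by linarith
    have h2 := mul_le_mul_of_nonneg_right h1 (inv_pos.2 hLi).le
    have h3 : (1 - Li) * Li⁻¹ = Li⁻¹ - 1 := by
      rw [sub_mul, mul_inv_cancel₀ hLi.ne']; ring
    linarith
  have hqD' : q * D ^ (2 : ℕ) ≤ c := by
    have h1 : q * (D ^ (2 : ℕ) + 1) ≤ c := by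
      rw [lt_div_iff₀ (by positivity)] at hqD
      exact hqD.le
    linarith
  obtain ⟨mh, hmh⟩ : ∃ mh, mh = 3 * q / (2 * L) := ⟨_, rfl⟩
  have hL0 : 0 < L := by linarith
  have hmh0 : 0 < mh := by rw [hmh]; positivity
  have hmhL : mh * L = 3 * q / 2 := by rw [hmh]; field_simp
  have hmh34 : mh ≤ 3 * q / 4 := by
    have := mul_le_mul_of_nonneg_left hL2.le hmh0.le
    linarith
  have hηL : η x ≤ L := by rw [hL]; exact hη.upper x hx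
  have hη1 := hη.lower x hx
  have hh : |mh * η x| ≤ 3 * q / 2 := by
    rw [abs_le]
    constructor
    · have : mh * (-1) ≤ mh * η x := mul_le_mul_of_nonneg_left hη1 hmh0.le
      linarith
    · have : mh * η x ≤ mh * L := mul_le_mul_of_nonneg_left hηL hmh0.le
      linarith
  have hp : ∀ s : ℝ, 1 ≤ s → 0 < s ^ (-q) ∧ s ^ (-q) ≤ 1 ∧ s ^ (1 - q) = s * s ^ (-q) ∧
      s ^ (-3 * q) = (s ^ (-q)) ^ 3 := by
    intro s hs
    have hs0 : 0 < s := by linarith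
    refine ⟨Real.rpow_pos_of_pos hs0 _, Real.rpow_le_one_of_one_le_of_nonpos hs (by linarith),
      ?_, ?_⟩
    · rw [sub_eq_add_neg, Real.rpow_add hs0, Real.rpow_one]
    · rw [← Real.rpow_natCast, ← Real.rpow_mul hs0.le]
      congr 1
      push_cast
      ring
  have h1q : 0 < 1 - q := by linarith
  rcases le_or_gt s (T + q) with hsT | hsT
  · -- phases 1 and 2
    obtain ⟨hp0, hp1, hps, hp3⟩ := hp s hs1
    have hkey := hN.key s ⟨hs1, hsT⟩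
    have hrpm := hN.rp_m s ⟨hs1, hsT⟩
    rw [← hR2] at hkey
    rw [hp3] at hrpm
    obtain ⟨p, hpe⟩ : ∃ p, p = s ^ (-q) := ⟨_, rfl⟩
    rw [← hpe] at hp0 hp1 hps hp3 hkey hrpm
    have hKb := K_bounds hη (hN.m_mem s) hx
    have hKx3 : p ^ (3 : ℕ) ≤ nKx (m s) η x := hrpm.trans hKb.1
    have hKs3 : p ^ (3 : ℕ) ≤ nKs (m s) η x := hrpm.trans hKb.2
    rcases le_or_gt s T with hsT' | hsT'
    · -- phase 1
      obtain ⟨θ, θ', hθ0, hθ1, hθ', hcase, dl, ddl, dm, ddm, hlow, hupp⟩ :=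
        hN.phase1 s ⟨hs1, hsT'⟩
      rw [← hr, ← hpe] at dl ddl
      rw [← hL, ← hmh] at dm ddm
      rw [← hr, hps] at hlow hupp
      have hl0 : 0 < l s := lt_of_lt_of_le (by positivity) hlow
      have hyb := neckIneq_y1 hq0 hq.le hs0 hp0 hpe hθ0 hθ1 hcase
      have hdl0 : 0 ≤ deriv l s := by
        rw [dl]
        have a1 : 0 ≤ 1 - θ := by linarith only [hθ1]
        positivity
      have ha : 0 ≤ θ' * s := by positivity
      have b1 : r * (s * p) * (1 - q) ≤ l s := by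
        have : 0 ≤ r * (s * p) * q := by positivity
        linarith only [hlow, this]
      have b2 : s * deriv m s = θ * mh := by rw [dm]; field_simp
      have b3 : s ^ (2 : ℕ) * deriv (deriv m) s = (1 * (θ' * s) - θ) * mh := by
        rw [ddm]; field_simp
      have b4 : s * deriv l s / l s ≤ 1 + 2 * q := by
        rw [div_le_iff₀ hl0, dl]
        have a1 : s * (r * ((1 - θ) * (1 + q) + θ * (1 - q) * p)) ≤ s * (r * ((1 + 2 * q) * p)) := by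
          apply mul_le_mul_of_nonneg_left _ hs0.le
          exact mul_le_mul_of_nonneg_left hyb hr0.le
        have a2 : (1 + 2 * q) * (r * (s * p)) ≤ (1 + 2 * q) * l s :=
          mul_le_mul_of_nonneg_left hlow (by linarith only [hLi, hmh34, hmh0, hqL])
        have a3 : s * (r * ((1 + 2 * q) * p)) = (1 + 2 * q) * (r * (s * p)) := by ring
        linarith
      have b5 : 3 * q / 2 * (θ' * s) + θ * (q * (1 - q) * (1 - 12 * q ^ (2 : ℕ))) ≤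
          -(s ^ (2 : ℕ) * deriv (deriv l) s / l s) := by
        have e1 : -(s ^ (2 : ℕ) * deriv (deriv l) s / l s) =
            (r * s * (θ' * s * ((1 + q) - (1 - q) * p) + θ * q * (1 - q) * p)) / l s := by
          rw [ddl]; field_simp
        rw [e1, le_div_iff₀ hl0]
        exact neckIneq_A1 hq0 hq.le hr0 hs0 hp0 hp1 hl0 hupp hθ0 ha
      exact ⟨hl0, neckIneq_assemble hη hx hC hLi hu1 hr0 hR20 hr2 hE hD hc hc0 hq0 hq.le hu hqD'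
        hmh0 hmh34 hh hs0 hp0 hkey (hN.m_mem s) hKx3 hKs3 hθ0 hθ1 hl0 hupp b1 b2 ha (by simp) b3
        (by positivity) b4 b5⟩
    · -- phase 2
      obtain ⟨θ, θ', hθ0, hθ1, hθ', dl, ddl, dm, ddm, hlow, hupp⟩ :=
        hN.phase2 s ⟨hsT'.le, hsT⟩
      rw [← hr, ← hpe] at dl ddl
      rw [← hL, ← hmh] at dm ddm
      rw [← hr, hps] at hlow hupp
      have hl0 : 0 < l s := lt_of_lt_of_le (by positivity) hlow
      have hJ := neckIneq_J hLi hRp hr0 hrR hq0 hq.le (by linarith only [hqs]) hkey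
      have hJ0 : 0 < r * (1 - q) * p - Li * Rp := lt_of_lt_of_le (by positivity) hJ
      have hφ0 : 0 ≤ 1 - θ := by linarith only [hθ1]
      have hdl0 : 0 ≤ deriv l s := by
        rw [dl]
        positivity
      have ha : 0 ≤ θ' * s := by positivity
      have b2 : s * deriv m s = (1 - θ) * mh := by rw [dm]; field_simp
      have b3 : s ^ (2 : ℕ) * deriv (deriv m) s = (-1 * (θ' * s) - (1 - θ)) * mh := by
        rw [ddm]; field_simp; ring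
      have b4 : s * deriv l s / l s ≤ 1 + 2 * q := by
        rw [div_le_iff₀ hl0]
        have a1 : deriv l s ≤ r * (1 - q) * p := by
          rw [dl]
          have : θ * (Li * Rp) ≤ θ * (r * (1 - q) * p) :=
            mul_le_mul_of_nonneg_left (by linarith only [hJ0]) hθ0
          linarith only [this]
        have a2 : s * deriv l s ≤ s * (r * (1 - q) * p) := mul_le_mul_of_nonneg_left a1 hs0.le
        have a3 : 0 ≤ 2 * q * l s := by positivity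
        have a4 : s * (r * (1 - q) * p) = r * (s * p) * (1 - q) := by ring
        linarith only [a3, hlow, a2]
      have b5 : 3 * q / 2 * (θ' * s) + (1 - θ) * (q * (1 - q) * (1 - 12 * q ^ (2 : ℕ))) ≤
          -(s ^ (2 : ℕ) * deriv (deriv l) s / l s) := by
        have e1 : -(s ^ (2 : ℕ) * deriv (deriv l) s / l s) =
            (s * (θ' * s) * (r * (1 - q) * p - Li * Rp) + (1 - θ) * (r * q * (1 - q) * p) * s) /
              l s := by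
          rw [ddl]; field_simp; ring
        rw [e1, le_div_iff₀ hl0]
        exact neckIneq_A2 hq0 hq.le hr0 hs0 hp0 hp1 hl0 hupp hφ0 ha hc10 hc1' hJ (by linarith only [hqc, hmh34, hmh0])
      exact ⟨hl0, neckIneq_assemble hη hx hC hLi hu1 hr0 hR20 hr2 hE hD hc hc0 hq0 hq.le hu hqD'
        hmh0 hmh34 hh hs0 hp0 hkey (hN.m_mem s) hKx3 hKs3 hφ0 (by linarith only [hθ0]) hl0 hupp hlow b2 ha
        (by simp) b3 (by positivity) b4 b5⟩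
  · -- phase 3
    have hTq : T ≤ T + q := by linarith
    obtain ⟨θ, θ', hθ0, hθ1, hθ', dl, ddl, dm, ddm, hlow, hupp⟩ :=
      hN.phase2 (T + q) ⟨hTq, le_rfl⟩
    have hT1 : (1 : ℝ) ≤ T + q := by linarith only [hT, hLi, hmh34, hmh0, hqL]
    obtain ⟨hp0, hp1, hps, hp3⟩ := hp (T + q) hT1
    rw [← hr, hps] at hlow
    have hT0 : 0 < T + q := by linarith only [hT, hLi, hmh34, hmh0, hqL]
    have hlT : 0 < l (T + q) := lt_of_lt_of_le (by positivity) hlow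
    have hd : ∀ x, HasDerivAt l (deriv l x) x := fun x =>
      (hN.smooth_l.differentiable (by simp) x).hasDerivAt
    have hmv := NeckFun_mv_ge (C := 0) hsT.le (fun x _ => hd x) (fun x hx => by
      rw [hN.end_l x hx.1]; positivity)
    have hl0 : 0 < l s := by linarith only [hlT, hmv]
    have hnhds : ∀ᶠ t in 𝓝 s, T + q ≤ t := by
      filter_upwards [Ioi_mem_nhds hsT] with t ht using le_of_lt ht
    have hm : ∀ᶠ t in 𝓝 s, m t = 1 := by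
      filter_upwards [hnhds] with t ht using hN.end_m t ht
    have hdl : deriv l =ᶠ[𝓝 s] fun _ => Li * Rp := by
      filter_upwards [hnhds] with t ht using hN.end_l t ht
    have hddl : deriv (deriv l) s = 0 := by
      rw [hdl.deriv_eq]; simp
    have hl1 : deriv l s = Li * Rp := hN.end_l s hsT.le
    refine ⟨hl0, neckOK_cone hη le_rfl hx hm hl0 ?_ ?_ ?_ ?_⟩
    · rw [hl1]; positivity
    · rw [hl1]
      have := mul_le_mul_of_nonneg_right hLi'.le hRp.le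
      linarith only [this]
    · rw [hddl]
    · rw [hddl]; simp

end Pool.Agent.W_MP_654ec6
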