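import Pool.Agent.W_MP_654ec6.D.BlockDef
import Pool.Agent.W_MP_654ec6.D.NeckIneq

/-!
# Task D5: Claim D, the functions `λ, μ` of a block

Input: `T0`, `g_T > 0`, `ν ∈ (0,1)` (the core ends with `λ = g_T + ν (t - T0)`, `μ = 0`), a link with
`Rp^{1/3} < 0.6 ν`, and `ρ ∈ (0, 1)`. Output: `s > 0` and `λ, μ` for `t ≥ T0`.

Construction. `CS > 1` a bound for `S' = deriv smoothTransition` (compact support, continuous).
`Li = 1 - ρ²/(100 CS)`. `ρ₀ = √Li Rp^{1/3} < 0.6 ν`. Take `q` small for D3, D4 and `(1 + q) ρ₀ < ν`.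
(i) on `[T0, T0 + 2]`: `μ = 0`, `λ' = ν - (ν - (1 + q) ρ₀) S(t - T0 - 1)` if `t - T0 - 1 > 0` (concave,
`neckOK_round`); put `Ta = T0 + 3`, `σ = λ(Ta)/ρ₀`, so that near `Ta` (for `t ≥ T0 + 2`)
`λ(t) = σ ρ₀ + (1 + q) ρ₀ (t - Ta) = σ l(1 + (t - Ta)/σ)` (`start_l`).
(ii) for `t ≥ Ta`: `λ(t) = σ l(1 + (t - Ta)/σ)`, `μ(t) = m(1 + (t - Ta)/σ)` with the neck functions of D3
(`neckOK_scale`, `neckOK_neck` for `s ≥ 1`).
(iii) after `T1 = Ta + σ (T + q - 1)`: `μ = 1`, `λ = Li Rp (t - c₁)`. Choose the scale `s > 0` so small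
that `s Λ₁ ≤ ρ/16` and `s T1 ≤ ρ/4`, where `Λ₁ = λ(T1)/Rp`, and let `t'` be the time with
`s λ(t')/Rp = ρ/8` and put `w = ρ/(4 s)`; for `t ≥ t'`: `λ' = Rp (Li + (1 - Li) S((t - t')/w))`. Then
`λ'' ≤ Rp (1 - Li) CS / w = Rp (4 s/ρ) ρ²/100 = Rp s ρ/25` and `s² λ ≥ s Rp ρ/8`, so
`3 λ'' ≤ 3 s² λ` (`neckOK_cone` with `κ = 3 s²`). For `t ≥ T2 = t' + w`: `λ' = Rp`, so
`λ = Rp (t - tstar)`, and `s λ(T2)/Rp ≤ ρ/8 + ρ/4 < ρ/2`. The real radius `r = s λ/Rp` grows with speed
`s λ'/Rp`, between `Li s ≥ s/2` and `s` for `t ≥ T1`, so `s (t' - T1) ≤ ρ/4` and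
`s T2 ≤ ρ/4 + ρ/4 + ρ/4 < ρ`. (All of `λ` must be glued into one smooth function on `ℝ`, e.g. by
defining `λ'` by cases and integrating, or by `if t ≤ Ta then .. else ..` with agreement of the
germs; values for `t < T0` are irrelevant: take `λ = g_T + ν (t - T0)`, `μ = 0` there.)
-/

open scoped ContDiff Topology
open Filter Real

namespace Pool.Agent.W_MP_654ec6

theorem block_SD : ∃ CS : ℝ, 1 ≤ CS ∧ ∀ x, 0 ≤ deriv smoothTransition x ∧
    deriv smoothTransition x ≤ CS := by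
  have hs : ContDiff ℝ ∞ smoothTransition := smoothTransition.contDiff (n := ⊤)
  have hc : Continuous (deriv smoothTransition) :=
    (contDiff_infty_iff_deriv.1 hs).2.continuous
  obtain ⟨C, hC⟩ := (isCompact_Icc (a := (0 : ℝ)) (b := 1)).exists_bound_of_continuousOn
    hc.continuousOn
  refine ⟨max C 1, le_max_right _ _, fun x => ⟨?_, ?_⟩⟩
  · exact smoothTransition.monotone.deriv_nonneg
  · rcases lt_or_ge x 0 with h | h
    · have : smoothTransition =ᶠ[𝓝 x] fun _ => (0 : ℝ) := by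
        filter_upwards [Iio_mem_nhds h] with y hy
        exact smoothTransition.zero_of_nonpos (le_of_lt hy)
      rw [this.deriv_eq]
      simp
    · rcases lt_or_ge 1 x with h' | h'
      · have : smoothTransition =ᶠ[𝓝 x] fun _ => (1 : ℝ) := by
          filter_upwards [Ioi_mem_nhds h'] with y hy
          exact smoothTransition.one_of_one_le (le_of_lt hy)
        rw [this.deriv_eq]
        simp
      · exact ((le_abs_self _).trans (hC x ⟨h, h'⟩)).trans (le_max_left _ _)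

theorem block_ok_mono {l m η : ℝ → ℝ} {κ s x : ℝ} (h : NeckOK l m η 0 s x) (hκ : 0 ≤ κ) :
    NeckOK l m η κ s x := by
  obtain ⟨h1, h2, h3, h4⟩ := h
  rw [add_zero] at h1 h2 h3
  rw [add_zero, add_zero] at h4
  refine ⟨by linarith, by linarith, by linarith, ?_⟩
  nlinarith [mul_nonneg h1 hκ, mul_nonneg h2 hκ, mul_nonneg hκ hκ]

theorem block_neck_deriv {Rp Li q T : ℝ} {l m : ℝ → ℝ} (hN : NeckFun Rp Li q T l m)
    (hRp : 0 < Rp) (hRp' : Rp < 1 / 8) (hLi : 0 < Li) (hLi' : Li < 1) (hq : 0 < q) (hq' : q < 1)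
    (hβ : (1 + q) * (√Li * Rp ^ (1 / 3 : ℝ)) < 1) {s : ℝ} (hs : 1 ≤ s) :
    0 < deriv l s ∧ deriv l s < 1 := by
  set r := √Li * Rp ^ (1 / 3 : ℝ) with hr
  have hr0 : 0 < r := by positivity
  have hrq : 0 < r * q := by positivity
  have hLR : 0 < Li * Rp := by positivity
  have hLR' : Li * Rp < 1 := by
    have h := mul_lt_mul_of_pos_right hLi' hRp
    linarith
  have hs0 : 0 < s := by linarith
  have hp : 0 < s ^ (-q) := Real.rpow_pos_of_pos hs0 _
  have hp1 : s ^ (-q) ≤ 1 := Real.rpow_le_one_of_one_le_of_nonpos hs (by linarith)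
  have hz1 : 0 < (1 - q) * s ^ (-q) := mul_pos (by linarith) hp
  have hz2 : (1 - q) * s ^ (-q) ≤ 1 - q := by
    have := mul_le_mul_of_nonneg_left hp1 (by linarith : (0 : ℝ) ≤ 1 - q)
    linarith
  rcases le_total s T with h1 | h1
  · obtain ⟨θ, θ', ht0, ht1, -, -, hd, -⟩ := hN.phase1 s ⟨hs, h1⟩
    rw [← hr] at hd
    have e : (1 - θ) * (1 + q) + θ * (1 - q) * s ^ (-q) =
        (1 - θ) * (1 + q) + θ * ((1 - q) * s ^ (-q)) := by ring
    rw [e] at hd
    have lo : 0 < (1 - θ) * (1 + q) + θ * ((1 - q) * s ^ (-q)) := by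
      rcases ht0.eq_or_lt with h | h
      · rw [← h]; linarith
      · have := mul_pos h hz1
        have : 0 ≤ (1 - θ) * (1 + q) := mul_nonneg (by linarith) (by linarith)
        linarith
    have hi : (1 - θ) * (1 + q) + θ * ((1 - q) * s ^ (-q)) ≤ 1 + q := by
      have := mul_le_mul_of_nonneg_left (hz2.trans (by linarith : 1 - q ≤ 1 + q)) ht0
      linarith
    rw [hd]
    refine ⟨mul_pos hr0 lo, ?_⟩
    calc r * ((1 - θ) * (1 + q) + θ * ((1 - q) * s ^ (-q))) ≤ r * (1 + q) :=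
          mul_le_mul_of_nonneg_left hi hr0.le
      _ < 1 := by linarith
  · rcases le_total s (T + q) with h2 | h2
    · obtain ⟨θ, θ', ht0, ht1, -, hd, -⟩ := hN.phase2 s ⟨h1, h2⟩
      rw [← hr] at hd
      have e : r * (1 - q) * s ^ (-q) = r * ((1 - q) * s ^ (-q)) := by ring
      rw [e] at hd
      have hA : 0 < r * ((1 - q) * s ^ (-q)) := mul_pos hr0 hz1
      have hA' : r * ((1 - q) * s ^ (-q)) < 1 := by
        have := mul_le_mul_of_nonneg_left hz2 hr0.le
        linarith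
      rw [hd]
      constructor
      · rcases ht0.eq_or_lt with h | h
        · rw [← h]; linarith
        · have := mul_pos h hLR
          have := mul_nonneg (by linarith : (0 : ℝ) ≤ 1 - θ) hA.le
          linarith
      · rcases ht0.eq_or_lt with h | h
        · rw [← h]; linarith
        · have := mul_lt_mul_of_pos_left hLR' h
          have := mul_le_mul_of_nonneg_left hA'.le (by linarith : (0 : ℝ) ≤ 1 - θ)
          linarith
    · rw [hN.end_l s h2]
      exact ⟨hLR, hLR'⟩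

theorem block_neck_end {Rp Li q T : ℝ} {l m : ℝ → ℝ} (hN : NeckFun Rp Li q T l m) {s : ℝ}
    (hs : T + q ≤ s) : l s = l (T + q) + Li * Rp * (s - (T + q)) := by
  rcases hs.eq_or_lt with h | h
  · rw [← h]; ring
  · have hd : Differentiable ℝ l := hN.smooth_l.differentiable (by simp)
    obtain ⟨ξ, hξ, he⟩ := exists_deriv_eq_slope l h hd.continuous.continuousOn
      hd.differentiableOn
    rw [hN.end_l ξ hξ.1.le, eq_div_iff (by linarith)] at he
    linarith

theorem block_assemble {T0 gT ν Rp ρ Li q T r0 β σ s w t' T1 v1 CS : ℝ} {η Φ lN mN : ℝ → ℝ}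
    (hgT : 0 < gT) (hν : 0 < ν) (hν' : ν < 1) (hη : LinkFun Rp η) (hρ : 0 < ρ)
    (hΦs : ContDiff ℝ ∞ Φ) (hΦd : ∀ x, HasDerivAt Φ (smoothTransition x) x)
    (hΦ0 : ∀ x ≤ 0, Φ x = 0) (hΦnn : ∀ x, 0 ≤ Φ x) (hΦle : ∀ x, 0 ≤ x → Φ x ≤ x)
    (hΦ1 : ∀ x, 1 ≤ x → Φ x = Φ 1 + (x - 1))
    (hCS : ∀ x, 0 ≤ deriv smoothTransition x ∧ deriv smoothTransition x ≤ CS)
    (hN : NeckFun Rp Li q T lN mN)
    (hok : ∀ s ≥ 1, ∀ x ∈ Lat, 0 < lN s ∧ NeckOK lN mN η 0 s x)
    (hq : 0 < q) (hq' : q < 1) (hr0 : r0 = √Li * Rp ^ (1 / 3 : ℝ)) (hr0p : 0 < r0)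
    (hβ : β = (1 + q) * r0) (hβν : β < ν) (hLi : 1 / 2 ≤ Li) (hLi' : Li < 1)
    (hLC : (1 - Li) * CS = ρ ^ 2 / 100) (hσ : 0 < σ)
    (hσe : σ * r0 = gT + 3 * ν - (ν - β) * (Φ 1 + 1))
    (hT1 : T1 = T0 + 3 + σ * (T + q - 1)) (hv1 : v1 = σ * lN (T + q)) (hs : 0 < s)
    (hs1 : s * v1 ≤ ρ * Rp / 16) (hs2 : s * T1 ≤ ρ / 4) (hw : w = ρ / (4 * s))
    (ht' : t' = T1 + (ρ * Rp / (8 * s) - v1) / (Li * Rp)) :
    ∃ (T2 tstar : ℝ) (l m : ℝ → ℝ), BlockFun T0 gT ν Rp ρ s T2 tstar η l m := by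
  have hRp := hη.Rp_pos
  have hRp' := hη.Rp_lt
  have hLi0 : 0 < Li := by linarith only [hLi]
  have hLR : 0 < Li * Rp := by positivity
  have hT := hN.T_gt
  have hσT : 0 < σ * (T + q - 1) := mul_pos hσ (by linarith only [hT, hq])
  have hTaT1 : T0 + 3 < T1 := by rw [hT1]; linarith only [hσT]
  have hwp : 0 < w := by rw [hw]; positivity
  have hv1p : 0 < v1 := by
    rw [hv1]
    exact mul_pos hσ (hok (T + q) (by linarith only [hT, hq]) 0 (by
      constructor
      · have := Real.pi_pos; linarith only [this]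
      · have := Real.pi_pos; linarith only [this])).1
  have hv1s : v1 ≤ ρ * Rp / (16 * s) := by
    rw [le_div_iff₀ (by positivity)]
    linarith only [hs1]
  have hgap : 0 < (ρ * Rp / (8 * s) - v1) / (Li * Rp) := by
    apply div_pos _ hLR
    have : ρ * Rp / (8 * s) = 2 * (ρ * Rp / (16 * s)) := by field_simp; ring
    have h3 : 0 < ρ * Rp / (16 * s) := by positivity
    linarith only [this, h3, hv1s]
  have hT1t : T1 < t' := by rw [ht']; linarith only [hgap]
  have hst' : s * (t' - T1) ≤ ρ / 4 := by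
    have h1 : s * (t' - T1) = (ρ * Rp / 8 - s * v1) / (Li * Rp) := by
      rw [ht']; field_simp; ring
    rw [h1, div_le_iff₀ hLR]
    have h2 : 0 < s * v1 := by positivity
    have h3 : ρ * Rp / 8 ≤ ρ / 4 * (Li * Rp) := by
      have : 0 < ρ * Rp := by positivity
      have := mul_le_mul_of_nonneg_left hLi this.le
      linarith only [this]
    linarith only [h2, h3]
  have hsw : s * w = ρ / 4 := by rw [hw]; field_simp
  -- the functions
  obtain ⟨T2, hT2⟩ : ∃ T2 : ℝ, T2 = t' + w := ⟨_, rfl⟩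
  obtain ⟨l, hl⟩ : ∃ l : ℝ → ℝ, l = fun t =>
    (gT + ν * (t - T0) - (ν - β) * Φ (t - T0 - 1) - σ * r0 -
    β * (t - (T0 + 3))) + σ * lN (1 + (t - (T0 + 3)) / σ) +
    Rp * (1 - Li) * w * Φ ((t - t') / w) := ⟨_, rfl⟩
  obtain ⟨m, hm⟩ : ∃ m : ℝ → ℝ, m = fun t => mN (1 + (t - (T0 + 3)) / σ) := ⟨_, rfl⟩
  obtain ⟨lA, hlA⟩ : ∃ lA : ℝ → ℝ,
    lA = fun t => gT + ν * (t - T0) - (ν - β) * Φ (t - T0 - 1) := ⟨_, rfl⟩
  obtain ⟨lB, hlB⟩ : ∃ lB : ℝ → ℝ, lB = fun t => σ * lN (1 + (t - (T0 + 3)) / σ) := ⟨_, rfl⟩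
  obtain ⟨lC, hlC⟩ : ∃ lC : ℝ → ℝ, lC = fun t => v1 + Li * Rp * (t - T1) +
    Rp * (1 - Li) * w * Φ ((t - t') / w) := ⟨_, rfl⟩
  -- the argument of the neck functions
  have hu1 : ∀ t, t ≤ T0 + 3 → 1 + (t - (T0 + 3)) / σ ≤ 1 := by
    intro t ht
    have : (t - (T0 + 3)) / σ ≤ 0 := div_nonpos_of_nonpos_of_nonneg (by linarith only [ht]) hσ.le
    linarith only [this]
  have hu2 : ∀ t, t ≤ T0 + 3 + q * σ → 1 + (t - (T0 + 3)) / σ ≤ 1 + q := by
    intro t ht
    have : (t - (T0 + 3)) / σ ≤ q := by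
      rw [div_le_iff₀ hσ]; linarith only [ht]
    linarith only [this]
  have hu3 : ∀ t, T0 + 3 ≤ t → 1 ≤ 1 + (t - (T0 + 3)) / σ := by
    intro t ht
    have : 0 ≤ (t - (T0 + 3)) / σ := div_nonneg (by linarith only [ht]) hσ.le
    linarith only [this]
  have hu4 : ∀ t, T1 ≤ t → T + q ≤ 1 + (t - (T0 + 3)) / σ := by
    intro t ht
    have : T + q - 1 ≤ (t - (T0 + 3)) / σ := by
      rw [le_div_iff₀ hσ]
      rw [hT1] at ht
      linarith only [ht]
    linarith only [this]
  have hu5 : 1 + (T1 - (T0 + 3)) / σ = T + q := by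
    rw [hT1]; field_simp; ring
  -- E vanishes for t ≤ t'
  have hE : ∀ t ≤ t', Φ ((t - t') / w) = 0 := fun t ht =>
    hΦ0 _ (div_nonpos_of_nonpos_of_nonneg (by linarith only [ht]) hwp.le)
  -- pointwise identities
  have pA : ∀ t, t ≤ T0 + 3 + q * σ → t ≤ t' → l t = lA t := by
    intro t ht htt
    have h1 := hN.start_l _ (hu2 t ht)
    rw [← hr0] at h1
    simp only [hl, hlA]
    rw [hE t htt, h1, hβ]
    field_simp
    ring
  have pB : ∀ t, T0 + 2 ≤ t → t ≤ t' → l t = lB t := by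
    intro t ht htt
    have h1 := hΦ1 (t - T0 - 1) (by linarith only [ht])
    simp only [hl, hlB]
    rw [hE t htt, h1]
    have : gT + ν * (t - T0) - (ν - β) * (Φ 1 + (t - T0 - 1 - 1)) - σ * r0 -
      β * (t - (T0 + 3)) = 0 := by
      rw [hσe]; ring
    rw [this]; ring
  have pC : ∀ t, T1 ≤ t → l t = lC t := by
    intro t ht
    have h1 := hΦ1 (t - T0 - 1) (by linarith only [ht, hTaT1])
    have h2 := block_neck_end hN (hu4 t ht)
    simp only [hl, hlC]
    rw [h1, h2]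
    have h3 : gT + ν * (t - T0) - (ν - β) * (Φ 1 + (t - T0 - 1 - 1)) - σ * r0 -
      β * (t - (T0 + 3)) = 0 := by
      rw [hσe]; ring
    rw [h3, hv1, hT1]
    field_simp
    ring
  -- neighbourhoods
  have hqs : 0 < q * σ := mul_pos hq hσ
  have nA : ∀ t, t ≤ T0 + 3 → l =ᶠ[𝓝 t] lA := by
    intro t ht
    filter_upwards [Iio_mem_nhds (show t < T0 + 3 + q * σ by linarith only [ht, hqs]),
      Iio_mem_nhds (show t < t' by linarith only [ht, hTaT1, hT1t])] with y hy hy'
    exact pA y (le_of_lt hy) (le_of_lt hy')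
  have nB : ∀ t, T0 + 2 < t → t < t' → l =ᶠ[𝓝 t] lB := by
    intro t ht htt
    filter_upwards [Ioi_mem_nhds ht, Iio_mem_nhds htt] with y hy hy'
    exact pB y (le_of_lt hy) (le_of_lt hy')
  have nC : ∀ t, T1 < t → l =ᶠ[𝓝 t] lC := by
    intro t ht
    filter_upwards [Ioi_mem_nhds ht] with y hy
    exact pC y (le_of_lt hy)
  -- derivatives of the local formulas
  have dA : ∀ t, HasDerivAt lA (ν - (ν - β) * smoothTransition (t - T0 - 1)) t := by
    intro t
    have h1 : HasDerivAt (fun t => gT + ν * (t - T0)) (ν * 1) t :=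
      (((hasDerivAt_id t).sub_const T0).const_mul ν).const_add gT
    have h2 : HasDerivAt (fun t => t - T0 - 1) 1 t :=
      ((hasDerivAt_id t).sub_const T0).sub_const 1
    have h3 : HasDerivAt (fun t => Φ (t - T0 - 1)) (smoothTransition (t - T0 - 1) * 1) t :=
      (hΦd (t - T0 - 1)).comp t h2
    have h4 := h1.sub (h3.const_mul (ν - β))
    rw [mul_one, mul_one] at h4
    rw [hlA]
    exact h4
  have dA2 : ∀ t, deriv (deriv lA) t = -((ν - β) * deriv smoothTransition (t - T0 - 1)) := by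
    intro t
    have h0 : deriv lA = fun t => ν - (ν - β) * smoothTransition (t - T0 - 1) :=
      funext fun t => (dA t).deriv
    rw [h0]
    have h2 : HasDerivAt (fun t => t - T0 - 1) 1 t :=
      ((hasDerivAt_id t).sub_const T0).sub_const 1
    have hS : HasDerivAt smoothTransition (deriv smoothTransition (t - T0 - 1)) (t - T0 - 1) :=
      ((smoothTransition.contDiff (n := 1)).differentiable (by simp) _).hasDerivAt
    have h3 := ((hS.comp t h2).const_mul (ν - β)).const_sub ν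
    rw [mul_one] at h3
    exact h3.deriv
  have dB : ∀ t, HasDerivAt lB (deriv lN (1 + (t - (T0 + 3)) / σ)) t := by
    intro t
    have h2 : HasDerivAt (fun t => 1 + (t - (T0 + 3)) / σ) (1 / σ) t :=
      (((hasDerivAt_id t).sub_const (T0 + 3)).div_const σ).const_add 1
    have h1 : HasDerivAt lN (deriv lN (1 + (t - (T0 + 3)) / σ)) (1 + (t - (T0 + 3)) / σ) :=
      (hN.smooth_l.differentiable (by simp) _).hasDerivAt
    have h3 := (h1.comp t h2).const_mul σ
    have e : σ * (deriv lN (1 + (t - (T0 + 3)) / σ) * (1 / σ)) =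
        deriv lN (1 + (t - (T0 + 3)) / σ) := by
      rw [one_div, mul_comm, mul_assoc, inv_mul_cancel₀ hσ.ne', mul_one]
    rw [e] at h3
    rw [hlB]
    exact h3
  have hvC : ∀ t : ℝ, HasDerivAt (fun t => (t - t') / w) (1 / w) t := fun t =>
    ((hasDerivAt_id t).sub_const t').div_const w
  have dC : ∀ t, HasDerivAt lC (Li * Rp + Rp * (1 - Li) * smoothTransition ((t - t') / w)) t := by
    intro t
    have h1 : HasDerivAt (fun t => v1 + Li * Rp * (t - T1)) (Li * Rp * 1) t :=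
      (((hasDerivAt_id t).sub_const T1).const_mul (Li * Rp)).const_add v1
    have h3 : HasDerivAt (fun t => Φ ((t - t') / w))
        (smoothTransition ((t - t') / w) * (1 / w)) t :=
      (hΦd ((t - t') / w)).comp t (hvC t)
    have h4 := h1.add (h3.const_mul (Rp * (1 - Li) * w))
    have e : Li * Rp * 1 + Rp * (1 - Li) * w * (smoothTransition ((t - t') / w) * (1 / w)) =
        Li * Rp + Rp * (1 - Li) * smoothTransition ((t - t') / w) := by
      have hw1 : w * (1 / w) = 1 := mul_one_div_cancel hwp.ne'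
      linear_combination (Rp * (1 - Li) * smoothTransition ((t - t') / w)) * hw1
    rw [e] at h4
    rw [hlC]
    exact h4
  have dC2 : ∀ t, deriv (deriv lC) t =
      Rp * (1 - Li) * deriv smoothTransition ((t - t') / w) / w := by
    intro t
    have h0 : deriv lC = fun t => Li * Rp + Rp * (1 - Li) * smoothTransition ((t - t') / w) :=
      funext fun t => (dC t).deriv
    rw [h0]
    have hS : HasDerivAt smoothTransition (deriv smoothTransition ((t - t') / w))
        ((t - t') / w) :=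
      ((smoothTransition.contDiff (n := 1)).differentiable (by simp) _).hasDerivAt
    have h3 := ((hS.comp t (hvC t)).const_mul (Rp * (1 - Li))).const_add (Li * Rp)
    have e : Rp * (1 - Li) * (deriv smoothTransition ((t - t') / w) * (1 / w)) =
        Rp * (1 - Li) * deriv smoothTransition ((t - t') / w) / w := by ring
    rw [e] at h3
    exact h3.deriv
  -- smoothness
  have hsl : ContDiff ℝ ∞ l := by
    have c1 : ContDiff ℝ ∞ (fun t => Φ (t - T0 - 1)) :=
      hΦs.comp ((contDiff_id.sub contDiff_const).sub contDiff_const)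
    have c2 : ContDiff ℝ ∞ (fun t => lN (1 + (t - (T0 + 3)) / σ)) :=
      hN.smooth_l.comp (contDiff_const.add ((contDiff_id.sub contDiff_const).div_const σ))
    have c3 : ContDiff ℝ ∞ (fun t => Φ ((t - t') / w)) :=
      hΦs.comp ((contDiff_id.sub contDiff_const).div_const w)
    have c4 : ContDiff ℝ ∞ (fun t => gT + ν * (t - T0)) :=
      contDiff_const.add (contDiff_const.mul (contDiff_id.sub contDiff_const))
    have c5 : ContDiff ℝ ∞ (fun t => β * (t - (T0 + 3))) :=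
      contDiff_const.mul (contDiff_id.sub contDiff_const)
    rw [hl]
    exact (((((c4.sub (contDiff_const.mul c1)).sub contDiff_const).sub c5).add
      (contDiff_const.mul c2)).add (contDiff_const.mul c3))
  have hsm : ContDiff ℝ ∞ m := by
    rw [hm]
    exact hN.smooth_m.comp (contDiff_const.add ((contDiff_id.sub contDiff_const).div_const σ))
  -- the function m
  have hmt : ∀ t, m t = mN (1 + (t - (T0 + 3)) / σ) := fun t => by rw [hm]
  have m0 : ∀ t, t ≤ T0 + 3 + q * σ → m t = 0 := fun t ht => by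
    rw [hmt]; exact hN.start_m _ (hu2 t ht)
  have m1 : ∀ t, T1 ≤ t → m t = 1 := fun t ht => by rw [hmt]; exact hN.end_m _ (hu4 t ht)
  -- values of l'
  have hβ0 : 0 < β := by rw [hβ]; exact mul_pos (by linarith only [hq]) hr0p
  have vA : ∀ t, t ≤ T0 + 3 → β ≤ deriv l t ∧ deriv l t ≤ ν ∧ deriv (deriv l) t ≤ 0 := by
    intro t ht
    have e1 : deriv l t = ν - (ν - β) * smoothTransition (t - T0 - 1) :=
      (nA t ht).deriv_eq.trans (dA t).deriv
    have e2 : deriv (deriv l) t = -((ν - β) * deriv smoothTransition (t - T0 - 1)) :=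
      (nA t ht).deriv.deriv_eq.trans (dA2 t)
    have h1 := smoothTransition.nonneg (t - T0 - 1)
    have h2 := smoothTransition.le_one (t - T0 - 1)
    have h3 := (hCS (t - T0 - 1)).1
    have h4 : 0 < ν - β := by linarith only [hβν]
    refine ⟨?_, ?_, ?_⟩
    · have := mul_le_mul_of_nonneg_left h2 h4.le
      rw [e1]
      linarith only [this]
    · have := mul_nonneg h4.le h1
      rw [e1]
      linarith only [this]
    · have := mul_nonneg h4.le h3
      rw [e2]
      linarith only [this]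
  have vB : ∀ t, T0 + 3 ≤ t → t < t' → 0 < deriv l t ∧ deriv l t < 1 := by
    intro t ht htt
    rw [(nB t (by linarith only [ht]) htt).deriv_eq, (dB t).deriv]
    refine block_neck_deriv hN hRp hRp' hLi0 hLi' hq hq' ?_ (hu3 t ht)
    rw [← hr0, ← hβ]
    linarith only [hβν, hν']
  have hbC : 0 < Rp * (1 - Li) := mul_pos hRp (by linarith only [hLi'])
  have vC : ∀ t, T1 < t → 0 < deriv l t ∧ deriv l t ≤ Rp ∧ 0 ≤ deriv (deriv l) t ∧
      deriv (deriv l) t ≤ s * Rp * ρ / 25 := by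
    intro t ht
    have e1 : deriv l t = Li * Rp + Rp * (1 - Li) * smoothTransition ((t - t') / w) :=
      (nC t ht).deriv_eq.trans (dC t).deriv
    have e2 : deriv (deriv l) t = Rp * (1 - Li) * deriv smoothTransition ((t - t') / w) / w :=
      (nC t ht).deriv.deriv_eq.trans (dC2 t)
    have h1 := smoothTransition.nonneg ((t - t') / w)
    have h2 := smoothTransition.le_one ((t - t') / w)
    obtain ⟨h3, h4⟩ := hCS ((t - t') / w)
    refine ⟨?_, ?_, ?_, ?_⟩
    · have := mul_nonneg hbC.le h1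
      rw [e1]
      linarith only [this, hLR]
    · have := mul_le_mul_of_nonneg_left h2 hbC.le
      rw [e1]
      linarith only [this]
    · rw [e2]
      exact div_nonneg (mul_nonneg hbC.le h3) hwp.le
    · rw [e2, div_le_iff₀ hwp]
      have h5 : s * Rp * ρ / 25 * w = Rp * ((1 - Li) * CS) := by
        rw [hLC]
        calc s * Rp * ρ / 25 * w = Rp * ρ / 25 * (s * w) := by ring
          _ = _ := by rw [hsw]; ring
      rw [h5, mul_assoc]
      exact mul_le_mul_of_nonneg_left (mul_le_mul_of_nonneg_left h4 (by linarith only [hLi'])) hRp.le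
  -- values of l
  have lA0 : ∀ t, T0 ≤ t → t ≤ T0 + 3 → gT ≤ l t := by
    intro t h0 ht
    rw [pA t (by linarith only [ht, hqs]) (by linarith only [ht, hTaT1, hT1t])]
    simp only [hlA]
    have h4 : 0 < ν - β := by linarith only [hβν]
    rcases le_total (t - T0 - 1) 0 with h | h
    · rw [hΦ0 _ h]
      have := mul_nonneg hν.le (by linarith only [h0] : 0 ≤ t - T0)
      linarith only [this]
    · have h5 := hΦle _ h
      have h6 := mul_le_mul_of_nonneg_left h5 h4.le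
      have h7 : (ν - β) * (t - T0 - 1) ≤ ν * (t - T0) := by
        have := mul_nonneg hβ0.le h
        linarith only [this, hν]
      linarith only [h6, h7]
  have h0Lat : (0 : ℝ) ∈ Lat := by
    have := Real.pi_pos
    constructor <;> linarith only [this]
  have lBp : ∀ t, T0 + 3 ≤ t → 0 < lB t := fun t ht => by
    rw [hlB]
    exact mul_pos hσ (hok _ (hu3 t ht) 0 h0Lat).1
  have lpos : ∀ t, T0 ≤ t → 0 < l t := by
    intro t ht
    rcases le_total t (T0 + 3) with h | h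
    · exact lt_of_lt_of_le hgT (lA0 t ht h)
    · have h1 := hΦ1 (t - T0 - 1) (by linarith only [h])
      have h3 : gT + ν * (t - T0) - (ν - β) * (Φ 1 + (t - T0 - 1 - 1)) - σ * r0 -
        β * (t - (T0 + 3)) = 0 := by
        rw [hσe]; ring
      have h4 := lBp t h
      have h5 : 0 ≤ Rp * (1 - Li) * w * Φ ((t - t') / w) :=
        mul_nonneg (mul_pos hbC hwp).le (hΦnn _)
      simp only [hl, hlB] at h4 ⊢
      rw [h1, h3]
      linarith only [h4, h5]
  -- the value at t'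
  have hlt' : l t' = ρ * Rp / (8 * s) := by
    rw [pC t' hT1t.le]
    simp only [hlC]
    rw [hE t' le_rfl, ht']
    field_simp
    ring
  have hlC' : ∀ t, t' ≤ t → ρ * Rp / (8 * s) ≤ l t := by
    intro t ht
    rw [← hlt', pC t (by linarith only [ht, hT1t]), pC t' hT1t.le]
    simp only [hlC]
    rw [hE t' le_rfl]
    have h5 : 0 ≤ Rp * (1 - Li) * w * Φ ((t - t') / w) :=
      mul_nonneg (mul_pos hbC hwp).le (hΦnn _)
    have h6 := mul_le_mul_of_nonneg_left ht hLR.le
    linarith only [h5, h6]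
  -- the end
  have hT2t : t' < T2 := by rw [hT2]; linarith only [hwp]
  have hend : ∀ t, T2 ≤ t → l t = l T2 + Rp * (t - T2) := by
    intro t ht
    rw [pC t (by linarith only [ht, hT2t, hT1t]), pC T2 (by linarith only [hT2t, hT1t])]
    have h1 : 1 ≤ (t - t') / w := by
      rw [le_div_iff₀ hwp]; linarith only [ht, hT2]
    have h2 : (T2 - t') / w = 1 := by
      rw [hT2]; field_simp; ring
    simp only [hlC]
    rw [hΦ1 _ h1, h2]
    have h3 : Rp * (1 - Li) * w * (Φ 1 + ((t - t') / w - 1)) =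
        Rp * (1 - Li) * w * Φ 1 + Rp * (1 - Li) * (t - T2) := by
      rw [hT2]; field_simp; ring
    rw [h3]
    ring
  have hlT2 : s * l T2 ≤ 3 / 8 * (ρ * Rp) := by
    have h1 : l T2 ≤ ρ * Rp / (8 * s) + Rp * w := by
      rw [← hlt', pC t' hT1t.le, pC T2 (by linarith only [hT2t, hT1t])]
      have h2 : (T2 - t') / w = 1 := by
        rw [hT2]; field_simp; ring
      simp only [hlC]
      rw [hE t' le_rfl, h2, hT2]
      have h3 := hΦle 1 zero_le_one
      have h4 := mul_le_mul_of_nonneg_left h3 (mul_pos hbC hwp).le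
      linarith only [h4]
    have h2 := mul_le_mul_of_nonneg_left h1 hs.le
    have h3 : s * (ρ * Rp / (8 * s) + Rp * w) = ρ * Rp / 8 + Rp * (s * w) := by
      field_simp
    rw [h3, hsw] at h2
    linarith only [h2]
  clear hσT hv1p hv1s hgap hu1 hu2 hu4 hu5 hE pB pC nA nC dA dA2 dB hvC dC dC2 lA0 lBp hlt' hs1
    hv1 ht' hw hσe hr0 hLC
  refine ⟨T2, T2 - l T2 / Rp, l, m, ?_⟩
  refine
    { s_pos := hs
      T2_gt := by linarith only [hTaT1, hT1t, hT2t]
      smooth_l := hsl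
      smooth_m := hsm
      start_l := ?_
      start_m := fun t ht => m0 t (by linarith only [ht, hqs])
      end_l := ?_
      end_m := fun t ht => m1 t (by linarith only [ht, hT1t, hT2t])
      m_mem := fun t => by rw [hmt]; exact hN.m_mem _
      l_pos := fun t ht => lpos t ht
      deriv_pos := ?_
      deriv_lt := ?_
      size1 := ?_
      size2 := ?_
      ok := ?_ }
  · intro t ht
    rw [pA t (by linarith only [ht, hqs]) (by linarith only [ht, hTaT1, hT1t])]
    simp only [hlA]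
    rw [hΦ0 _ (by linarith only [ht])]
    ring
  · intro t ht
    rw [hend t ht]
    field_simp
    ring
  · intro t ht
    rcases le_total t (T0 + 3) with h | h
    · exact lt_of_lt_of_le hβ0 (vA t h).1
    · rcases lt_or_ge t t' with h' | h'
      · exact (vB t h h').1
      · exact (vC t (by linarith only [h', hT1t])).1
  · intro t ht
    rcases le_total t (T0 + 3) with h | h
    · exact lt_of_le_of_lt (vA t h).2.1 hν'
    · rcases lt_or_ge t t' with h' | h'
      · exact (vB t h h').2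
      · exact lt_of_le_of_lt (vC t (by linarith only [h', hT1t])).2.1 (by linarith only [hRp'])
  · have h1 : s * (T2 - (T2 - l T2 / Rp)) = s * l T2 / Rp := by ring
    rw [h1, div_le_iff₀ hRp]
    have : 0 < ρ * Rp := by positivity
    linarith only [hlT2, this]
  · rw [hT2]
    linarith only [hst', hs2, hsw, hρ]
  · intro t ht x hx
    have hκ : 0 ≤ 3 * s ^ 2 := by positivity
    rcases le_total t (T0 + 3) with h | h
    · have hv := vA t h
      refine neckOK_round hκ hx ?_ (lpos t ht) ?_ hv.2.2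
      · filter_upwards [Iio_mem_nhds (show t < T0 + 3 + q * σ by linarith only [h, hqs])] with y hy
        exact m0 y (le_of_lt hy)
      · rw [abs_of_nonneg (by linarith only [hv.1, hβ0])]
        linarith only [hv.2.1, hν']
    · rcases lt_or_ge t t' with h' | h'
      · have hnB := nB t (by linarith only [h]) h'
        rw [hlB] at hnB
        have hk2 : NeckOK lN mN η (3 * s ^ 2 * σ ^ 2) (1 + (t - (T0 + 3)) / σ) x :=
          block_ok_mono (hok _ (hu3 t h) x hx).2 (by positivity)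
        exact neckOK_scale (l₁ := lN) (m₁ := mN) (c := T0 + 3) (κ := 3 * s ^ 2) hσ hnB
          (Eventually.of_forall hmt) hN.smooth_l.contDiffAt hN.smooth_m.contDiffAt hk2
      · have ht1 : T1 < t := by linarith only [h', hT1t]
        have hv := vC t ht1
        refine neckOK_cone hη hκ hx ?_ (lpos t ht) hv.1.le hv.2.1 hv.2.2.1 ?_
        · filter_upwards [Ioi_mem_nhds ht1] with y hy
          exact m1 y (le_of_lt hy)
        · have h1 := hlC' t h'
          have h2 := mul_le_mul_of_nonneg_left h1 hκ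
          have h3 : 3 * s ^ 2 * (ρ * Rp / (8 * s)) = 3 * (s * Rp * ρ / 8) := by
            field_simp
          rw [h3] at h2
          have h4 := hv.2.2.2
          have h5 : 0 < s * Rp * ρ := by positivity
          linarith only [h2, h4, h5]

theorem exists_blockFun {T0 gT ν Rp ρ : ℝ} {η : ℝ → ℝ} (hT0 : 0 < T0) (hgT : 0 < gT) (hν : 0 < ν)
    (hν' : ν < 1) (hη : LinkFun Rp η) (hRp : Rp ^ (1 / 3 : ℝ) < 6 / 10 * ν) (hρ : 0 < ρ)
    (hρ' : ρ < 1) :
    ∃ (s T2 tstar : ℝ) (l m : ℝ → ℝ), BlockFun T0 gT ν Rp ρ s T2 tstar η l m := by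
  obtain ⟨Φ, hΦs, hΦd, hΦ0, hΦnn, hΦle, hΦ1⟩ := block_Phi
  obtain ⟨CS, hCS1, hCS⟩ := block_SD
  have hR := hη.Rp_pos
  have hCS0 : 0 < CS := by linarith
  have hy : 0 < ρ ^ 2 / (100 * CS) := by positivity
  have hy' : ρ ^ 2 / (100 * CS) ≤ 1 / 100 := by
    rw [div_le_iff₀ (by positivity)]
    have : ρ ^ 2 ≤ 1 := pow_le_one₀ hρ.le hρ'.le
    linarith
  obtain ⟨Li, hLi⟩ : ∃ Li : ℝ, Li = 1 - ρ ^ 2 / (100 * CS) := ⟨_, rfl⟩
  have hLi0 : 0 < Li := by rw [hLi]; linarith
  have hLih : 1 / 2 ≤ Li := by rw [hLi]; linarith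
  have hLi1 : Li < 1 := by rw [hLi]; linarith
  have hLC : (1 - Li) * CS = ρ ^ 2 / 100 := by
    rw [hLi]; field_simp; ring
  obtain ⟨q0, hq0, hqA⟩ := exists_neckFun hR hη.Rp_lt hLi0 hLi1
  obtain ⟨q1, hq1, hqB⟩ := neckOK_neck hη hLi0 hLi1
  obtain ⟨q, hq⟩ : ∃ q : ℝ, q = min (min (q0 / 2) (q1 / 2)) (1 / 4) := ⟨_, rfl⟩
  have hqp : 0 < q := by
    rw [hq]; exact lt_min (lt_min (by linarith) (by linarith)) (by norm_num)
  have hqa : q < q0 := by
    have h1 : q ≤ q0 / 2 := by rw [hq]; exact (min_le_left _ _).trans (min_le_left _ _)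
    linarith
  have hqb : q < q1 := by
    have h1 : q ≤ q1 / 2 := by rw [hq]; exact (min_le_left _ _).trans (min_le_right _ _)
    linarith
  have hqc : q ≤ 1 / 4 := by rw [hq]; exact min_le_right _ _
  obtain ⟨T, lN, mN, hN⟩ := hqA q hqp hqa
  have hok := hqB q T lN mN hqp hqb hN
  obtain ⟨r0, hr0⟩ : ∃ r0 : ℝ, r0 = √Li * Rp ^ (1 / 3 : ℝ) := ⟨_, rfl⟩
  have hRpp : 0 < Rp ^ (1 / 3 : ℝ) := Real.rpow_pos_of_pos hR _
  have hsq : √Li ≤ 1 := by
    have h1 := Real.sqrt_le_sqrt hLi1.le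
    rwa [Real.sqrt_one] at h1
  have hr0p : 0 < r0 := by rw [hr0]; exact mul_pos (Real.sqrt_pos.2 hLi0) hRpp
  have hr0l : r0 < 6 / 10 * ν := by
    rw [hr0]
    have := mul_le_mul_of_nonneg_right hsq hRpp.le
    linarith
  obtain ⟨β, hβ⟩ : ∃ β : ℝ, β = (1 + q) * r0 := ⟨_, rfl⟩
  have hβν : β < ν := by
    have := mul_le_mul_of_nonneg_right hqc hr0p.le
    rw [hβ]; linarith
  have hβ0 : 0 < β := by rw [hβ]; exact mul_pos (by linarith) hr0p
  have hΦ11 := hΦle 1 zero_le_one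
  have hnum : 0 < gT + 3 * ν - (ν - β) * (Φ 1 + 1) := by
    have h1 := mul_le_mul_of_nonneg_left (by linarith : Φ 1 + 1 ≤ 2)
      (by linarith : (0 : ℝ) ≤ ν - β)
    linarith
  obtain ⟨σ, hσ⟩ : ∃ σ : ℝ, σ = (gT + 3 * ν - (ν - β) * (Φ 1 + 1)) / r0 := ⟨_, rfl⟩
  have hσp : 0 < σ := by rw [hσ]; exact div_pos hnum hr0p
  have hσe : σ * r0 = gT + 3 * ν - (ν - β) * (Φ 1 + 1) := by
    rw [hσ]; field_simp
  obtain ⟨T1, hT1⟩ : ∃ T1 : ℝ, T1 = T0 + 3 + σ * (T + q - 1) := ⟨_, rfl⟩
  obtain ⟨v1, hv1⟩ : ∃ v1 : ℝ, v1 = σ * lN (T + q) := ⟨_, rfl⟩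
  have hT := hN.T_gt
  have hT1p : 0 < T1 := by
    have := mul_pos hσp (by linarith : 0 < T + q - 1)
    rw [hT1]; linarith
  have hv1p : 0 < v1 := by
    rw [hv1]
    exact mul_pos hσp (hok (T + q) (by linarith) 0 (by
      constructor
      · have := Real.pi_pos; linarith
      · have := Real.pi_pos; linarith)).1
  obtain ⟨s, hs⟩ : ∃ s : ℝ, s = min (ρ * Rp / (16 * v1)) (ρ / (4 * T1)) := ⟨_, rfl⟩
  have hsp : 0 < s := by
    rw [hs]; exact lt_min (by positivity) (by positivity)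
  have hs1 : s * v1 ≤ ρ * Rp / 16 := by
    have h1 : s ≤ ρ * Rp / (16 * v1) := by rw [hs]; exact min_le_left _ _
    rw [le_div_iff₀ (by positivity)] at h1
    linarith
  have hs2 : s * T1 ≤ ρ / 4 := by
    have h1 : s ≤ ρ / (4 * T1) := by rw [hs]; exact min_le_right _ _
    rw [le_div_iff₀ (by positivity)] at h1
    linarith
  obtain ⟨T2, tstar, l, m, h⟩ := block_assemble hgT hν hν' hη hρ hΦs hΦd hΦ0 hΦnn hΦle hΦ1
    hCS hN hok hqp (by linarith) hr0 hr0p hβ hβν hLih hLi1 hLC hσp hσe hT1 hv1 hsp hs1 hs2 rfl rfl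
  exact ⟨s, T2, tstar, l, m, h⟩

end Pool.Agent.W_MP_654ec6
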