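import Pool.Agent.W_MP_654ec6.D.Defs

/-!
# The functions of a block: definition
-/

open scoped ContDiff Topology
open Filter Real

namespace Pool.Agent.W_MP_654ec6

theorem block_smooth_infty {f g : ℝ → ℝ} (hf : ∀ x, HasDerivAt f (g x) x) (hg : ContDiff ℝ ∞ g) :
    ContDiff ℝ ∞ f := by
  rw [contDiff_infty_iff_deriv]
  refine ⟨fun x => (hf x).differentiableAt, ?_⟩
  have h : deriv f = g := funext fun x => (hf x).deriv
  rw [h]
  exact hg

/-- A primitive of the smooth step. -/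
theorem block_Phi : ∃ Φ : ℝ → ℝ, ContDiff ℝ ∞ Φ ∧ (∀ x, HasDerivAt Φ (smoothTransition x) x) ∧
    (∀ x ≤ 0, Φ x = 0) ∧ (∀ x, 0 ≤ Φ x) ∧ (∀ x, 0 ≤ x → Φ x ≤ x) ∧
    (∀ x, 1 ≤ x → Φ x = Φ 1 + (x - 1)) := by
  have hc : Continuous smoothTransition := smoothTransition.continuous
  have hd : ∀ x, HasDerivAt (fun x => ∫ u in (0 : ℝ)..x, smoothTransition u)
      (smoothTransition x) x := fun x => (hc.integral_hasStrictDerivAt 0 x).hasDerivAt
  refine ⟨fun x => ∫ u in (0 : ℝ)..x, smoothTransition u, ?_, hd, ?_, ?_, ?_, ?_⟩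
  · exact block_smooth_infty hd (smoothTransition.contDiff (n := ⊤))
  · intro x hx
    have h : ∫ u in (0 : ℝ)..x, smoothTransition u = ∫ _u in (0 : ℝ)..x, (0 : ℝ) := by
      refine intervalIntegral.integral_congr fun u hu => ?_
      rw [Set.uIcc_of_ge hx] at hu
      exact smoothTransition.zero_of_nonpos hu.2
    change ∫ u in (0 : ℝ)..x, smoothTransition u = 0
    rw [h]
    simp
  · intro x
    rcases le_total 0 x with hx | hx
    · exact intervalIntegral.integral_nonneg hx fun u _ => smoothTransition.nonneg u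
    · have h : ∫ u in (0 : ℝ)..x, smoothTransition u = ∫ _u in (0 : ℝ)..x, (0 : ℝ) := by
        refine intervalIntegral.integral_congr fun u hu => ?_
        rw [Set.uIcc_of_ge hx] at hu
        exact smoothTransition.zero_of_nonpos hu.2
      change 0 ≤ ∫ u in (0 : ℝ)..x, smoothTransition u
      rw [h]
      simp
  · intro x hx
    have h : ∫ u in (0 : ℝ)..x, smoothTransition u ≤ ∫ _u in (0 : ℝ)..x, (1 : ℝ) :=
      intervalIntegral.integral_mono_on hx (hc.intervalIntegrable _ _)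
        (continuous_const.intervalIntegrable _ _) fun u _ => smoothTransition.le_one u
    simpa using h
  · intro x hx
    have h1 : ∫ u in (1 : ℝ)..x, smoothTransition u = ∫ _u in (1 : ℝ)..x, (1 : ℝ) := by
      refine intervalIntegral.integral_congr fun u hu => ?_
      rw [Set.uIcc_of_le hx] at hu
      exact smoothTransition.one_of_one_le hu.1
    have h2 := intervalIntegral.integral_add_adjacent_intervals
      (hc.intervalIntegrable (μ := MeasureTheory.volume) 0 1)
      (hc.intervalIntegrable (μ := MeasureTheory.volume) 1 x)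
    change ∫ u in (0 : ℝ)..x, smoothTransition u =
      (∫ u in (0 : ℝ)..1, smoothTransition u) + (x - 1)
    rw [← h2, h1]
    simp

/-- The functions of a block outside its core. -/
structure BlockFun (T0 gT ν Rp ρ s T2 tstar : ℝ) (η l m : ℝ → ℝ) : Prop where
  s_pos : 0 < s
  T2_gt : T0 + 2 < T2
  smooth_l : ContDiff ℝ ∞ l
  smooth_m : ContDiff ℝ ∞ m
  start_l : ∀ t ≤ T0 + 1, l t = gT + ν * (t - T0)
  start_m : ∀ t ≤ T0 + 1, m t = 0
  end_l : ∀ t ≥ T2, l t = Rp * (t - tstar)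
  end_m : ∀ t ≥ T2, m t = 1
  m_mem : ∀ t, m t ∈ Set.Icc (0 : ℝ) 1
  l_pos : ∀ t ≥ T0, 0 < l t
  deriv_pos : ∀ t ≥ T0, 0 < deriv l t
  deriv_lt : ∀ t ≥ T0, deriv l t < 1
  size1 : s * (T2 - tstar) ≤ ρ / 2
  size2 : s * T2 ≤ ρ
  ok : ∀ t ≥ T0, ∀ x ∈ Lat, NeckOK l m η (3 * s ^ 2) t x

end Pool.Agent.W_MP_654ec6
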