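import Mathlib

/-!
# Task D3: the functions of the neck (construction and quantitative properties)

Given `0 < Rp < 1/8`, `0 < Li < 1`, put `ρ₀ = √Li Rp^{1/3}` (so `0 < ρ₀ < 1/2`), `L = log (1/Rp) > 2`,
and for small `q > 0`, `mh = 3 q/(2 L)`. `S = Real.smoothTransition`, `θ(s) = S((s - 1)/q - 1)`
(`= 0` for `s ≤ 1 + q`, `= 1` for `s ≥ 1 + 2 q`), `θ₂(s) = S((s - T)/q)` with `T > 2` to be chosen,
`dl(s) = (1 - θ₂)[(1 - θ)(1 + q) ρ₀ + θ (1 - q) ρ₀ s^{-q}] + θ₂ Li Rp`,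
`dm(s) = (1 - θ₂) θ mh / s`, `l(s) = ρ₀ + ∫_1^s dl`, `m(s) = ∫_1^s dm`
(for `s ≤ 1`: `l(s) = ρ₀ + (1 + q) ρ₀ (s - 1)`, `m(s) = 0`; use e.g. `max s 1/2` inside the powers so
that everything is smooth on `ℝ`). `T` is chosen (intermediate value theorem; `∫ θ mh/s` diverges
and the integral up to `T = 2` is `< 1` for small `q`) such that `∫_1^∞ dm = 1`.

Facts. (a) `T^q ≤ Rp^{-2/3} (1 + 2q)^q` because `mh (log T - log (1 + 2 q)) ≤ 1` and
`e^{q/mh} = e^{2 L/3} = Rp^{-2/3}`; similarly for `T + q` up to the factor `(1 + q/T)^q ≤ 1 + q`.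
(b) `m(s) ≤ mh log s`, so `Rp^{2 m(s)} ≥ s^{-3 q}`. (c) on `[1, T]`:
`ρ₀ s^{1-q} ≤ l(s) ≤ ρ₀ s^{1-q} (1 + 12 q²)` (the difference of the slopes is at most `3 q ρ₀ (1 - θ)`
and lives on an interval of length `2 q`; note `(1+q) - (1-q) s^{-q} ≤ 2 q + q log s ≤ 3q` there).
On `[T, T + q]`, `l(s) ≤ ρ₀ s^{1-q}(1 + 12 q²)` still and `l(s) ≥ ρ₀ s^{1-q} (1 - q)`.
(d) by (a), for `s ≤ T + q`: `s^{-q} ≥ Rp^{2/3} (1 - 4 q)`, so
`s^{-q} ρ₀^{-2} ≥ (1 - 4 q)/Li`.
The statement below lists exactly what is needed in Task D4. (`q` may be taken as small as one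
likes: `q < q₀`.)
-/

open scoped ContDiff Topology
open Filter Real

namespace Pool.Agent.W_MP_654ec6

/-- The functions `l`, `m` of the neck with their quantitative properties. -/
structure NeckFun (Rp Li q T : ℝ) (l m : ℝ → ℝ) : Prop where
  T_gt : 2 < T
  smooth_l : ContDiff ℝ ∞ l
  smooth_m : ContDiff ℝ ∞ m
  start_l : ∀ s ≤ 1 + q, l s = √Li * Rp ^ (1 / 3 : ℝ) * (1 + (1 + q) * (s - 1))
  start_m : ∀ s ≤ 1 + q, m s = 0
  end_l : ∀ s ≥ T + q, deriv l s = Li * Rp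
  end_m : ∀ s ≥ T + q, m s = 1
  m_mem : ∀ s, m s ∈ Set.Icc (0 : ℝ) 1
  /-- first phase: there are the values `θ, θ'` of a smooth step -/
  phase1 : ∀ s ∈ Set.Icc 1 T, ∃ θ θ' : ℝ, 0 ≤ θ ∧ θ ≤ 1 ∧ 0 ≤ θ' ∧
    (s ≤ 1 + 2 * q ∨ (θ = 1 ∧ θ' = 0)) ∧
    deriv l s = √Li * Rp ^ (1 / 3 : ℝ) * ((1 - θ) * (1 + q) + θ * (1 - q) * s ^ (-q)) ∧
    deriv (deriv l) s = -(√Li * Rp ^ (1 / 3 : ℝ)) *
      (θ' * ((1 + q) - (1 - q) * s ^ (-q)) + θ * q * (1 - q) * s ^ (-q) / s) ∧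
    deriv m s = θ * (3 * q / (2 * Real.log (1 / Rp))) / s ∧
    deriv (deriv m) s = (θ' - θ / s) * (3 * q / (2 * Real.log (1 / Rp))) / s ∧
    √Li * Rp ^ (1 / 3 : ℝ) * s ^ (1 - q) ≤ l s ∧
    l s ≤ √Li * Rp ^ (1 / 3 : ℝ) * s ^ (1 - q) * (1 + 12 * q ^ 2)
  /-- second phase -/
  phase2 : ∀ s ∈ Set.Icc T (T + q), ∃ θ θ' : ℝ, 0 ≤ θ ∧ θ ≤ 1 ∧ 0 ≤ θ' ∧
    deriv l s = (1 - θ) * (√Li * Rp ^ (1 / 3 : ℝ) * (1 - q) * s ^ (-q)) + θ * (Li * Rp) ∧
    deriv (deriv l) s = -θ' * (√Li * Rp ^ (1 / 3 : ℝ) * (1 - q) * s ^ (-q) - Li * Rp) -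
      (1 - θ) * (√Li * Rp ^ (1 / 3 : ℝ) * q * (1 - q) * s ^ (-q) / s) ∧
    deriv m s = (1 - θ) * (3 * q / (2 * Real.log (1 / Rp))) / s ∧
    deriv (deriv m) s = -(θ' + (1 - θ) / s) * (3 * q / (2 * Real.log (1 / Rp))) / s ∧
    √Li * Rp ^ (1 / 3 : ℝ) * s ^ (1 - q) * (1 - q) ≤ l s ∧
    l s ≤ √Li * Rp ^ (1 / 3 : ℝ) * s ^ (1 - q) * (1 + 12 * q ^ 2)
  rp_m : ∀ s ∈ Set.Icc 1 (T + q), s ^ (-3 * q) ≤ Rp ^ (2 * m s)
  key : ∀ s ∈ Set.Icc 1 (T + q), Rp ^ (2 / 3 : ℝ) * (1 - 4 * q) ≤ s ^ (-q)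

/-- A positive smooth function which is the identity on `[1/2, ∞)`. -/
noncomputable def NeckFun_kap (s : ℝ) : ℝ :=
  smoothTransition (2 * s) * s + (1 - smoothTransition (2 * s))

theorem NeckFun_kap_pos (s : ℝ) : 0 < NeckFun_kap s := by
  unfold NeckFun_kap
  rcases le_or_gt s 0 with h | h
  · rw [smoothTransition.zero_of_nonpos (by linarith)]; norm_num
  · have h1 := smoothTransition.le_one (2 * s)
    have hp := smoothTransition.pos_of_pos (by linarith : 0 < 2 * s)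
    have := mul_pos hp h
    linarith

theorem NeckFun_kap_eq {s : ℝ} (hs : 1 / 2 ≤ s) : NeckFun_kap s = s := by
  unfold NeckFun_kap
  rw [smoothTransition.one_of_one_le (by linarith)]
  ring

theorem NeckFun_kap_contDiff : ContDiff ℝ ∞ NeckFun_kap := by
  unfold NeckFun_kap
  have h : ContDiff ℝ ∞ (fun s : ℝ => smoothTransition (2 * s)) :=
    smoothTransition.contDiff.comp (contDiff_const.mul contDiff_id)
  exact (h.mul contDiff_id).add (contDiff_const.sub h)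

/-- The first step. -/
noncomputable def NeckFun_th (q s : ℝ) : ℝ := smoothTransition ((s - 1) / q - 1)

/-- The second step. -/
noncomputable def NeckFun_th2 (q T s : ℝ) : ℝ := smoothTransition ((s - T) / q)

theorem NeckFun_th_contDiff (q : ℝ) : ContDiff ℝ ∞ (NeckFun_th q) := by
  unfold NeckFun_th
  exact smoothTransition.contDiff.comp
    (((contDiff_id.sub contDiff_const).div_const q).sub contDiff_const)

theorem NeckFun_th2_contDiff (q T : ℝ) : ContDiff ℝ ∞ (NeckFun_th2 q T) := by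
  unfold NeckFun_th2
  exact smoothTransition.contDiff.comp ((contDiff_id.sub contDiff_const).div_const q)

theorem NeckFun_th_mem (q s : ℝ) : 0 ≤ NeckFun_th q s ∧ NeckFun_th q s ≤ 1 :=
  ⟨smoothTransition.nonneg _, smoothTransition.le_one _⟩

theorem NeckFun_th2_mem (q T s : ℝ) : 0 ≤ NeckFun_th2 q T s ∧ NeckFun_th2 q T s ≤ 1 :=
  ⟨smoothTransition.nonneg _, smoothTransition.le_one _⟩

theorem NeckFun_th_zero {q s : ℝ} (hq : 0 < q) (hs : s ≤ 1 + q) : NeckFun_th q s = 0 := by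
  unfold NeckFun_th
  apply smoothTransition.zero_of_nonpos
  rw [sub_nonpos, div_le_one hq]
  linarith

theorem NeckFun_th_one {q s : ℝ} (hq : 0 < q) (hs : 1 + 2 * q ≤ s) : NeckFun_th q s = 1 := by
  unfold NeckFun_th
  apply smoothTransition.one_of_one_le
  rw [le_sub_iff_add_le, le_div_iff₀ hq]
  linarith

theorem NeckFun_th2_zero {q T s : ℝ} (hq : 0 < q) (hs : s ≤ T) : NeckFun_th2 q T s = 0 := by
  unfold NeckFun_th2
  apply smoothTransition.zero_of_nonpos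
  exact div_nonpos_of_nonpos_of_nonneg (by linarith) hq.le

theorem NeckFun_th2_one {q T s : ℝ} (hq : 0 < q) (hs : T + q ≤ s) : NeckFun_th2 q T s = 1 := by
  unfold NeckFun_th2
  apply smoothTransition.one_of_one_le
  rw [le_div_iff₀ hq]
  linarith

theorem NeckFun_th_deriv_nonneg {q : ℝ} (hq : 0 < q) (s : ℝ) : 0 ≤ deriv (NeckFun_th q) s := by
  apply Monotone.deriv_nonneg
  intro a b hab
  unfold NeckFun_th
  apply smoothTransition.monotone
  gcongr

theorem NeckFun_th2_deriv_nonneg {q : ℝ} (hq : 0 < q) (T s : ℝ) :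
    0 ≤ deriv (NeckFun_th2 q T) s := by
  apply Monotone.deriv_nonneg
  intro a b hab
  unfold NeckFun_th2
  apply smoothTransition.monotone
  gcongr

theorem NeckFun_th_deriv_one {q s : ℝ} (hq : 0 < q) (hs : 1 + 2 * q ≤ s) :
    deriv (NeckFun_th q) s = 0 := by
  apply IsLocalMax.deriv_eq_zero
  refine Filter.Eventually.of_forall fun y => ?_
  rw [NeckFun_th_one hq hs]
  exact (NeckFun_th_mem q y).2

theorem NeckFun_th2_deriv_zero {q T s : ℝ} (hq : 0 < q) (hs : s ≤ T) :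
    deriv (NeckFun_th2 q T) s = 0 := by
  apply IsLocalMin.deriv_eq_zero
  refine Filter.Eventually.of_forall fun y => ?_
  rw [NeckFun_th2_zero hq hs]
  exact (NeckFun_th2_mem q T y).1

/-- derivative of `l` -/
noncomputable def NeckFun_dl (r e q T s : ℝ) : ℝ :=
  (1 - NeckFun_th2 q T s) * ((1 - NeckFun_th q s) * ((1 + q) * r) +
    NeckFun_th q s * ((1 - q) * r * NeckFun_kap s ^ (-q))) + NeckFun_th2 q T s * e

/-- derivative of `m` -/
noncomputable def NeckFun_dm (mh q T s : ℝ) : ℝ :=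
  (1 - NeckFun_th2 q T s) * NeckFun_th q s * (mh / NeckFun_kap s)

theorem NeckFun_dl_contDiff (r e q T : ℝ) : ContDiff ℝ ∞ (NeckFun_dl r e q T) := by
  have h1 := NeckFun_th_contDiff q
  have h2 := NeckFun_th2_contDiff q T
  have h3 : ContDiff ℝ ∞ (fun s => NeckFun_kap s ^ (-q)) :=
    NeckFun_kap_contDiff.rpow_const_of_ne fun s => (NeckFun_kap_pos s).ne'
  unfold NeckFun_dl
  exact ((contDiff_const.sub h2).mul (((contDiff_const.sub h1).mul contDiff_const).add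
    (h1.mul (contDiff_const.mul h3)))).add (h2.mul contDiff_const)

theorem NeckFun_dm_contDiff (mh q T : ℝ) : ContDiff ℝ ∞ (NeckFun_dm mh q T) := by
  have h1 := NeckFun_th_contDiff q
  have h2 := NeckFun_th2_contDiff q T
  unfold NeckFun_dm
  exact ((contDiff_const.sub h2).mul h1).mul
    (contDiff_const.div NeckFun_kap_contDiff fun s => (NeckFun_kap_pos s).ne')

theorem NeckFun_dl_hasDerivAt (r e q T : ℝ) {s : ℝ} (hs : 1 ≤ s) :
    HasDerivAt (NeckFun_dl r e q T)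
      (-deriv (NeckFun_th2 q T) s * ((1 - NeckFun_th q s) * ((1 + q) * r) +
          NeckFun_th q s * ((1 - q) * r * s ^ (-q))) +
        (1 - NeckFun_th2 q T s) * (-deriv (NeckFun_th q) s * ((1 + q) * r) +
          (deriv (NeckFun_th q) s * ((1 - q) * r * s ^ (-q)) +
            NeckFun_th q s * ((1 - q) * r * (-(q * s ^ (-q) / s))))) +
        deriv (NeckFun_th2 q T) s * e) s := by
  have hs0 : 0 < s := by linarith
  have h1 : HasDerivAt (NeckFun_th q) (deriv (NeckFun_th q) s) s :=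
    ((NeckFun_th_contDiff q).differentiable (by simp) s).hasDerivAt
  have h2 : HasDerivAt (NeckFun_th2 q T) (deriv (NeckFun_th2 q T) s) s :=
    ((NeckFun_th2_contDiff q T).differentiable (by simp) s).hasDerivAt
  have h3 : HasDerivAt (fun s => NeckFun_kap s ^ (-q)) (-(q * s ^ (-q) / s)) s := by
    have h4 : HasDerivAt (fun s : ℝ => s ^ (-q)) (-q * s ^ (-q - 1)) s :=
      Real.hasDerivAt_rpow_const (Or.inl hs0.ne')
    have h5 : -q * s ^ (-q - 1) = -(q * s ^ (-q) / s) := by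
      rw [Real.rpow_sub_one hs0.ne']
      ring
    rw [h5] at h4
    refine h4.congr_of_eventuallyEq ?_
    filter_upwards [Ioi_mem_nhds (show (1 / 2 : ℝ) < s by linarith)] with t ht
    rw [NeckFun_kap_eq (le_of_lt ht)]
  have h6 : NeckFun_kap s ^ (-q) = s ^ (-q) := by rw [NeckFun_kap_eq (by linarith)]
  have h7 := ((h2.const_sub 1).mul (((h1.const_sub 1).mul_const ((1 + q) * r)).add
    (h1.mul (h3.const_mul ((1 - q) * r))))).add (h2.mul_const e)
  simp only [Pi.add_apply, Pi.mul_apply] at h7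
  rw [h6] at h7
  exact h7

theorem NeckFun_dm_hasDerivAt (mh q T : ℝ) {s : ℝ} (hs : 1 ≤ s) :
    HasDerivAt (NeckFun_dm mh q T)
      ((-deriv (NeckFun_th2 q T) s * NeckFun_th q s +
          (1 - NeckFun_th2 q T s) * deriv (NeckFun_th q) s) * (mh / s) +
        (1 - NeckFun_th2 q T s) * NeckFun_th q s * (-(mh / s / s))) s := by
  have hs0 : 0 < s := by linarith
  have h1 : HasDerivAt (NeckFun_th q) (deriv (NeckFun_th q) s) s :=
    ((NeckFun_th_contDiff q).differentiable (by simp) s).hasDerivAt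
  have h2 : HasDerivAt (NeckFun_th2 q T) (deriv (NeckFun_th2 q T) s) s :=
    ((NeckFun_th2_contDiff q T).differentiable (by simp) s).hasDerivAt
  have h3 : HasDerivAt (fun s => mh / NeckFun_kap s) (-(mh / s / s)) s := by
    have h4 : HasDerivAt (fun s : ℝ => mh / s) (-(mh / s / s)) s := by
      have h5 := (hasDerivAt_inv hs0.ne').const_mul mh
      have h6 : mh * -(s ^ 2)⁻¹ = -(mh / s / s) := by
        field_simp
      rw [h6] at h5
      simpa [div_eq_mul_inv] using h5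
    refine h4.congr_of_eventuallyEq ?_
    filter_upwards [Ioi_mem_nhds (show (1 / 2 : ℝ) < s by linarith)] with t ht
    rw [NeckFun_kap_eq (le_of_lt ht)]
  have h6 : mh / NeckFun_kap s = mh / s := by rw [NeckFun_kap_eq (by linarith)]
  have h7 := ((h2.const_sub 1).mul h1).mul h3
  simp only [Pi.mul_apply] at h7
  rw [h6] at h7
  exact h7

/-- primitive with value `c` at `1` -/
noncomputable def NeckFun_prim (c : ℝ) (f : ℝ → ℝ) (s : ℝ) : ℝ := c + ∫ t in (1 : ℝ)..s, f t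

theorem NeckFun_prim_hasDerivAt (c : ℝ) {f : ℝ → ℝ} (hf : ContDiff ℝ ∞ f) (s : ℝ) :
    HasDerivAt (NeckFun_prim c f) (f s) s := by
  unfold NeckFun_prim
  exact ((hf.continuous.integral_hasStrictDerivAt 1 s).hasDerivAt).const_add c

theorem NeckFun_prim_deriv (c : ℝ) {f : ℝ → ℝ} (hf : ContDiff ℝ ∞ f) :
    deriv (NeckFun_prim c f) = f := by
  funext s
  exact (NeckFun_prim_hasDerivAt c hf s).deriv

theorem NeckFun_prim_contDiff (c : ℝ) {f : ℝ → ℝ} (hf : ContDiff ℝ ∞ f) :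
    ContDiff ℝ ∞ (NeckFun_prim c f) := by
  rw [contDiff_infty_iff_deriv, NeckFun_prim_deriv c hf]
  exact ⟨fun s => (NeckFun_prim_hasDerivAt c hf s).differentiableAt, hf⟩

theorem NeckFun_prim_one (c : ℝ) (f : ℝ → ℝ) : NeckFun_prim c f 1 = c := by
  simp [NeckFun_prim]

theorem NeckFun_mv_le {g g' : ℝ → ℝ} {a b C : ℝ} (hab : a ≤ b)
    (hg : ∀ x ∈ Set.Icc a b, HasDerivAt g (g' x) x) (h : ∀ x ∈ Set.Icc a b, g' x ≤ C) :
    g b - g a ≤ C * (b - a) := by
  have hmem : ∀ x, x ∈ interior (Set.Icc a b) → x ∈ Set.Icc a b := fun x hx => interior_subset hx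
  refine (convex_Icc a b).image_sub_le_mul_sub_of_deriv_le
    (fun x hx => (hg x hx).continuousAt.continuousWithinAt)
    (fun x hx => (hg x (hmem x hx)).differentiableAt.differentiableWithinAt)
    (fun x hx => ?_) a (Set.left_mem_Icc.2 hab) b (Set.right_mem_Icc.2 hab) hab
  rw [(hg x (hmem x hx)).deriv]
  exact h x (hmem x hx)

theorem NeckFun_mv_ge {g g' : ℝ → ℝ} {a b C : ℝ} (hab : a ≤ b)
    (hg : ∀ x ∈ Set.Icc a b, HasDerivAt g (g' x) x) (h : ∀ x ∈ Set.Icc a b, C ≤ g' x) :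
    C * (b - a) ≤ g b - g a := by
  have := NeckFun_mv_le (g := fun x => -g x) (g' := fun x => -g' x) (C := -C) hab
    (fun x hx => (hg x hx).neg) (fun x hx => neg_le_neg (h x hx))
  linarith

theorem NeckFun_dm_nonneg {mh q T : ℝ} (hmh : 0 ≤ mh) (s : ℝ) : 0 ≤ NeckFun_dm mh q T s := by
  unfold NeckFun_dm
  have h1 := NeckFun_th_mem q s
  have h2 := NeckFun_th2_mem q T s
  exact mul_nonneg (mul_nonneg (by linarith [h2.2]) h1.1)
    (div_nonneg hmh (NeckFun_kap_pos s).le)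

theorem NeckFun_dm_le {mh q T s : ℝ} (hmh : 0 ≤ mh) (hs : 1 ≤ s) :
    NeckFun_dm mh q T s ≤ mh / s := by
  unfold NeckFun_dm
  have h1 := NeckFun_th_mem q s
  have h2 := NeckFun_th2_mem q T s
  rw [NeckFun_kap_eq (by linarith)]
  have h3 : (1 - NeckFun_th2 q T s) * NeckFun_th q s ≤ 1 * 1 :=
    mul_le_mul (by linarith [h2.1]) h1.2 h1.1 zero_le_one
  have h4 : 0 ≤ mh / s := by positivity
  calc (1 - NeckFun_th2 q T s) * NeckFun_th q s * (mh / s) ≤ 1 * 1 * (mh / s) :=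
        mul_le_mul_of_nonneg_right h3 h4
    _ = mh / s := by ring

theorem NeckFun_dm_zero {mh q T s : ℝ} (hq : 0 < q) (hs : T + q ≤ s) :
    NeckFun_dm mh q T s = 0 := by
  unfold NeckFun_dm
  rw [NeckFun_th2_one hq hs]
  ring

theorem NeckFun_dm_eq {mh q T s : ℝ} (hq : 0 < q) (hs1 : 1 + 2 * q ≤ s) (hs : s ≤ T) :
    NeckFun_dm mh q T s = mh / s := by
  unfold NeckFun_dm
  rw [NeckFun_th2_zero hq hs, NeckFun_th_one hq hs1, NeckFun_kap_eq (by linarith)]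
  ring

/-- The integral of `dm` over `[a, b]` for `1 + 2 q ≤ a ≤ b ≤ T`. -/
theorem NeckFun_m_log {mh q T a b : ℝ} (hq : 0 < q) (ha : 1 + 2 * q ≤ a) (hab : a ≤ b)
    (hb : b ≤ T) (c : ℝ) :
    NeckFun_prim c (NeckFun_dm mh q T) b - NeckFun_prim c (NeckFun_dm mh q T) a =
      mh * (log b - log a) := by
  have hd : ∀ x ∈ Set.Icc a b, HasDerivAt
      (fun x => NeckFun_prim c (NeckFun_dm mh q T) x - mh * log x)
      (NeckFun_dm mh q T x - mh * x⁻¹) x := by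
    intro x hx
    have hx0 : x ≠ 0 := by
      have := hx.1
      intro h
      linarith
    exact (NeckFun_prim_hasDerivAt c (NeckFun_dm_contDiff mh q T) x).sub
      ((Real.hasDerivAt_log hx0).const_mul mh)
  have h0 : ∀ x ∈ Set.Icc a b, NeckFun_dm mh q T x - mh * x⁻¹ = 0 := by
    intro x hx
    rw [NeckFun_dm_eq hq (ha.trans hx.1) (hx.2.trans hb), div_eq_mul_inv, sub_self]
  have h1 := NeckFun_mv_le (C := 0) hab hd fun x hx => (h0 x hx).le
  have h2 := NeckFun_mv_ge (C := 0) hab hd fun x hx => (h0 x hx).ge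
  simp only [zero_mul] at h1 h2
  linarith

theorem NeckFun_m_mono {mh q T : ℝ} (hmh : 0 ≤ mh) (c : ℝ) :
    Monotone (NeckFun_prim c (NeckFun_dm mh q T)) := by
  apply monotone_of_deriv_nonneg
  · exact fun s => (NeckFun_prim_hasDerivAt c (NeckFun_dm_contDiff mh q T) s).differentiableAt
  · intro s
    rw [NeckFun_prim_deriv c (NeckFun_dm_contDiff mh q T)]
    exact NeckFun_dm_nonneg hmh s

theorem NeckFun_m_const {mh q T a b : ℝ} (hq : 0 < q) (ha : T + q ≤ a) (hb : T + q ≤ b) (c : ℝ) :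
    NeckFun_prim c (NeckFun_dm mh q T) a = NeckFun_prim c (NeckFun_dm mh q T) b := by
  wlog hab : a ≤ b generalizing a b
  · exact (this hb ha (le_of_not_ge hab)).symm
  have hd : ∀ x ∈ Set.Icc a b, HasDerivAt (NeckFun_prim c (NeckFun_dm mh q T))
      (NeckFun_dm mh q T x) x := fun x _ =>
    NeckFun_prim_hasDerivAt c (NeckFun_dm_contDiff mh q T) x
  have h0 : ∀ x ∈ Set.Icc a b, NeckFun_dm mh q T x = 0 := fun x hx =>
    NeckFun_dm_zero hq (ha.trans hx.1)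
  have h1 := NeckFun_mv_le (C := 0) hab hd fun x hx => (h0 x hx).le
  have h2 := NeckFun_mv_ge (C := 0) hab hd fun x hx => (h0 x hx).ge
  simp only [zero_mul] at h1 h2
  linarith

theorem NeckFun_exists_T {q mh : ℝ} (hq : 0 < q) (hq2 : q < 1 / 2) (hmh : 0 < mh)
    (hmh1 : mh * (1 + q) < 1) :
    ∃ T, 2 < T ∧ ∀ s ≥ T + q, NeckFun_prim 0 (NeckFun_dm mh q T) s = 1 := by
  set T1 : ℝ := 2 * exp (1 / mh) with hT1def
  have he : 1 < exp (1 / mh) := by
    rw [Real.one_lt_exp_iff]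
    positivity
  have hT1 : 2 < T1 := by rw [hT1def]; linarith
  set Ψ : ℝ → ℝ := fun T => NeckFun_prim 0 (NeckFun_dm mh q T) (T1 + q) with hΨ
  have hcont : Continuous Ψ := by
    have h1 : Continuous (Function.uncurry fun T t : ℝ => NeckFun_dm mh q T t) := by
      unfold Function.uncurry NeckFun_dm NeckFun_th2
      have c1 : Continuous fun p : ℝ × ℝ => smoothTransition ((p.2 - p.1) / q) :=
        smoothTransition.continuous.comp ((continuous_snd.sub continuous_fst).div_const q)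
      have c2 : Continuous fun p : ℝ × ℝ => NeckFun_th q p.2 :=
        (NeckFun_th_contDiff q).continuous.comp continuous_snd
      have c3 : Continuous fun p : ℝ × ℝ => NeckFun_kap p.2 :=
        NeckFun_kap_contDiff.continuous.comp continuous_snd
      exact ((continuous_const.sub c1).mul c2).mul
        (continuous_const.div c3 fun p => (NeckFun_kap_pos p.2).ne')
    have h2 := intervalIntegral.continuous_parametric_intervalIntegral_of_continuous'
      (μ := MeasureTheory.volume) h1 1 (T1 + q)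
    simp only [hΨ, NeckFun_prim]
    exact continuous_const.add h2
  have hΨ2 : Ψ 2 < 1 := by
    have hd : ∀ x : ℝ, HasDerivAt (NeckFun_prim 0 (NeckFun_dm mh q 2)) (NeckFun_dm mh q 2 x) x :=
      fun x => NeckFun_prim_hasDerivAt 0 (NeckFun_dm_contDiff mh q 2) x
    have h1 := NeckFun_mv_le (a := 1) (b := 2 + q) (C := mh) (by linarith) (fun x _ => hd x)
      (fun x hx => (NeckFun_dm_le hmh.le hx.1).trans (div_le_self hmh.le hx.1))
    have h2 : NeckFun_prim 0 (NeckFun_dm mh q 2) (T1 + q) =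
        NeckFun_prim 0 (NeckFun_dm mh q 2) (2 + q) :=
      NeckFun_m_const hq (by linarith) le_rfl 0
    rw [NeckFun_prim_one] at h1
    simp only [hΨ]
    rw [h2]
    have h3 : mh * (2 + q - 1) = mh * (1 + q) := by ring
    linarith
  have hΨ1 : 1 ≤ Ψ T1 := by
    have hmono := NeckFun_m_mono (q := q) (T := T1) hmh.le 0
    have h1 : NeckFun_prim 0 (NeckFun_dm mh q T1) T1 ≤
        NeckFun_prim 0 (NeckFun_dm mh q T1) (T1 + q) := hmono (by linarith)
    have h2 := NeckFun_m_log (mh := mh) (q := q) (T := T1) (a := 2) (b := T1) hq (by linarith)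
      hT1.le le_rfl 0
    have h3 : (0 : ℝ) ≤ NeckFun_prim 0 (NeckFun_dm mh q T1) 2 := by
      have := hmono (show (1 : ℝ) ≤ 2 by norm_num)
      rwa [NeckFun_prim_one] at this
    have h4 : mh * (log T1 - log 2) = 1 := by
      rw [hT1def, Real.log_mul (by norm_num) (Real.exp_pos _).ne', Real.log_exp]
      field_simp
      ring
    simp only [hΨ]
    linarith
  obtain ⟨T, hT, hT1'⟩ := intermediate_value_Icc hT1.le hcont.continuousOn
    (show (1 : ℝ) ∈ Set.Icc (Ψ 2) (Ψ T1) from ⟨hΨ2.le, hΨ1⟩)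
  refine ⟨T, ?_, ?_⟩
  · rcases lt_or_eq_of_le hT.1 with h | h
    · exact h
    · rw [← h] at hT1'
      linarith
  · intro s hs
    rw [← hT1']
    exact NeckFun_m_const hq hs (by linarith [hT.2]) 0

theorem NeckFun_one_sub_le_rpow {q s : ℝ} (hs : 0 < s) : 1 - q * log s ≤ s ^ (-q) := by
  rw [Real.rpow_def_of_pos hs]
  have := Real.add_one_le_exp (log s * -q)
  linarith

theorem NeckFun_start_m {mh q T : ℝ} (hq : 0 < q) {s : ℝ} (hs : s ≤ 1 + q) :
    NeckFun_prim 0 (NeckFun_dm mh q T) s = 0 := by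
  have hm1 : NeckFun_prim 0 (NeckFun_dm mh q T) 1 = 0 := NeckFun_prim_one _ _
  have hdm : ∀ s, HasDerivAt (NeckFun_prim 0 (NeckFun_dm mh q T)) (NeckFun_dm mh q T s) s :=
    fun s => NeckFun_prim_hasDerivAt 0 (NeckFun_dm_contDiff mh q T) s
  have h0 : ∀ x, x ≤ 1 + q → NeckFun_dm mh q T x = 0 := by
    intro x hx
    unfold NeckFun_dm
    rw [NeckFun_th_zero hq hx, mul_zero, zero_mul]
  rcases le_total s 1 with h | h
  · have h1q : (1 : ℝ) ≤ 1 + q := le_add_of_nonneg_right hq.le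
    have a1 := NeckFun_mv_le (C := 0) h (fun x _ => hdm x)
      fun x hx => (h0 x (hx.2.trans h1q)).le
    have a2 := NeckFun_mv_ge (C := 0) h (fun x _ => hdm x)
      fun x hx => (h0 x (hx.2.trans h1q)).ge
    rw [zero_mul, hm1] at a1 a2
    linarith
  · have a1 := NeckFun_mv_le (C := 0) h (fun x _ => hdm x)
      fun x hx => (h0 x (hx.2.trans hs)).le
    have a2 := NeckFun_mv_ge (C := 0) h (fun x _ => hdm x)
      fun x hx => (h0 x (hx.2.trans hs)).ge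
    rw [zero_mul, hm1] at a1 a2
    linarith

theorem NeckFun_start_l {r e q T : ℝ} (hq : 0 < q) (hq1 : q < 1 / 10) (hT2 : 2 < T) {s : ℝ}
    (hs : s ≤ 1 + q) :
    NeckFun_prim r (NeckFun_dl r e q T) s = r * (1 + (1 + q) * (s - 1)) := by
  have hl1 : NeckFun_prim r (NeckFun_dl r e q T) 1 = r := NeckFun_prim_one _ _
  have hdl : ∀ s, HasDerivAt (NeckFun_prim r (NeckFun_dl r e q T)) (NeckFun_dl r e q T s) s :=
    fun s => NeckFun_prim_hasDerivAt r (NeckFun_dl_contDiff r e q T) s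
  have h0 : ∀ x, x ≤ 1 + q → NeckFun_dl r e q T x = (1 + q) * r := by
    intro x hx
    unfold NeckFun_dl
    rw [NeckFun_th_zero hq hx, NeckFun_th2_zero hq (by linarith)]
    ring
  rcases le_total s 1 with h | h
  · have h1q : (1 : ℝ) ≤ 1 + q := le_add_of_nonneg_right hq.le
    have a1 := NeckFun_mv_le (C := (1 + q) * r) h (fun x _ => hdl x)
      fun x hx => (h0 x (hx.2.trans h1q)).le
    have a2 := NeckFun_mv_ge (C := (1 + q) * r) h (fun x _ => hdl x)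
      fun x hx => (h0 x (hx.2.trans h1q)).ge
    rw [hl1] at a1 a2
    linarith
  · have a1 := NeckFun_mv_le (C := (1 + q) * r) h (fun x _ => hdl x)
      fun x hx => (h0 x (hx.2.trans hs)).le
    have a2 := NeckFun_mv_ge (C := (1 + q) * r) h (fun x _ => hdl x)
      fun x hx => (h0 x (hx.2.trans hs)).ge
    rw [hl1] at a1 a2
    linarith

theorem NeckFun_m_le_log {mh q T : ℝ} (hmh : 0 ≤ mh) {s : ℝ} (hs : 1 ≤ s) :
    NeckFun_prim 0 (NeckFun_dm mh q T) s ≤ mh * log s := by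
  have hd : ∀ x ∈ Set.Icc 1 s, HasDerivAt
      (fun x => NeckFun_prim 0 (NeckFun_dm mh q T) x - mh * log x)
      (NeckFun_dm mh q T x - mh * x⁻¹) x := by
    intro x hx
    have hx0 : x ≠ 0 := (lt_of_lt_of_le one_pos hx.1).ne'
    exact (NeckFun_prim_hasDerivAt 0 (NeckFun_dm_contDiff mh q T) x).sub
      ((Real.hasDerivAt_log hx0).const_mul mh)
  have h1 := NeckFun_mv_le (C := 0) hs hd fun x hx => by
    have := NeckFun_dm_le (q := q) (T := T) hmh hx.1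
    rw [div_eq_mul_inv] at this
    linarith
  rw [zero_mul, Real.log_one, mul_zero, NeckFun_prim_one] at h1
  linarith

theorem NeckFun_logT {mh q T L : ℝ} (hq : 0 < q) (hq1 : q < 1 / 10) (hL0 : 0 < L)
    (hmh : 0 < mh) (hmhL : mh * (2 * L) = 3 * q) (hT2 : 2 < T)
    (hT1 : NeckFun_prim 0 (NeckFun_dm mh q T) T ≤ 1) :
    q * log T ≤ q * log (1 + 2 * q) + 2 * L / 3 := by
  have hmmono : Monotone (NeckFun_prim 0 (NeckFun_dm mh q T)) := NeckFun_m_mono hmh.le 0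
  have hm1 : NeckFun_prim 0 (NeckFun_dm mh q T) 1 = 0 := NeckFun_prim_one _ _
  have h1 := NeckFun_m_log (mh := mh) (q := q) (T := T) (a := 1 + 2 * q) (b := T) hq le_rfl
    (by linarith) le_rfl 0
  have h2 : mh * (log T - log (1 + 2 * q)) ≤ 1 := by
    rw [← h1]
    have h4 := hmmono (show (1 : ℝ) ≤ 1 + 2 * q by linarith)
    rw [hm1] at h4
    linarith
  have h3 : 2 * L * (mh * (log T - log (1 + 2 * q))) ≤ 2 * L * 1 :=
    mul_le_mul_of_nonneg_left h2 (by positivity)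
  have h4 : 2 * L * (mh * (log T - log (1 + 2 * q))) =
      3 * q * (log T - log (1 + 2 * q)) := by rw [← hmhL]; ring
  rw [h4] at h3
  linarith

theorem NeckFun_key {q T L Rp : ℝ} (hq : 0 < q) (hq1 : q < 1 / 10) (hT2 : 2 < T)
    (hRp23 : Rp ^ (2 / 3 : ℝ) = exp (-(2 * L / 3)))
    (hlogT : q * log T ≤ q * log (1 + 2 * q) + 2 * L / 3) {s : ℝ}
    (hs : s ∈ Set.Icc 1 (T + q)) : Rp ^ (2 / 3 : ℝ) * (1 - 4 * q) ≤ s ^ (-q) := by
  have hs0 : 0 < s := lt_of_lt_of_le one_pos hs.1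
  have hT0 : 0 < T := by linarith
  have h1 : log (1 + 2 * q) ≤ 2 * q := by
    have := Real.log_le_sub_one_of_pos (show 0 < 1 + 2 * q by linarith)
    linarith
  have h2 : log s ≤ log T + q := by
    have h3 : log s ≤ log (T * (1 + q)) := by
      apply Real.log_le_log hs0
      have h4 : 1 * q ≤ T * q := mul_le_mul_of_nonneg_right (by linarith) hq.le
      have h5 := hs.2
      linarith
    rw [Real.log_mul hT0.ne' (by linarith)] at h3
    have := Real.log_le_sub_one_of_pos (show 0 < 1 + q by linarith)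
    linarith
  have h3 : q * log s ≤ 2 * L / 3 + 3 * q ^ 2 := by
    have a1 : q * log s ≤ q * (log T + q) := mul_le_mul_of_nonneg_left h2 hq.le
    have a2 : q * log (1 + 2 * q) ≤ q * (2 * q) := mul_le_mul_of_nonneg_left h1 hq.le
    have a3 : q * (2 * q) = 2 * q ^ 2 := by ring
    have a4 : q * (log T + q) = q * log T + q ^ 2 := by ring
    rw [a3] at a2
    rw [a4] at a1
    linarith
  rw [hRp23, Real.rpow_def_of_pos hs0]
  have h4 : 1 - 3 * q ^ 2 ≤ exp (-(3 * q ^ 2)) := by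
    have := Real.add_one_le_exp (-(3 * q ^ 2))
    linarith
  have h5 : 1 - 4 * q ≤ exp (-(3 * q ^ 2)) := by
    have h6 : q * q ≤ 1 * q := mul_le_mul_of_nonneg_right (by linarith) hq.le
    have h7 : q ^ 2 = q * q := sq q
    rw [h7] at h4 ⊢
    linarith
  calc exp (-(2 * L / 3)) * (1 - 4 * q) ≤ exp (-(2 * L / 3)) * exp (-(3 * q ^ 2)) :=
        mul_le_mul_of_nonneg_left h5 (Real.exp_pos _).le
    _ = exp (-(2 * L / 3) + -(3 * q ^ 2)) := (Real.exp_add _ _).symm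
    _ ≤ exp (log s * -q) := by
        apply Real.exp_le_exp.2
        linarith

theorem NeckFun_end {q Rp Li y : ℝ} (hRp : 0 < Rp) (hLi : 0 < Li) (hq : 0 < q)
    (hq1 : q < 1 / 10) (hq2 : q < (1 - √Li) / 5) (h1 : Rp ^ (2 / 3 : ℝ) * (1 - 4 * q) ≤ y) :
    Li * Rp ≤ (1 - q) * (√Li * Rp ^ (1 / 3 : ℝ)) * y := by
  have hsq0 : 0 < √Li := Real.sqrt_pos.2 hLi
  have h2 : Rp ^ (1 / 3 : ℝ) * Rp ^ (2 / 3 : ℝ) = Rp := by
    rw [← Real.rpow_add hRp]
    norm_num
  have h3 : √Li * √Li = Li := Real.mul_self_sqrt hLi.le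
  have h0 : 0 < Rp ^ (1 / 3 : ℝ) := Real.rpow_pos_of_pos hRp _
  generalize Rp ^ (1 / 3 : ℝ) = u at h2 h0 ⊢
  generalize Rp ^ (2 / 3 : ℝ) = w at h1 h2
  generalize √Li = z at hq2 hsq0 h3 ⊢
  have hzu : 0 ≤ (1 - q) * (z * u) := mul_nonneg (by linarith) (mul_pos hsq0 h0).le
  have h4 : (1 - q) * (z * u) * (w * (1 - 4 * q)) ≤ (1 - q) * (z * u) * y :=
    mul_le_mul_of_nonneg_left h1 hzu
  have h5 : (1 - q) * (z * u) * (w * (1 - 4 * q)) =
      ((1 - q) * (1 - 4 * q)) * z * (u * w) := by ring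
  rw [h5, h2] at h4
  have h6 : z ≤ (1 - q) * (1 - 4 * q) := by
    have h7 : (1 - q) * (1 - 4 * q) = 1 - 5 * q + 4 * (q * q) := by ring
    have h8 := mul_pos hq hq
    rw [h7]
    linarith
  refine le_trans ?_ h4
  rw [← h3]
  exact mul_le_mul_of_nonneg_right (mul_le_mul_of_nonneg_right h6 hsq0.le) hRp.le

theorem NeckFun_hasDerivAt_diff {r e q T x : ℝ} (hx : 1 ≤ x) :
    HasDerivAt (fun x => NeckFun_prim r (NeckFun_dl r e q T) x - r * x ^ (1 - q))
      (NeckFun_dl r e q T x - r * ((1 - q) * x ^ (-q))) x := by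
  have hx0 : x ≠ 0 := (lt_of_lt_of_le one_pos hx).ne'
  have h1 : HasDerivAt (fun x : ℝ => x ^ (1 - q)) ((1 - q) * x ^ (1 - q - 1)) x :=
    Real.hasDerivAt_rpow_const (Or.inl hx0)
  rw [show (1 - q - 1 : ℝ) = -q by ring] at h1
  exact (NeckFun_prim_hasDerivAt r (NeckFun_dl_contDiff r e q T) x).sub (h1.const_mul r)

theorem NeckFun_low {r e q T : ℝ} (hr0 : 0 < r) (hq : 0 < q) (hq1 : q < 1 / 10) {s : ℝ}
    (hs : s ∈ Set.Icc 1 T) :
    r * s ^ (1 - q) ≤ NeckFun_prim r (NeckFun_dl r e q T) s := by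
  have h1 := NeckFun_mv_ge (C := 0) hs.1
    (fun x hx => NeckFun_hasDerivAt_diff (r := r) (e := e) (q := q) (T := T) hx.1) fun x hx => by
    have hth := NeckFun_th_mem q x
    have hx1 : x ^ (-q) ≤ 1 := Real.rpow_le_one_of_one_le_of_nonpos hx.1 (by linarith)
    unfold NeckFun_dl
    rw [NeckFun_th2_zero hq (hx.2.trans hs.2), NeckFun_kap_eq (by linarith [hx.1])]
    generalize x ^ (-q) = y at hx1 ⊢
    generalize NeckFun_th q x = a at hth ⊢
    have h2 : (1 - 0) * ((1 - a) * ((1 + q) * r) + a * ((1 - q) * r * y)) + 0 * e -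
        r * ((1 - q) * y) = (1 - a) * r * ((1 + q) - (1 - q) * y) := by ring
    rw [h2]
    apply mul_nonneg (mul_nonneg (by linarith [hth.2]) hr0.le)
    have h3 : (1 - q) * y ≤ (1 - q) * 1 := mul_le_mul_of_nonneg_left hx1 (by linarith)
    linarith
  rw [zero_mul, Real.one_rpow, NeckFun_prim_one] at h1
  linarith

theorem NeckFun_slope_diff {r q y a : ℝ} (hr0 : 0 < r) (hq : 0 < q) (hq1 : q < 1 / 10)
    (ha0 : 0 ≤ a) (hy1 : y ≤ 1) (h4 : 1 - 2 * q ^ 2 ≤ y) :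
    (1 - a) * (r * ((1 + q) - (1 - q) * y)) ≤ 3 * q * r := by
  have h5 : (1 + q) - (1 - q) * y ≤ 3 * q := by
    have h9 : (1 - q) * (1 - 2 * q ^ 2) ≤ (1 - q) * y :=
      mul_le_mul_of_nonneg_left h4 (by linarith)
    have h10 : (1 - q) * (1 - 2 * q ^ 2) = 1 - q - 2 * (q * q) + 2 * (q * q * q) := by ring
    have h11 : q * q ≤ q * (1 / 10) := mul_le_mul_of_nonneg_left hq1.le hq.le
    have h12 : 0 < q * q * q := mul_pos (mul_pos hq hq) hq
    rw [h10] at h9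
    linarith
  have h6 : 0 ≤ (1 + q) - (1 - q) * y := by
    have h9 : (1 - q) * y ≤ (1 - q) * 1 := mul_le_mul_of_nonneg_left hy1 (by linarith)
    linarith
  calc (1 - a) * (r * ((1 + q) - (1 - q) * y)) ≤ 1 * (r * ((1 + q) - (1 - q) * y)) :=
        mul_le_mul_of_nonneg_right (by linarith) (mul_nonneg hr0.le h6)
    _ = r * ((1 + q) - (1 - q) * y) := one_mul _
    _ ≤ r * (3 * q) := mul_le_mul_of_nonneg_left h5 hr0.le
    _ = 3 * q * r := by ring

theorem NeckFun_up_first {r e q T : ℝ} (hr0 : 0 < r) (hq : 0 < q) (hq1 : q < 1 / 10)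
    (hT2 : 2 < T) {s : ℝ} (hs : s ∈ Set.Icc 1 (1 + 2 * q)) :
    NeckFun_prim r (NeckFun_dl r e q T) s - r * s ^ (1 - q) ≤ 6 * q ^ 2 * r := by
  have h1 := NeckFun_mv_le (C := 3 * q * r) hs.1
    (fun x hx => NeckFun_hasDerivAt_diff (r := r) (e := e) (q := q) (T := T) hx.1) fun x hx => by
    have hth := NeckFun_th_mem q x
    have hx1 : x ^ (-q) ≤ 1 := Real.rpow_le_one_of_one_le_of_nonpos hx.1 (by linarith)
    have hx0 : 0 < x := lt_of_lt_of_le one_pos hx.1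
    have hxq : x ≤ 1 + 2 * q := hx.2.trans hs.2
    have h2 : 1 - q * log x ≤ x ^ (-q) := NeckFun_one_sub_le_rpow hx0
    have h3 : log x ≤ 2 * q := by
      have := Real.log_le_sub_one_of_pos hx0
      linarith
    have h4 : 1 - 2 * q ^ 2 ≤ x ^ (-q) := by
      have h5 : q * log x ≤ q * (2 * q) := mul_le_mul_of_nonneg_left h3 hq.le
      have h6 : q * (2 * q) = 2 * q ^ 2 := by ring
      rw [h6] at h5
      linarith
    unfold NeckFun_dl
    rw [NeckFun_th2_zero hq (by linarith), NeckFun_kap_eq (by linarith [hx.1])]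
    have h8 := NeckFun_slope_diff hr0 hq hq1 hth.1 hx1 h4
    refine le_of_eq_of_le ?_ h8
    ring
  rw [Real.one_rpow, NeckFun_prim_one] at h1
  have h2 : 3 * q * r * (s - 1) ≤ 3 * q * r * (2 * q) :=
    mul_le_mul_of_nonneg_left (by linarith [hs.2]) (by positivity)
  have h3 : 3 * q * r * (2 * q) = 6 * q ^ 2 * r := by ring
  rw [h3] at h2
  linarith

theorem NeckFun_up {r e q T : ℝ} (hr0 : 0 < r) (hq : 0 < q) (hq1 : q < 1 / 10)
    (hT2 : 2 < T) (hend : ∀ s ∈ Set.Icc 1 (T + q), e ≤ (1 - q) * r * s ^ (-q)) {s : ℝ}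
    (hs : s ∈ Set.Icc 1 (T + q)) :
    NeckFun_prim r (NeckFun_dl r e q T) s - r * s ^ (1 - q) ≤ 6 * q ^ 2 * r := by
  rcases le_total s (1 + 2 * q) with h | h
  · exact NeckFun_up_first hr0 hq hq1 hT2 ⟨hs.1, h⟩
  · have h1q : (1 : ℝ) ≤ 1 + 2 * q := by linarith
    have h1 := NeckFun_mv_le (C := 0) h
      (fun x hx => NeckFun_hasDerivAt_diff (r := r) (e := e) (q := q) (T := T)
        (h1q.trans hx.1)) fun x hx => by
      have hx1 : 1 ≤ x := h1q.trans hx.1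
      have hth2 := NeckFun_th2_mem q T x
      have he1 := hend x ⟨hx1, hx.2.trans hs.2⟩
      unfold NeckFun_dl
      rw [NeckFun_th_one hq hx.1, NeckFun_kap_eq (by linarith)]
      generalize x ^ (-q) = y at he1 ⊢
      generalize NeckFun_th2 q T x = b at hth2 ⊢
      have h3 : (1 - b) * ((1 - 1) * ((1 + q) * r) + 1 * ((1 - q) * r * y)) + b * e -
          r * ((1 - q) * y) = b * (e - (1 - q) * r * y) := by ring
      rw [h3]
      exact mul_nonpos_of_nonneg_of_nonpos hth2.1 (by linarith)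
    have h2 := NeckFun_up_first (e := e) hr0 hq hq1 hT2 (s := 1 + 2 * q) ⟨h1q, le_rfl⟩
    rw [zero_mul] at h1
    linarith

theorem NeckFun_up_mul {r q l y : ℝ} (hr0 : 0 < r) (hy : 1 ≤ y)
    (h1 : l - r * y ≤ 6 * q ^ 2 * r) : l ≤ r * y * (1 + 12 * q ^ 2) := by
  have h5 : 0 ≤ r * q ^ 2 := mul_nonneg hr0.le (sq_nonneg q)
  have h4 : r * q ^ 2 * 1 ≤ r * q ^ 2 * y := mul_le_mul_of_nonneg_left hy h5
  have h6 : r * y * (1 + 12 * q ^ 2) = r * y + 12 * (r * q ^ 2 * y) := by ring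
  have h7 : 6 * q ^ 2 * r = 6 * (r * q ^ 2) := by ring
  rw [h6]
  rw [h7] at h1
  linarith

theorem NeckFun_dl_nonneg {r e q T x : ℝ} (hr0 : 0 < r) (he0 : 0 < e) (hq : 0 < q)
    (hq1 : q < 1 / 10) : 0 ≤ NeckFun_dl r e q T x := by
  have hth := NeckFun_th_mem q x
  have hth2 := NeckFun_th2_mem q T x
  have hk : 0 < NeckFun_kap x ^ (-q) := Real.rpow_pos_of_pos (NeckFun_kap_pos x) _
  unfold NeckFun_dl
  have h1 : 0 ≤ (1 - NeckFun_th q x) * ((1 + q) * r) :=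
    mul_nonneg (sub_nonneg.2 hth.2) (mul_nonneg (by linarith) hr0.le)
  have h2 : 0 ≤ NeckFun_th q x * ((1 - q) * r * NeckFun_kap x ^ (-q)) :=
    mul_nonneg hth.1 (mul_nonneg (mul_nonneg (by linarith) hr0.le) hk.le)
  exact add_nonneg (mul_nonneg (sub_nonneg.2 hth2.2) (add_nonneg h1 h2))
    (mul_nonneg hth2.1 he0.le)

theorem NeckFun_low_second {r e q T : ℝ} (hr0 : 0 < r) (he0 : 0 < e) (hq : 0 < q)
    (hq1 : q < 1 / 10) (hT2 : 2 < T) {s : ℝ} (hs : s ∈ Set.Icc T (T + q)) :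
    r * s ^ (1 - q) * (1 - q) ≤ NeckFun_prim r (NeckFun_dl r e q T) s := by
  have h1 := NeckFun_low (e := e) (T := T) hr0 hq hq1 (s := T) ⟨by linarith, le_rfl⟩
  have h2 := NeckFun_mv_ge (C := 0) hs.1
    (fun x _ => NeckFun_prim_hasDerivAt r (NeckFun_dl_contDiff r e q T) x)
    fun x _ => NeckFun_dl_nonneg hr0 he0 hq hq1
  rw [zero_mul] at h2
  have hT0 : 0 < T := by linarith
  have hsT : s ≤ T * (1 + q) := by
    have h4 : 1 * q ≤ T * q := mul_le_mul_of_nonneg_right (by linarith) hq.le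
    have h5 := hs.2
    linarith
  have h3 : s ^ (1 - q) ≤ (T * (1 + q)) ^ (1 - q) :=
    Real.rpow_le_rpow (by linarith [hs.1]) hsT (by linarith)
  rw [Real.mul_rpow hT0.le (by linarith)] at h3
  have h4 : (1 + q) ^ (1 - q) ≤ 1 + q := by
    calc (1 + q) ^ (1 - q) ≤ (1 + q) ^ (1 : ℝ) :=
          Real.rpow_le_rpow_of_exponent_le (by linarith) (by linarith)
      _ = 1 + q := Real.rpow_one _
  have h5 : 0 < T ^ (1 - q) := Real.rpow_pos_of_pos hT0 _
  have h6 : s ^ (1 - q) ≤ T ^ (1 - q) * (1 + q) :=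
    h3.trans (mul_le_mul_of_nonneg_left h4 h5.le)
  generalize s ^ (1 - q) = y at h6 ⊢
  generalize T ^ (1 - q) = w at h1 h5 h6
  have h7 : y * (1 - q) ≤ w := by
    have a1 : y * (1 - q) ≤ w * (1 + q) * (1 - q) :=
      mul_le_mul_of_nonneg_right h6 (by linarith)
    have a2 : w * (1 + q) * (1 - q) = w - q * q * w := by ring
    have a3 := mul_pos (mul_pos hq hq) h5
    rw [a2] at a1
    linarith
  have h8 : r * (y * (1 - q)) ≤ r * w := mul_le_mul_of_nonneg_left h7 hr0.le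
  rw [mul_assoc]
  linarith

theorem NeckFun_phase1 {Rp Li q T mh r e l0 : ℝ} (hmh : mh = l0) (hr : r = √Li * Rp ^ (1 / 3 : ℝ))
    (hr0 : 0 < r) (hq : 0 < q) (hq1 : q < 1 / 10) {s : ℝ} (hs : s ∈ Set.Icc 1 T)
    (hup : NeckFun_prim r (NeckFun_dl r e q T) s ≤ r * s ^ (1 - q) * (1 + 12 * q ^ 2)) :
    ∃ θ θ' : ℝ, 0 ≤ θ ∧ θ ≤ 1 ∧ 0 ≤ θ' ∧
    (s ≤ 1 + 2 * q ∨ (θ = 1 ∧ θ' = 0)) ∧
    deriv (NeckFun_prim r (NeckFun_dl r e q T)) s =
      √Li * Rp ^ (1 / 3 : ℝ) * ((1 - θ) * (1 + q) + θ * (1 - q) * s ^ (-q)) ∧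
    deriv (deriv (NeckFun_prim r (NeckFun_dl r e q T))) s = -(√Li * Rp ^ (1 / 3 : ℝ)) *
      (θ' * ((1 + q) - (1 - q) * s ^ (-q)) + θ * q * (1 - q) * s ^ (-q) / s) ∧
    deriv (NeckFun_prim 0 (NeckFun_dm mh q T)) s = θ * l0 / s ∧
    deriv (deriv (NeckFun_prim 0 (NeckFun_dm mh q T))) s = (θ' - θ / s) * l0 / s ∧
    √Li * Rp ^ (1 / 3 : ℝ) * s ^ (1 - q) ≤ NeckFun_prim r (NeckFun_dl r e q T) s ∧
    NeckFun_prim r (NeckFun_dl r e q T) s ≤
      √Li * Rp ^ (1 / 3 : ℝ) * s ^ (1 - q) * (1 + 12 * q ^ 2) := by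
  have hs0 : s ≠ 0 := (lt_of_lt_of_le one_pos hs.1).ne'
  have hl' := NeckFun_prim_deriv r (NeckFun_dl_contDiff r e q T)
  have hm' := NeckFun_prim_deriv 0 (NeckFun_dm_contDiff mh q T)
  rw [← hmh, ← hr]
  refine ⟨NeckFun_th q s, deriv (NeckFun_th q) s, (NeckFun_th_mem q s).1,
    (NeckFun_th_mem q s).2, NeckFun_th_deriv_nonneg hq s, ?_, ?_, ?_, ?_, ?_,
    NeckFun_low hr0 hq hq1 hs, hup⟩
  · rcases le_total s (1 + 2 * q) with h | h
    · exact Or.inl h
    · exact Or.inr ⟨NeckFun_th_one hq h, NeckFun_th_deriv_one hq h⟩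
  · rw [hl']
    unfold NeckFun_dl
    rw [NeckFun_th2_zero hq hs.2, NeckFun_kap_eq (by linarith [hs.1])]
    ring
  · rw [hl', (NeckFun_dl_hasDerivAt r e q T hs.1).deriv, NeckFun_th2_zero hq hs.2,
      NeckFun_th2_deriv_zero hq hs.2]
    ring
  · rw [hm']
    unfold NeckFun_dm
    rw [NeckFun_th2_zero hq hs.2, NeckFun_kap_eq (by linarith [hs.1])]
    ring
  · rw [hm', (NeckFun_dm_hasDerivAt mh q T hs.1).deriv, NeckFun_th2_zero hq hs.2,
      NeckFun_th2_deriv_zero hq hs.2]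
    ring

theorem NeckFun_phase2 {Rp Li q T mh r e l0 : ℝ} (hmh : mh = l0) (hr : r = √Li * Rp ^ (1 / 3 : ℝ))
    (he : e = Li * Rp)
    (hr0 : 0 < r) (he0 : 0 < e) (hq : 0 < q) (hq1 : q < 1 / 10) (hT2 : 2 < T) {s : ℝ}
    (hs : s ∈ Set.Icc T (T + q))
    (hup : NeckFun_prim r (NeckFun_dl r e q T) s ≤ r * s ^ (1 - q) * (1 + 12 * q ^ 2)) :
    ∃ θ θ' : ℝ, 0 ≤ θ ∧ θ ≤ 1 ∧ 0 ≤ θ' ∧
    deriv (NeckFun_prim r (NeckFun_dl r e q T)) s =
      (1 - θ) * (√Li * Rp ^ (1 / 3 : ℝ) * (1 - q) * s ^ (-q)) + θ * (Li * Rp) ∧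
    deriv (deriv (NeckFun_prim r (NeckFun_dl r e q T))) s =
      -θ' * (√Li * Rp ^ (1 / 3 : ℝ) * (1 - q) * s ^ (-q) - Li * Rp) -
      (1 - θ) * (√Li * Rp ^ (1 / 3 : ℝ) * q * (1 - q) * s ^ (-q) / s) ∧
    deriv (NeckFun_prim 0 (NeckFun_dm mh q T)) s = (1 - θ) * l0 / s ∧
    deriv (deriv (NeckFun_prim 0 (NeckFun_dm mh q T))) s = -(θ' + (1 - θ) / s) * l0 / s ∧
    √Li * Rp ^ (1 / 3 : ℝ) * s ^ (1 - q) * (1 - q) ≤ NeckFun_prim r (NeckFun_dl r e q T) s ∧
    NeckFun_prim r (NeckFun_dl r e q T) s ≤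
      √Li * Rp ^ (1 / 3 : ℝ) * s ^ (1 - q) * (1 + 12 * q ^ 2) := by
  have hs1 : 1 ≤ s := by linarith [hs.1]
  have hs2 : 1 + 2 * q ≤ s := by linarith [hs.1]
  have hs0 : s ≠ 0 := (lt_of_lt_of_le one_pos hs1).ne'
  have hl' := NeckFun_prim_deriv r (NeckFun_dl_contDiff r e q T)
  have hm' := NeckFun_prim_deriv 0 (NeckFun_dm_contDiff mh q T)
  rw [← hmh, ← hr, ← he]
  refine ⟨NeckFun_th2 q T s, deriv (NeckFun_th2 q T) s, (NeckFun_th2_mem q T s).1,
    (NeckFun_th2_mem q T s).2, NeckFun_th2_deriv_nonneg hq T s, ?_, ?_, ?_, ?_,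
    NeckFun_low_second hr0 he0 hq hq1 hT2 hs, hup⟩
  · rw [hl']
    unfold NeckFun_dl
    rw [NeckFun_th_one hq hs2, NeckFun_kap_eq (by linarith)]
    ring
  · rw [hl', (NeckFun_dl_hasDerivAt r e q T hs1).deriv, NeckFun_th_one hq hs2,
      NeckFun_th_deriv_one hq hs2]
    ring
  · rw [hm']
    unfold NeckFun_dm
    rw [NeckFun_th_one hq hs2, NeckFun_kap_eq (by linarith)]
    ring
  · rw [hm', (NeckFun_dm_hasDerivAt mh q T hs1).deriv, NeckFun_th_one hq hs2,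
      NeckFun_th_deriv_one hq hs2]
    ring

theorem NeckFun_two_lt_log {Rp : ℝ} (hRp : 0 < Rp) (hRp' : Rp < 1 / 8) :
    2 < log (1 / Rp) := by
  have h8 : log 8 < log (1 / Rp) := by
    apply Real.log_lt_log (by norm_num)
    rw [lt_div_iff₀ hRp]
    linarith
  have h9 : log 8 = 3 * log 2 := by
    rw [show (8 : ℝ) = 2 ^ 3 by norm_num, Real.log_pow]
    norm_num
  have := Real.log_two_gt_d9
  linarith

theorem NeckFun_mh_small {q L : ℝ} (hq : 0 < q) (hq1 : q < 1 / 10) (hL2 : 2 < L) :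
    3 * q / (2 * L) * (1 + q) < 1 := by
  rw [div_mul_eq_mul_div, div_lt_one (by linarith)]
  have h1 : q * q < q * (1 / 10) := mul_lt_mul_of_pos_left hq1 hq
  have h2 : 3 * q * (1 + q) = 3 * q + 3 * (q * q) := by ring
  rw [h2]
  linarith

theorem NeckFun_rp_m {Rp L q mh T : ℝ} (hRp : 0 < Rp) (hLlog : log Rp = -L) (hL0 : 0 < L)
    (hmh : 0 ≤ mh) (hmhL : mh * (2 * L) = 3 * q) {s : ℝ} (hs : 1 ≤ s) :
    s ^ (-3 * q) ≤ Rp ^ (2 * NeckFun_prim 0 (NeckFun_dm mh q T) s) := by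
  have hs0 : 0 < s := lt_of_lt_of_le one_pos hs
  have h1 := NeckFun_m_le_log (q := q) (T := T) hmh hs
  rw [Real.rpow_def_of_pos hs0, Real.rpow_def_of_pos hRp, hLlog]
  apply Real.exp_le_exp.2
  generalize NeckFun_prim 0 (NeckFun_dm mh q T) s = a at h1 ⊢
  generalize log s = b at h1 ⊢
  have h2 : 2 * L * a ≤ 2 * L * (mh * b) :=
    mul_le_mul_of_nonneg_left h1 (by linarith)
  have h3 : 2 * L * (mh * b) = 3 * q * b := by
    rw [← hmhL]; ring
  linarith

theorem exists_neckFun {Rp Li : ℝ} (hRp : 0 < Rp) (hRp' : Rp < 1 / 8) (hLi : 0 < Li)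
    (hLi' : Li < 1) : ∃ q₀ : ℝ, 0 < q₀ ∧ ∀ q : ℝ, 0 < q → q < q₀ →
      ∃ (T : ℝ) (l m : ℝ → ℝ), NeckFun Rp Li q T l m := by
  have hsq : √Li < 1 := by
    rw [Real.sqrt_lt' one_pos]
    linarith
  have hsq0 : 0 < √Li := Real.sqrt_pos.2 hLi
  refine ⟨min (1 / 10) ((1 - √Li) / 5), lt_min (by norm_num) (by linarith), ?_⟩
  intro q hq hq0
  have hq1 : q < 1 / 10 := hq0.trans_le (min_le_left _ _)
  have hq2 : q < (1 - √Li) / 5 := hq0.trans_le (min_le_right _ _)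
  clear hq0 hsq
  have hL2 : 2 < log (1 / Rp) := NeckFun_two_lt_log hRp hRp'
  have hLlog : log Rp = -log (1 / Rp) := by
    rw [Real.log_div one_ne_zero hRp.ne', Real.log_one, zero_sub, neg_neg]
  have hL0 : 0 < log (1 / Rp) := two_pos.trans hL2
  obtain ⟨mh, hmhdef⟩ : ∃ mh, mh = 3 * q / (2 * log (1 / Rp)) := ⟨_, rfl⟩
  have hmh : 0 < mh := by
    rw [hmhdef]
    exact div_pos (mul_pos three_pos hq) (mul_pos two_pos hL0)
  have hmhL : mh * (2 * log (1 / Rp)) = 3 * q := by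
    rw [hmhdef]
    exact div_mul_cancel₀ _ (mul_pos two_pos hL0).ne'
  have hmh1 : mh * (1 + q) < 1 := by
    rw [hmhdef]
    exact NeckFun_mh_small hq hq1 hL2
  obtain ⟨T, hT2, hT⟩ := NeckFun_exists_T hq (hq1.trans (by norm_num)) hmh hmh1
  obtain ⟨r, hr⟩ : ∃ r, r = √Li * Rp ^ (1 / 3 : ℝ) := ⟨_, rfl⟩
  have hr0 : 0 < r := by
    rw [hr]
    exact mul_pos hsq0 (Real.rpow_pos_of_pos hRp _)
  obtain ⟨e, he⟩ : ∃ e, e = Li * Rp := ⟨_, rfl⟩
  have he0 : 0 < e := by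
    rw [he]
    exact mul_pos hLi hRp
  have hmmono : Monotone (NeckFun_prim 0 (NeckFun_dm mh q T)) := NeckFun_m_mono hmh.le 0
  have hmle : ∀ s, NeckFun_prim 0 (NeckFun_dm mh q T) s ≤ 1 := by
    intro s
    calc NeckFun_prim 0 (NeckFun_dm mh q T) s ≤
          NeckFun_prim 0 (NeckFun_dm mh q T) (max s (T + q)) := hmmono (le_max_left _ _)
      _ = 1 := hT _ (le_max_right _ _)
  have hRp23 : Rp ^ (2 / 3 : ℝ) = exp (-(2 * log (1 / Rp) / 3)) := by
    rw [Real.rpow_def_of_pos hRp, hLlog]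
    congr 1
    ring
  have hlogT := NeckFun_logT hq hq1 hL0 hmh hmhL hT2 (hmle T)
  have hkey : ∀ s ∈ Set.Icc 1 (T + q), Rp ^ (2 / 3 : ℝ) * (1 - 4 * q) ≤ s ^ (-q) :=
    fun s hs => NeckFun_key hq hq1 hT2 hRp23 hlogT hs
  have hend : ∀ s ∈ Set.Icc 1 (T + q), e ≤ (1 - q) * r * s ^ (-q) := by
    intro s hs
    rw [he, hr]
    exact NeckFun_end hRp hLi hq hq1 hq2 (hkey s hs)
  have hup' : ∀ s ∈ Set.Icc 1 (T + q), NeckFun_prim r (NeckFun_dl r e q T) s ≤
      r * s ^ (1 - q) * (1 + 12 * q ^ 2) := fun s hs =>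
    NeckFun_up_mul hr0 (Real.one_le_rpow hs.1 (by linarith))
      (NeckFun_up hr0 hq hq1 hT2 hend hs)
  refine ⟨T, NeckFun_prim r (NeckFun_dl r e q T), NeckFun_prim 0 (NeckFun_dm mh q T), ?_⟩
  exact
    { T_gt := hT2
      smooth_l := NeckFun_prim_contDiff r (NeckFun_dl_contDiff r e q T)
      smooth_m := NeckFun_prim_contDiff 0 (NeckFun_dm_contDiff mh q T)
      start_l := by
        intro s hs
        rw [← hr]
        exact NeckFun_start_l hq hq1 hT2 hs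
      start_m := fun s hs => NeckFun_start_m hq hs
      end_l := by
        intro s hs
        rw [NeckFun_prim_deriv r (NeckFun_dl_contDiff r e q T), ← he]
        unfold NeckFun_dl
        rw [NeckFun_th2_one hq hs, sub_self, zero_mul, zero_add, one_mul]
      end_m := hT
      m_mem := by
        intro s
        refine ⟨?_, hmle s⟩
        rcases le_total s 1 with h | h
        · rw [NeckFun_start_m hq (h.trans (le_add_of_nonneg_right hq.le))]
        · have h0 := hmmono h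
          rwa [NeckFun_prim_one] at h0
      phase1 := fun s hs => NeckFun_phase1 hmhdef hr hr0 hq hq1 hs
        (hup' s ⟨hs.1, hs.2.trans (le_add_of_nonneg_right hq.le)⟩)
      phase2 := fun s hs => NeckFun_phase2 hmhdef hr he hr0 he0 hq hq1 hT2 hs
        (hup' s ⟨le_trans (by linarith) hs.1, hs.2⟩)
      rp_m := fun s hs => NeckFun_rp_m hRp hLlog hL0 hmh.le hmhL hs.1
      key := hkey }

end Pool.Agent.W_MP_654ec6
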