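import Pool.Agent.W_MP_654ec6.A.Defs

/-!
# The neck metric on `ℝ⁴ \ 0`

`neckZ l m H` is the metric `dt² + l(t)² (e^{2 m(t) η(x)} dx² + cos² x dσ²)` in the coordinates
`u = t (sin x, cos x ξ)` of `ℝ⁴`, `t = |u|`, `η(x) = cos² x H(sin x)`; with `z = sin x = u₀/|u|` it is
`dt² + l(t)² (g_{S³} + β dz²)`, `β = (e^{2 m (1 - z²) H(z)} - 1)/(1 - z²)`.
-/

open scoped ContDiff Topology
open Filter Set Real

namespace Pool.Agent.W_MP_654ec6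

/-! ## The function `(e^w - 1)/w` -/

/-- `(e^w - 1)/w`. -/
noncomputable def expSlope : ℝ → ℝ := dslope Real.exp 0

theorem exp_eq_expSlope (w : ℝ) : Real.exp w = 1 + w * expSlope w := by
  have h := sub_smul_dslope Real.exp 0 w
  rw [Real.exp_zero, sub_zero, smul_eq_mul] at h
  unfold expSlope
  linarith

theorem contDiff_expSlope : ContDiff ℝ ∞ expSlope := by
  unfold expSlope
  rw [contDiff_iff_contDiffAt]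
  intro y
  rcases eq_or_ne y 0 with h | h
  · rw [h]
    have ha : AnalyticAt ℝ Real.exp 0 := analyticAt_rexp
    obtain ⟨p, hp⟩ := ha
    exact hp.has_fpower_series_dslope_fslope.analyticAt.contDiffAt
  · have h1 : dslope Real.exp 0 =ᶠ[𝓝 y] fun z => (Real.exp z - Real.exp 0) / (z - 0) := by
      filter_upwards [isOpen_ne.mem_nhds h] with z hz
      rw [dslope_of_ne _ hz, slope_def_field]
    refine ContDiffAt.congr_of_eventuallyEq ?_ h1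
    exact (Real.contDiff_exp.contDiffAt.sub contDiffAt_const).div
      (contDiffAt_id.sub contDiffAt_const) (by simpa using h)

/-- `β = (e^{2 μ (1 - z²) H} - 1)/(1 - z²)`. -/
noncomputable def nBeta (μ Hz z : ℝ) : ℝ :=
  2 * μ * Hz * expSlope (2 * μ * ((1 - z ^ 2) * Hz))

theorem nBeta_mul (μ Hz z : ℝ) :
    (1 - z ^ 2) * nBeta μ Hz z = Real.exp (2 * μ * ((1 - z ^ 2) * Hz)) - 1 := by
  rw [exp_eq_expSlope]
  unfold nBeta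
  ring

theorem nBeta_zero (Hz z : ℝ) : nBeta 0 Hz z = 0 := by
  unfold nBeta
  ring

/-! ## The metric -/

/-- The coefficients of `dz`, `z = u₀/|u|`. -/
noncomputable def zForm (u : E4) (i : Fin 4) : ℝ :=
  (if i = 0 then 1 else 0) / ‖u‖ - u 0 * u i / ‖u‖ ^ 3

/-- The neck metric on `ℝ⁴`. -/
noncomputable def neckZ (l m H : ℝ → ℝ) : Met := fun u => Matrix.of fun i j =>
  (l ‖u‖ / ‖u‖) ^ 2 * (if i = j then 1 else 0) +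
    (1 - (l ‖u‖ / ‖u‖) ^ 2) * (u i * u j / ‖u‖ ^ 2) +
    l ‖u‖ ^ 2 * nBeta (m ‖u‖) (H (u 0 / ‖u‖)) (u 0 / ‖u‖) * (zForm u i * zForm u j)

theorem norm_sq_E4 (u : E4) : ‖u‖ ^ 2 = u 0 ^ 2 + u 1 ^ 2 + u 2 ^ 2 + u 3 ^ 2 := by
  rw [EuclideanSpace.norm_sq_eq]
  simp only [Fin.sum_univ_four, Real.norm_eq_abs, sq_abs]

/-- A quadratic form `q |v|² + p (a·v)²/s + b (z·v)²`. -/
theorem qf_aux (q p s b : ℝ) (a z v : Fin 4 → ℝ) :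
    (∑ i, ∑ j, (q * (if i = j then 1 else 0) + p * (a i * a j / s) + b * (z i * z j)) *
      v i * v j) =
      q * (v 0 ^ 2 + v 1 ^ 2 + v 2 ^ 2 + v 3 ^ 2) +
      p * ((a 0 * v 0 + a 1 * v 1 + a 2 * v 2 + a 3 * v 3) ^ 2 / s) +
      b * (z 0 * v 0 + z 1 * v 1 + z 2 * v 2 + z 3 * v 3) ^ 2 := by
  have h1 : ∀ i j : Fin 4,
      (q * (if i = j then 1 else 0) + p * (a i * a j / s) + b * (z i * z j)) * v i * v j =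
      (if i = j then q * (v i * v j) else 0) + p / s * ((a i * v i) * (a j * v j)) +
        b * ((z i * v i) * (z j * v j)) := by
    intro i j
    split_ifs <;> ring
  simp only [h1, Finset.sum_add_distrib, ← Finset.mul_sum, ← Finset.sum_mul, Finset.sum_ite_eq,
    Finset.mem_univ, if_true, Fin.sum_univ_four]
  ring

theorem qf_neckZ (l m H : ℝ → ℝ) (u v : E4) :
    qf (neckZ l m H u) v =
      (l ‖u‖ / ‖u‖) ^ 2 * (v 0 ^ 2 + v 1 ^ 2 + v 2 ^ 2 + v 3 ^ 2) +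
      (1 - (l ‖u‖ / ‖u‖) ^ 2) *
        ((u 0 * v 0 + u 1 * v 1 + u 2 * v 2 + u 3 * v 3) ^ 2 / ‖u‖ ^ 2) +
      l ‖u‖ ^ 2 * nBeta (m ‖u‖) (H (u 0 / ‖u‖)) (u 0 / ‖u‖) *
        (v 0 / ‖u‖ - u 0 * (u 0 * v 0 + u 1 * v 1 + u 2 * v 2 + u 3 * v 3) / ‖u‖ ^ 3) ^ 2 := by
  have h := qf_aux ((l ‖u‖ / ‖u‖) ^ 2) (1 - (l ‖u‖ / ‖u‖) ^ 2) (‖u‖ ^ 2)
    (l ‖u‖ ^ 2 * nBeta (m ‖u‖) (H (u 0 / ‖u‖)) (u 0 / ‖u‖)) (fun i => u i) (zForm u)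
    (fun i => v i)
  have hz : zForm u 0 * v 0 + zForm u 1 * v 1 + zForm u 2 * v 2 + zForm u 3 * v 3 =
      v 0 / ‖u‖ - u 0 * (u 0 * v 0 + u 1 * v 1 + u 2 * v 2 + u 3 * v 3) / ‖u‖ ^ 3 := by
    have h0 : zForm u 0 = 1 / ‖u‖ - u 0 * u 0 / ‖u‖ ^ 3 := by
      simp only [zForm, if_true]
    have h1 : zForm u 1 = 0 / ‖u‖ - u 0 * u 1 / ‖u‖ ^ 3 := by
      simp only [zForm, show ((1 : Fin 4) = 0) = False by decide, if_false]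
    have h2 : zForm u 2 = 0 / ‖u‖ - u 0 * u 2 / ‖u‖ ^ 3 := by
      simp only [zForm, show ((2 : Fin 4) = 0) = False by decide, if_false]
    have h3 : zForm u 3 = 0 / ‖u‖ - u 0 * u 3 / ‖u‖ ^ 3 := by
      simp only [zForm, show ((3 : Fin 4) = 0) = False by decide, if_false]
    rw [h0, h1, h2, h3]
    ring
  rw [← hz]
  exact h

theorem contDiffAt_coord (i : Fin 4) (u : E4) : ContDiffAt ℝ ∞ (fun u : E4 => u i) u :=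
  (EuclideanSpace.proj i : E4 →L[ℝ] ℝ).contDiff.contDiffAt

theorem contDiffAt_nrm {u : E4} (hu : u ≠ 0) : ContDiffAt ℝ ∞ (fun u : E4 => ‖u‖) u :=
  contDiffAt_norm ℝ hu

theorem contDiffAt_zForm {u : E4} (hu : u ≠ 0) (i : Fin 4) :
    ContDiffAt ℝ ∞ (fun u : E4 => zForm u i) u := by
  have h0 : ‖u‖ ≠ 0 := norm_ne_zero_iff.2 hu
  unfold zForm
  exact (contDiffAt_const.div (contDiffAt_nrm hu) h0).sub
    (((contDiffAt_coord 0 u).mul (contDiffAt_coord i u)).div ((contDiffAt_nrm hu).pow 3)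
      (pow_ne_zero 3 h0))

theorem contDiffAt_nBeta {f g h : E4 → ℝ} {u : E4} (hf : ContDiffAt ℝ ∞ f u)
    (hg : ContDiffAt ℝ ∞ g u) (hh : ContDiffAt ℝ ∞ h u) :
    ContDiffAt ℝ ∞ (fun u => nBeta (f u) (g u) (h u)) u :=
  ((contDiffAt_const.mul hf).mul hg).mul (contDiff_expSlope.contDiffAt.comp u
    ((contDiffAt_const.mul hf).mul ((contDiffAt_const.sub (hh.pow 2)).mul hg)))

theorem contDiffAt_neckZ {l m H : ℝ → ℝ} {u : E4} (hu : u ≠ 0) (hl : ContDiffAt ℝ ∞ l ‖u‖)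
    (hm : ContDiffAt ℝ ∞ m ‖u‖) (hH : ContDiff ℝ ∞ H) (i j : Fin 4) :
    ContDiffAt ℝ ∞ (fun u => neckZ l m H u i j) u := by
  have h0 : ‖u‖ ≠ 0 := norm_ne_zero_iff.2 hu
  have hn := contDiffAt_nrm hu
  have hl' : ContDiffAt ℝ ∞ (fun u : E4 => l ‖u‖) u := hl.comp u hn
  have hm' : ContDiffAt ℝ ∞ (fun u : E4 => m ‖u‖) u := hm.comp u hn
  have hz : ContDiffAt ℝ ∞ (fun u : E4 => u 0 / ‖u‖) u := (contDiffAt_coord 0 u).div hn h0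
  have hH' : ContDiffAt ℝ ∞ (fun u : E4 => H (u 0 / ‖u‖)) u := hH.contDiffAt.comp u hz
  have hq : ContDiffAt ℝ ∞ (fun u : E4 => (l ‖u‖ / ‖u‖) ^ 2) u := (hl'.div hn h0).pow 2
  have hb : ContDiffAt ℝ ∞ (fun u : E4 => nBeta (m ‖u‖) (H (u 0 / ‖u‖)) (u 0 / ‖u‖)) u :=
    contDiffAt_nBeta hm' hH' hz
  unfold neckZ
  simp only [Matrix.of_apply]
  exact ((hq.mul contDiffAt_const).add ((contDiffAt_const.sub hq).mul
    (((contDiffAt_coord i u).mul (contDiffAt_coord j u)).div (hn.pow 2) (pow_ne_zero 2 h0)))).add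
    (((hl'.pow 2).mul hb).mul ((contDiffAt_zForm hu i).mul (contDiffAt_zForm hu j)))

/-- The identity behind `|∇z|² = (1 - z²)/t²`. -/
theorem zForm_cs (u0 u1 u2 u3 v0 v1 v2 v3 : ℝ) :
    (v0 * (u0 ^ 2 + u1 ^ 2 + u2 ^ 2 + u3 ^ 2) -
      u0 * (u0 * v0 + u1 * v1 + u2 * v2 + u3 * v3)) ^ 2 ≤
    (u1 ^ 2 + u2 ^ 2 + u3 ^ 2) * ((u0 ^ 2 + u1 ^ 2 + u2 ^ 2 + u3 ^ 2) *
      (v0 ^ 2 + v1 ^ 2 + v2 ^ 2 + v3 ^ 2) - (u0 * v0 + u1 * v1 + u2 * v2 + u3 * v3) ^ 2) := by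
  have h : (u1 ^ 2 + u2 ^ 2 + u3 ^ 2) * ((u0 ^ 2 + u1 ^ 2 + u2 ^ 2 + u3 ^ 2) *
      (v0 ^ 2 + v1 ^ 2 + v2 ^ 2 + v3 ^ 2) - (u0 * v0 + u1 * v1 + u2 * v2 + u3 * v3) ^ 2) -
    (v0 * (u0 ^ 2 + u1 ^ 2 + u2 ^ 2 + u3 ^ 2) -
      u0 * (u0 * v0 + u1 * v1 + u2 * v2 + u3 * v3)) ^ 2 =
    (u0 ^ 2 + u1 ^ 2 + u2 ^ 2 + u3 ^ 2) * ((u1 * v2 - u2 * v1) ^ 2 + (u1 * v3 - u3 * v1) ^ 2 +
      (u2 * v3 - u3 * v2) ^ 2) := by ring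
  have h2 : 0 ≤ (u0 ^ 2 + u1 ^ 2 + u2 ^ 2 + u3 ^ 2) * ((u1 * v2 - u2 * v1) ^ 2 +
    (u1 * v3 - u3 * v1) ^ 2 + (u2 * v3 - u3 * v2) ^ 2) := by positivity
  linarith

theorem cs_four (u0 u1 u2 u3 v0 v1 v2 v3 : ℝ) :
    (u0 * v0 + u1 * v1 + u2 * v2 + u3 * v3) ^ 2 ≤
      (u0 ^ 2 + u1 ^ 2 + u2 ^ 2 + u3 ^ 2) * (v0 ^ 2 + v1 ^ 2 + v2 ^ 2 + v3 ^ 2) := by
  have h : (u0 ^ 2 + u1 ^ 2 + u2 ^ 2 + u3 ^ 2) * (v0 ^ 2 + v1 ^ 2 + v2 ^ 2 + v3 ^ 2) -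
      (u0 * v0 + u1 * v1 + u2 * v2 + u3 * v3) ^ 2 =
      (u0 * v1 - u1 * v0) ^ 2 + (u0 * v2 - u2 * v0) ^ 2 + (u0 * v3 - u3 * v0) ^ 2 +
      (u1 * v2 - u2 * v1) ^ 2 + (u1 * v3 - u3 * v1) ^ 2 + (u2 * v3 - u3 * v2) ^ 2 := by ring
  have h2 : 0 ≤ (u0 * v1 - u1 * v0) ^ 2 + (u0 * v2 - u2 * v0) ^ 2 + (u0 * v3 - u3 * v0) ^ 2 +
      (u1 * v2 - u2 * v1) ^ 2 + (u1 * v3 - u3 * v1) ^ 2 + (u2 * v3 - u3 * v2) ^ 2 := by positivity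
  rw [← h] at h2
  exact sub_nonneg.1 h2

theorem neckZ_pos_aux {L t n P b a c : ℝ} (hL : 0 < L) (ht : 0 < t) (hn : 0 < n)
    (hcs : (c * t ^ 2 - a * P) ^ 2 ≤ (t ^ 2 - a ^ 2) * (t ^ 2 * n - P ^ 2))
    (hcs2 : P ^ 2 ≤ t ^ 2 * n) (hexp : -1 < (1 - (a / t) ^ 2) * b) :
    0 < (L / t) ^ 2 * n + (1 - (L / t) ^ 2) * (P ^ 2 / t ^ 2) +
      L ^ 2 * b * (c / t - a * P / t ^ 3) ^ 2 := by
  have ht2 : 0 < t ^ 2 := pow_pos ht 2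
  have hD : 0 ≤ t ^ 2 * n - P ^ 2 := sub_nonneg.2 hcs2
  have hexp2 : 0 < t ^ 2 + (t ^ 2 - a ^ 2) * b := by
    have h7 : t ^ 2 * ((1 - (a / t) ^ 2) * b) = (t ^ 2 - a ^ 2) * b := by
      have h8 : t ^ 2 * (a / t) ^ 2 = a ^ 2 := by
        rw [div_pow, mul_div_cancel₀ _ ht2.ne']
      linear_combination (-b) * h8
    have h9 := mul_lt_mul_of_pos_left hexp ht2
    rw [h7] at h9
    linarith
  obtain ⟨e, he, hX⟩ : ∃ e, 0 < e ∧ e * (t ^ 2 * n - P ^ 2) ≤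
      t ^ 2 * (t ^ 2 * n - P ^ 2) + b * (c * t ^ 2 - a * P) ^ 2 := by
    rcases le_or_gt 0 b with hb | hb
    · exact ⟨t ^ 2, ht2, le_add_of_nonneg_right (mul_nonneg hb (sq_nonneg _))⟩
    · refine ⟨_, hexp2, ?_⟩
      have h9 := mul_le_mul_of_nonpos_left hcs hb.le
      have h10 : (t ^ 2 + (t ^ 2 - a ^ 2) * b) * (t ^ 2 * n - P ^ 2) =
        t ^ 2 * (t ^ 2 * n - P ^ 2) + b * ((t ^ 2 - a ^ 2) * (t ^ 2 * n - P ^ 2)) := by ring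
      rw [h10]
      exact add_le_add le_rfl h9
  have h6 : (L / t) ^ 2 * n + (1 - (L / t) ^ 2) * (P ^ 2 / t ^ 2) +
      L ^ 2 * b * (c / t - a * P / t ^ 3) ^ 2 = P ^ 2 / t ^ 2 +
      L ^ 2 / t ^ 6 * (t ^ 2 * (t ^ 2 * n - P ^ 2) + b * (c * t ^ 2 - a * P) ^ 2) := by
    field_simp
    ring
  rw [h6]
  have hc : 0 < L ^ 2 / t ^ 6 := div_pos (pow_pos hL 2) (pow_pos ht 6)
  rcases eq_or_lt_of_le hD with h9 | h9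
  · have hP2 : 0 < P ^ 2 := by
      have := mul_pos ht2 hn
      linarith
    exact add_pos_of_pos_of_nonneg (div_pos hP2 ht2)
      (mul_nonneg hc.le ((mul_nonneg he.le hD).trans hX))
  · exact add_pos_of_nonneg_of_pos (div_nonneg (sq_nonneg P) ht2.le)
      (mul_pos hc ((mul_pos he h9).trans_le hX))

theorem neckZ_pos {l m H : ℝ → ℝ} {u : E4} (hu : u ≠ 0) (hl : 0 < l ‖u‖) {v : E4} (hv : v ≠ 0) :
    0 < qf (neckZ l m H u) v := by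
  have ht : 0 < ‖u‖ := norm_pos_iff.2 hu
  have ht2 := norm_sq_E4 u
  have hv2 : 0 < v 0 ^ 2 + v 1 ^ 2 + v 2 ^ 2 + v 3 ^ 2 := by
    rw [← norm_sq_E4]
    exact pow_pos (norm_pos_iff.2 hv) 2
  have hcs := zForm_cs (u 0) (u 1) (u 2) (u 3) (v 0) (v 1) (v 2) (v 3)
  have hcs2 := cs_four (u 0) (u 1) (u 2) (u 3) (v 0) (v 1) (v 2) (v 3)
  rw [qf_neckZ]
  rw [← ht2] at hcs hcs2
  refine neckZ_pos_aux hl ht hv2 ?_ hcs2 ?_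
  · have e1 : u 1 ^ 2 + u 2 ^ 2 + u 3 ^ 2 = ‖u‖ ^ 2 - u 0 ^ 2 := by linarith
    rw [← e1]
    exact hcs
  · rw [nBeta_mul]
    have := Real.exp_pos (2 * m ‖u‖ * ((1 - (u 0 / ‖u‖) ^ 2) * H (u 0 / ‖u‖)))
    linarith

theorem goodMet_neckZ {l m H : ℝ → ℝ} {T : Set ℝ} (hT0 : ∀ t ∈ T, 0 < t)
    (hl : ∀ t ∈ T, ContDiffAt ℝ ∞ l t) (hm : ∀ t ∈ T, ContDiffAt ℝ ∞ m t)
    (hH : ContDiff ℝ ∞ H) (hlp : ∀ t ∈ T, 0 < l t) :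
    GoodMet (neckZ l m H) {u : E4 | ‖u‖ ∈ T} := by
  have hne : ∀ u : E4, ‖u‖ ∈ T → u ≠ 0 := fun u hu => norm_pos_iff.1 (hT0 _ hu)
  refine ⟨fun i j u hu => ?_, fun u _ i j => ?_, fun u hu v hv => ?_⟩
  · exact (contDiffAt_neckZ (hne u hu) (hl _ hu) (hm _ hu) hH i j).contDiffWithinAt
  · simp only [neckZ, Matrix.of_apply, eq_comm (a := i) (b := j), mul_comm (u i) (u j),
      mul_comm (zForm u i) (zForm u j)]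
  · exact neckZ_pos (hne u hu) (hlp _ hu) hv

end Pool.Agent.W_MP_654ec6
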