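import Pool.Agent.W_MP_654ec6.A.Natural
import Pool.Agent.W_MP_654ec6.D.NeckZ
import Pool.Agent.W_MP_654ec6.D.Ric

/-!
# Spherical coordinates, and the Ricci curvature of the neck metric on `ℝ⁴ \ 0`
-/

open scoped ContDiff Topology
open Filter Set Real

namespace Pool.Agent.W_MP_654ec6

/-- The map `(t, x, θ, φ) ↦ t (sin x, cos x ξ(θ, φ))`. -/
noncomputable def sph (y : E4) : E4 :=
  WithLp.toLp 2 ![y 0 * sin (y 1), y 0 * cos (y 1) * (sin (y 2) * cos (y 3)),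
    y 0 * cos (y 1) * (sin (y 2) * sin (y 3)), y 0 * cos (y 1) * cos (y 2)]

theorem sph_0 (y : E4) : sph y 0 = y 0 * sin (y 1) := rfl
theorem sph_1 (y : E4) : sph y 1 = y 0 * cos (y 1) * (sin (y 2) * cos (y 3)) := rfl
theorem sph_2 (y : E4) : sph y 2 = y 0 * cos (y 1) * (sin (y 2) * sin (y 3)) := rfl
theorem sph_3 (y : E4) : sph y 3 = y 0 * cos (y 1) * cos (y 2) := rfl

theorem contDiff_sph : ContDiff ℝ ∞ sph := by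
  have h (i : Fin 4) : ContDiff ℝ ∞ (fun y : E4 => y i) :=
    (EuclideanSpace.proj i : E4 →L[ℝ] ℝ).contDiff
  rw [contDiff_euclidean]
  intro i
  fin_cases i
  · exact (h 0).mul (h 1).sin
  · exact ((h 0).mul (h 1).cos).mul ((h 2).sin.mul (h 3).cos)
  · exact ((h 0).mul (h 1).cos).mul ((h 2).sin.mul (h 3).sin)
  · exact ((h 0).mul (h 1).cos).mul (h 2).cos

theorem norm_sph {y : E4} (hy : 0 ≤ y 0) : ‖sph y‖ = y 0 := by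
  have h1 : ‖sph y‖ ^ 2 = y 0 ^ 2 := by
    rw [norm_sq_E4, sph_0, sph_1, sph_2, sph_3]
    have e1 := sin_sq_add_cos_sq (y 1)
    have e2 := sin_sq_add_cos_sq (y 2)
    have e3 := sin_sq_add_cos_sq (y 3)
    linear_combination (y 0 ^ 2 * cos (y 1) ^ 2 * sin (y 2) ^ 2) * e3 +
      (y 0 ^ 2 * cos (y 1) ^ 2) * e2 + y 0 ^ 2 * e1
  exact (sq_eq_sq₀ (norm_nonneg _) hy).1 h1

/-- The derivative of `sph`. -/
theorem fderiv_sph (y w : E4) :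
    fderiv ℝ sph y w 0 = w 0 * sin (y 1) + y 0 * (cos (y 1) * w 1) ∧
    fderiv ℝ sph y w 1 = (w 0 * cos (y 1) - y 0 * (sin (y 1) * w 1)) * (sin (y 2) * cos (y 3)) +
      y 0 * cos (y 1) * (cos (y 2) * w 2 * cos (y 3) - sin (y 2) * (sin (y 3) * w 3)) ∧
    fderiv ℝ sph y w 2 = (w 0 * cos (y 1) - y 0 * (sin (y 1) * w 1)) * (sin (y 2) * sin (y 3)) +
      y 0 * cos (y 1) * (cos (y 2) * w 2 * sin (y 3) + sin (y 2) * (cos (y 3) * w 3)) ∧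
    fderiv ℝ sph y w 3 = (w 0 * cos (y 1) - y 0 * (sin (y 1) * w 1)) * cos (y 2) -
      y 0 * cos (y 1) * (sin (y 2) * w 2) := by
  have hd : DifferentiableAt ℝ sph y := contDiff_sph.differentiable (by simp) y
  have h (i : Fin 4) : HasFDerivAt (fun y : E4 => y i) (EuclideanSpace.proj i : E4 →L[ℝ] ℝ) y :=
    (EuclideanSpace.proj i : E4 →L[ℝ] ℝ).hasFDerivAt
  have h0 : HasFDerivAt (fun y : E4 => sph y 0) _ y := (h 0).mul (h 1).sin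
  have h1 : HasFDerivAt (fun y : E4 => sph y 1) _ y :=
    ((h 0).mul (h 1).cos).mul ((h 2).sin.mul (h 3).cos)
  have h2 : HasFDerivAt (fun y : E4 => sph y 2) _ y :=
    ((h 0).mul (h 1).cos).mul ((h 2).sin.mul (h 3).sin)
  have h3 : HasFDerivAt (fun y : E4 => sph y 3) _ y := ((h 0).mul (h 1).cos).mul (h 2).cos
  refine ⟨?_, ?_, ?_, ?_⟩
  · rw [← trans_fderiv_coord hd, h0.fderiv]
    simp
    ring
  · rw [← trans_fderiv_coord hd, h1.fderiv]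
    simp
    ring
  · rw [← trans_fderiv_coord hd, h2.fderiv]
    simp
    ring
  · rw [← trans_fderiv_coord hd, h3.fderiv]
    simp
    ring

theorem sph_inner (y w : E4) :
    sph y 0 * fderiv ℝ sph y w 0 + sph y 1 * fderiv ℝ sph y w 1 + sph y 2 * fderiv ℝ sph y w 2 +
      sph y 3 * fderiv ℝ sph y w 3 = y 0 * w 0 := by
  obtain ⟨h0, h1, h2, h3⟩ := fderiv_sph y w
  rw [h0, h1, h2, h3, sph_0, sph_1, sph_2, sph_3]
  have e1 := sin_sq_add_cos_sq (y 1)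
  have e2 := sin_sq_add_cos_sq (y 2)
  have e3 := sin_sq_add_cos_sq (y 3)
  obtain ⟨s1, hs1⟩ : ∃ s, s = sin (y 1) := ⟨_, rfl⟩
  obtain ⟨c1, hc1⟩ : ∃ s, s = cos (y 1) := ⟨_, rfl⟩
  obtain ⟨s2, hs2⟩ : ∃ s, s = sin (y 2) := ⟨_, rfl⟩
  obtain ⟨c2, hc2⟩ : ∃ s, s = cos (y 2) := ⟨_, rfl⟩
  obtain ⟨s3, hs3⟩ : ∃ s, s = sin (y 3) := ⟨_, rfl⟩
  obtain ⟨c3, hc3⟩ : ∃ s, s = cos (y 3) := ⟨_, rfl⟩
  rw [← hs1, ← hc1] at e1
  rw [← hs2, ← hc2] at e2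
  rw [← hs3, ← hc3] at e3
  rw [← hs1, ← hc1, ← hs2, ← hc2, ← hs3, ← hc3]
  linear_combination (y 0 * c1 * (w 0 * c1 - y 0 * (s1 * w 1)) * s2 ^ 2 +
      y 0 * c1 * s2 * (y 0 * c1 * c2 * w 2)) * e3 +
    (y 0 * c1 * (w 0 * c1 - y 0 * (s1 * w 1))) * e2 + (y 0 * w 0) * e1

theorem sph_normSq (y w : E4) :
    fderiv ℝ sph y w 0 ^ 2 + fderiv ℝ sph y w 1 ^ 2 + fderiv ℝ sph y w 2 ^ 2 +
      fderiv ℝ sph y w 3 ^ 2 =
    w 0 ^ 2 + y 0 ^ 2 * w 1 ^ 2 + (y 0 * cos (y 1)) ^ 2 * w 2 ^ 2 +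
      (y 0 * cos (y 1)) ^ 2 * sin (y 2) ^ 2 * w 3 ^ 2 := by
  obtain ⟨h0, h1, h2, h3⟩ := fderiv_sph y w
  rw [h0, h1, h2, h3]
  have e1 := sin_sq_add_cos_sq (y 1)
  have e2 := sin_sq_add_cos_sq (y 2)
  have e3 := sin_sq_add_cos_sq (y 3)
  obtain ⟨s1, hs1⟩ : ∃ s, s = sin (y 1) := ⟨_, rfl⟩
  obtain ⟨c1, hc1⟩ : ∃ s, s = cos (y 1) := ⟨_, rfl⟩
  obtain ⟨s2, hs2⟩ : ∃ s, s = sin (y 2) := ⟨_, rfl⟩
  obtain ⟨c2, hc2⟩ : ∃ s, s = cos (y 2) := ⟨_, rfl⟩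
  obtain ⟨s3, hs3⟩ : ∃ s, s = sin (y 3) := ⟨_, rfl⟩
  obtain ⟨c3, hc3⟩ : ∃ s, s = cos (y 3) := ⟨_, rfl⟩
  rw [← hs1, ← hc1] at e1
  rw [← hs2, ← hc2] at e2
  rw [← hs3, ← hc3] at e3
  rw [← hs1, ← hc1, ← hs2, ← hc2, ← hs3, ← hc3]
  linear_combination (((w 0 * c1 - y 0 * (s1 * w 1)) * s2 + y 0 * c1 * c2 * w 2) ^ 2 +
      (y 0 * c1 * s2 * w 3) ^ 2) * e3 +
    ((w 0 * c1 - y 0 * (s1 * w 1)) ^ 2 + (y 0 * c1 * w 2) ^ 2) * e2 +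
    (w 0 ^ 2 + (y 0 * w 1) ^ 2) * e1

theorem qf_warpMet (A b : ℝ → ℝ → ℝ) (y w : E4) :
    qf (warpMet A b y) w = w 0 ^ 2 + A (y 0) (y 1) ^ 2 * w 1 ^ 2 + b (y 0) (y 1) ^ 2 * w 2 ^ 2 +
      b (y 0) (y 1) ^ 2 * sin (y 2) ^ 2 * w 3 ^ 2 := by
  unfold qf warpMet
  simp [Fin.sum_univ_four]
  ring

theorem isoAt_sph {l m H η : ℝ → ℝ} (hη : ∀ x ∈ Lat, η x = cos x ^ 2 * H (sin x)) {y : E4}
    (h0 : 0 < y 0) (h1 : y 1 ∈ Lat) :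
    IsoAt (warpMet (neckA l m η) (neckB l)) (neckZ l m H) sph y := by
  refine ⟨contDiff_sph.contDiffAt, ?_⟩
  have hc : ∀ i : Fin 4, Continuous fun y : E4 => y i := fun i =>
    (EuclideanSpace.proj i : E4 →L[ℝ] ℝ).continuous
  have hev : ∀ᶠ z : E4 in 𝓝 y, 0 < z 0 ∧ z 1 ∈ Lat :=
    ((hc 0).continuousAt.eventually (lt_mem_nhds h0)).and
      ((hc 1).continuousAt.eventually (isOpen_Ioo.mem_nhds h1))
  filter_upwards [hev] with z hz w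
  obtain ⟨hz0, hz1⟩ := hz
  have hcz : 0 < cos (z 1) := cos_pos_of_mem_Ioo hz1
  rw [qf_neckZ, qf_warpMet, norm_sph hz0.le, sph_inner, sph_normSq, sph_0, (fderiv_sph z w).1]
  have e1 : z 0 * sin (z 1) / z 0 = sin (z 1) := by field_simp
  rw [e1]
  have e2 : (1 - sin (z 1) ^ 2) = cos (z 1) ^ 2 := by linarith [sin_sq_add_cos_sq (z 1)]
  have e3 : cos (z 1) ^ 2 * nBeta (m (z 0)) (H (sin (z 1))) (sin (z 1)) =
      Real.exp (m (z 0) * η (z 1)) ^ 2 - 1 := by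
    rw [← e2, nBeta_mul, ← Real.exp_nat_mul, hη _ hz1, e2]
    congr 2
    push_cast
    ring
  obtain ⟨B, hB⟩ : ∃ B, B = nBeta (m (z 0)) (H (sin (z 1))) (sin (z 1)) := ⟨_, rfl⟩
  obtain ⟨E, hE⟩ : ∃ E, E = Real.exp (m (z 0) * η (z 1)) := ⟨_, rfl⟩
  unfold neckA neckB
  rw [← hB, ← hE] at e3
  rw [← hB, ← hE]
  have e4 : (w 0 * sin (z 1) + z 0 * (cos (z 1) * w 1)) / z 0 -
      z 0 * sin (z 1) * (z 0 * w 0) / z 0 ^ 3 = cos (z 1) * w 1 := by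
    field_simp
    ring
  rw [e4]
  have e5 : z 0 ≠ 0 := hz0.ne'
  have e6 : (l (z 0) / z 0) ^ 2 * (w 0 ^ 2 + z 0 ^ 2 * w 1 ^ 2 +
      (z 0 * cos (z 1)) ^ 2 * w 2 ^ 2 + (z 0 * cos (z 1)) ^ 2 * sin (z 2) ^ 2 * w 3 ^ 2) +
      (1 - (l (z 0) / z 0) ^ 2) * ((z 0 * w 0) ^ 2 / z 0 ^ 2) =
      w 0 ^ 2 + l (z 0) ^ 2 * w 1 ^ 2 + (l (z 0) * cos (z 1)) ^ 2 * w 2 ^ 2 +
        (l (z 0) * cos (z 1)) ^ 2 * sin (z 2) ^ 2 * w 3 ^ 2 := by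
    field_simp
    ring
  rw [e6]
  linear_combination (l (z 0) ^ 2 * w 1 ^ 2) * e3

/-- Spherical coordinates of a point off the axis. -/
theorem exists_sph {u : E4} (hu : u 1 ^ 2 + u 2 ^ 2 ≠ 0) :
    ∃ y : E4, y 0 = ‖u‖ ∧ y 1 ∈ Lat ∧ sin (y 2) ≠ 0 ∧ sph y = u := by
  have hpos : 0 < u 1 ^ 2 + u 2 ^ 2 := lt_of_le_of_ne (by positivity) (Ne.symm hu)
  obtain ⟨ρ, hρ, hρ2⟩ : ∃ ρ : ℝ, 0 < ρ ∧ ρ ^ 2 = u 1 ^ 2 + u 2 ^ 2 :=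
    ⟨√(u 1 ^ 2 + u 2 ^ 2), Real.sqrt_pos.2 hpos, Real.sq_sqrt hpos.le⟩
  obtain ⟨r, hr, hr2⟩ : ∃ r : ℝ, 0 < r ∧ r ^ 2 = u 1 ^ 2 + u 2 ^ 2 + u 3 ^ 2 :=
    ⟨√(u 1 ^ 2 + u 2 ^ 2 + u 3 ^ 2), Real.sqrt_pos.2 (by positivity), Real.sq_sqrt (by positivity)⟩
  have hn2 := norm_sq_E4 u
  have hn : 0 < ‖u‖ := by
    have h5 : 0 < ‖u‖ ^ 2 := by
      rw [hn2]
      nlinarith [sq_nonneg (u 0), sq_nonneg (u 3)]
    refine lt_of_le_of_ne (norm_nonneg _) fun h6 => ?_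
    rw [← h6] at h5
    norm_num at h5
  obtain ⟨t, ht⟩ : ∃ t, t = ‖u‖ := ⟨_, rfl⟩
  rw [← ht] at hn hn2 ⊢
  have polar : ∀ a b c : ℝ, 0 < c → a ^ 2 + b ^ 2 = c ^ 2 → ∃ θ : ℝ, c * cos θ = a ∧ c * sin θ = b := by
    intro a b c hc hab
    refine ⟨Complex.arg ⟨a, b⟩, ?_, ?_⟩
    · have h1 := Complex.norm_mul_cos_arg ⟨a, b⟩
      have h2 : ‖(⟨a, b⟩ : ℂ)‖ = c := by
        rw [Complex.norm_def, Complex.normSq_apply]
        rw [show a * a + b * b = c ^ 2 by rw [← hab]; ring]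
        exact Real.sqrt_sq hc.le
      rw [h2] at h1
      exact h1
    · have h1 := Complex.norm_mul_sin_arg ⟨a, b⟩
      have h2 : ‖(⟨a, b⟩ : ℂ)‖ = c := by
        rw [Complex.norm_def, Complex.normSq_apply]
        rw [show a * a + b * b = c ^ 2 by rw [← hab]; ring]
        exact Real.sqrt_sq hc.le
      rw [h2] at h1
      exact h1
  obtain ⟨φ, hφ1, hφ2⟩ := polar (u 1) (u 2) ρ hρ hρ2.symm
  obtain ⟨θ, hθ1, hθ2⟩ := polar (u 3) ρ r hr (by linarith)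
  have habs : |u 0 / t| < 1 := by
    rw [abs_div, abs_of_pos hn, div_lt_one hn]
    exact abs_lt_of_sq_lt_sq (by nlinarith) hn.le
  have habs2 := abs_lt.1 habs
  have hx : arcsin (u 0 / t) ∈ Lat :=
    ⟨neg_pi_div_two_lt_arcsin.2 habs2.1, arcsin_lt_pi_div_two.2 habs2.2⟩
  have hs : sin (arcsin (u 0 / t)) = u 0 / t := sin_arcsin habs2.1.le habs2.2.le
  have hc : t * cos (arcsin (u 0 / t)) = r := by
    have hcp : 0 < cos (arcsin (u 0 / t)) := cos_pos_of_mem_Ioo hx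
    have h1 : (t * cos (arcsin (u 0 / t))) ^ 2 = r ^ 2 := by
      have h2 := sin_sq_add_cos_sq (arcsin (u 0 / t))
      rw [hs] at h2
      have h3 : (u 0 / t) ^ 2 = u 0 ^ 2 / t ^ 2 := by ring
      rw [h3] at h2
      have h4 : cos (arcsin (u 0 / t)) ^ 2 = 1 - u 0 ^ 2 / t ^ 2 := by linarith
      rw [mul_pow, h4, hr2]
      field_simp
      linarith
    exact (sq_eq_sq₀ (by positivity) hr.le).1 h1
  refine ⟨WithLp.toLp 2 ![t, arcsin (u 0 / t), θ, φ], rfl, hx, ?_, ?_⟩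
  · change sin θ ≠ 0
    intro h0
    rw [h0, mul_zero] at hθ2
    exact hρ.ne hθ2
  · ext i
    fin_cases i
    · change t * sin (arcsin (u 0 / t)) = u 0
      rw [hs]
      field_simp
    · change t * cos (arcsin (u 0 / t)) * (sin θ * cos φ) = u 1
      rw [hc, ← mul_assoc, hθ2, hφ1]
    · change t * cos (arcsin (u 0 / t)) * (sin θ * sin φ) = u 2
      rw [hc, ← mul_assoc, hθ2, hφ2]
    · change t * cos (arcsin (u 0 / t)) * cos θ = u 3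
      rw [hc, hθ1]

/-- The points off the axis `u 1 = u 2 = 0` are dense. -/
theorem mem_closure_offAxis {T : Set ℝ} (hT : IsOpen T) {u : E4} (hu : ‖u‖ ∈ T) :
    u ∈ closure {v : E4 | ‖v‖ ∈ T ∧ v 1 ^ 2 + v 2 ^ 2 ≠ 0} := by
  rcases ne_or_eq (u 1 ^ 2 + u 2 ^ 2) 0 with h | h
  · exact subset_closure ⟨hu, h⟩
  · have h1 : Tendsto (fun ε : ℝ => u + ε • bv 1) (𝓝[≠] 0) (𝓝 u) := by
      have : Tendsto (fun ε : ℝ => u + ε • bv 1) (𝓝 0) (𝓝 (u + (0 : ℝ) • bv 1)) :=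
        (continuous_const.add (continuous_id.smul continuous_const)).continuousAt
      rw [zero_smul, add_zero] at this
      exact this.mono_left nhdsWithin_le_nhds
    have hu1 : u 1 = 0 := by nlinarith [sq_nonneg (u 1), sq_nonneg (u 2)]
    refine mem_closure_of_tendsto h1 ?_
    have h2 : ∀ᶠ ε : ℝ in 𝓝[≠] 0, ‖u + ε • bv 1‖ ∈ T :=
      h1.eventually (continuous_norm.continuousAt.eventually (hT.mem_nhds hu))
    filter_upwards [h2, self_mem_nhdsWithin] with ε hε1 hε2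
    refine ⟨hε1, ?_⟩
    have h3 : (u + ε • bv 1) 1 = ε := by simp [bv, hu1]
    have h4 : 0 < ε ^ 2 := by
      have : ε ≠ 0 := hε2
      positivity
    rw [h3]
    nlinarith [sq_nonneg ((u + ε • bv 1) 2)]

/-- **The Ricci curvature of the neck metric on `ℝ⁴`.** -/
theorem ricGE_neckZ {l m H η : ℝ → ℝ} (hη : ∀ x ∈ Lat, η x = cos x ^ 2 * H (sin x))
    (hηs : ∀ x ∈ Lat, ContDiffAt ℝ ∞ η x) {T : Set ℝ} (hT : IsOpen T) (hT0 : ∀ t ∈ T, 0 < t)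
    (hl : ∀ t ∈ T, ContDiffAt ℝ ∞ l t) (hm : ∀ t ∈ T, ContDiffAt ℝ ∞ m t)
    (hH : ContDiff ℝ ∞ H) (hlp : ∀ t ∈ T, 0 < l t) {κ : ℝ}
    (hok : ∀ t ∈ T, ∀ x ∈ Lat, NeckOK l m η κ t x) {u : E4} (hu : ‖u‖ ∈ T) :
    RicGE (neckZ l m H) (-κ) u := by
  have hc : ∀ i : Fin 4, Continuous fun y : E4 => y i := fun i =>
    (EuclideanSpace.proj i : E4 →L[ℝ] ℝ).continuous
  have hV0 : {y : E4 | (y 0, y 1) ∈ T ×ˢ Lat ∧ sin (y 2) ≠ 0} =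
      {y : E4 | (y 0 ∈ T ∧ y 1 ∈ Lat) ∧ sin (y 2) ≠ 0} := rfl
  have hV : IsOpen {y : E4 | (y 0, y 1) ∈ T ×ˢ Lat ∧ sin (y 2) ≠ 0} := by
    refine IsOpen.inter ?_ ?_
    · exact (hT.prod isOpen_Ioo).preimage ((hc 0).prodMk (hc 1))
    · exact isOpen_ne.preimage (continuous_sin.comp (hc 2))
  have hA : ContDiffOn ℝ ∞ (fun p : ℝ × ℝ => neckA l m η p.1 p.2) (T ×ˢ Lat) := fun p hp =>
    (((hl _ hp.1).comp p contDiffAt_fst).mul ((((hm _ hp.1).comp p contDiffAt_fst).mul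
      ((hηs _ hp.2).comp p contDiffAt_snd)).exp)).contDiffWithinAt
  have hb : ContDiffOn ℝ ∞ (fun p : ℝ × ℝ => neckB l p.1 p.2) (T ×ˢ Lat) := fun p hp =>
    (((hl _ hp.1).comp p contDiffAt_fst).mul
      (contDiff_cos.contDiffAt.comp p contDiffAt_snd)).contDiffWithinAt
  have hA0 : ∀ p ∈ T ×ˢ Lat, neckA l m η p.1 p.2 ≠ 0 := fun p hp =>
    (mul_pos (hlp _ hp.1) (Real.exp_pos _)).ne'
  have hb0 : ∀ p ∈ T ×ˢ Lat, neckB l p.1 p.2 ≠ 0 := fun p hp =>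
    (mul_pos (hlp _ hp.1) (cos_pos_of_mem_Ioo hp.2)).ne'
  have hg := goodMet_warp hA hb hA0 hb0
  have hg' := goodMet_neckZ (T := T) hT0 hl hm hH hlp
  have hV' : IsOpen {u : E4 | ‖u‖ ∈ T} := hT.preimage continuous_norm
  refine ricGE_of_param hV hg hV' hg' (Q := sph) ?_ ?_ ?_ ?_ u hu
  · intro y hy
    change ‖sph y‖ ∈ T
    rw [norm_sph (hT0 _ hy.1.1).le]
    exact hy.1.1
  · intro y hy
    exact isoAt_sph hη (hT0 _ hy.1.1) hy.1.2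
  · intro v hv
    refine closure_mono ?_ (mem_closure_offAxis hT hv)
    rintro w ⟨hw1, hw2⟩
    obtain ⟨y, hy0, hy1, hy2, hy3⟩ := exists_sph hw2
    exact ⟨y, ⟨⟨by rw [hy0]; exact hw1, hy1⟩, hy2⟩, hy3⟩
  · intro y hy
    exact ricGE_neck hy.1.2 (hl _ hy.1.1) (hm _ hy.1.1) (hηs _ hy.1.2) (hlp _ hy.1.1) hy.2
      (hok _ hy.1.1 _ hy.1.2)

end Pool.Agent.W_MP_654ec6
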